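import Mathlib

/-!
# One-dimensional Brunn–Minkowski and Prékopa–Leindler inequalities
-/

namespace Rigid

open MeasureTheory Set Pointwise

/-- 1D Brunn–Minkowski for compact sets. -/
theorem bm_compact {K L S : Set ℝ} (hK : IsCompact K) (hL : IsCompact L)
    (hKn : K.Nonempty) (hLn : L.Nonempty) {l m : ℝ} (hl : 0 < l) (hm : 0 < m)
    (hsub : ∀ a ∈ K, ∀ b ∈ L, l * a + m * b ∈ S) :
    ENNReal.ofReal l * volume K + ENNReal.ofReal m * volume L ≤ volume S := by
  obtain ⟨a, haK, ha⟩ := hK.exists_isGreatest hKn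
  obtain ⟨b, hbL, hb⟩ := hL.exists_isLeast hLn
  have hvol : ∀ (r c : ℝ) (X : Set ℝ), 0 < r →
      volume ((fun x => r * x + c) '' X) = ENNReal.ofReal r * volume X := by
    intro r c X hr
    have h1 : (fun x : ℝ => r * x + c) '' X = (fun x => x + c) '' (r • X) := by
      ext y
      simp only [mem_image, mem_smul_set, smul_eq_mul]
      constructor
      · rintro ⟨x, hx, rfl⟩
        exact ⟨r * x, ⟨x, hx, rfl⟩, rfl⟩
      · rintro ⟨_, ⟨x, hx, rfl⟩, rfl⟩
        exact ⟨x, hx, rfl⟩
    rw [h1]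
    have h2 : (fun x : ℝ => x + c) '' (r • X) = (fun x => x + (-c)) ⁻¹' (r • X) := by
      ext y
      simp only [mem_image, mem_preimage]
      constructor
      · rintro ⟨x, hx, rfl⟩
        simpa using hx
      · intro h
        exact ⟨_, h, by ring⟩
    rw [h2, measure_preimage_add_right, Measure.addHaar_smul]
    simp [abs_of_pos hr]
  have hU : volume (((fun x => l * x + m * b) '' K) ∪ ((fun x => m * x + l * a) '' L)) =
      ENNReal.ofReal l * volume K + ENNReal.ofReal m * volume L := by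
    rw [measure_union₀, hvol _ _ _ hl, hvol _ _ _ hm]
    · refine (IsCompact.measurableSet ?_).nullMeasurableSet
      exact hL.image (by fun_prop)
    · have : ((fun x => l * x + m * b) '' K) ∩ ((fun x => m * x + l * a) '' L) ⊆
          {l * a + m * b} := by
        rintro y ⟨⟨x, hx, rfl⟩, ⟨z, hz, hzy⟩⟩
        have h1 := ha hx
        have h2 := hb hz
        simp only [mem_singleton_iff]
        simp only at hzy
        have h3 : l * x ≤ l * a := mul_le_mul_of_nonneg_left h1 hl.le
        have h4 : m * b ≤ m * z := mul_le_mul_of_nonneg_left h2 hm.le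
        linarith
      exact measure_mono_null this (by simp)
  rw [← hU]
  apply measure_mono
  rintro y (⟨x, hx, rfl⟩ | ⟨x, hx, rfl⟩)
  · exact hsub x hx b hbL
  · have := hsub a haK x hx
    simpa [add_comm] using this

/-- 1D Brunn–Minkowski. -/
theorem bm {A B S : Set ℝ} (hA : MeasurableSet A) (hB : MeasurableSet B)
    (hAn : A.Nonempty) (hBn : B.Nonempty) {l m : ℝ} (hl : 0 < l) (hm : 0 < m)
    (hsub : ∀ a ∈ A, ∀ b ∈ B, l * a + m * b ∈ S) :
    ENNReal.ofReal l * volume A + ENNReal.ofReal m * volume B ≤ volume S := by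
  have key : ∀ K, (K ⊆ A ∧ IsCompact K) → ∀ L, (L ⊆ B ∧ IsCompact L) →
      ENNReal.ofReal l * volume K + ENNReal.ofReal m * volume L ≤ volume S := by
    rintro K ⟨hKA, hK⟩ L ⟨hLB, hL⟩
    obtain ⟨a, ha⟩ := hAn
    obtain ⟨b, hb⟩ := hBn
    have h1 := bm_compact (K := insert a K) (L := insert b L) (S := S)
      (hK.insert a) (hL.insert b) ⟨a, by simp⟩ ⟨b, by simp⟩ hl hm ?_
    · refine le_trans ?_ h1
      gcongr
      · exact subset_insert a K
      · exact subset_insert b L
    · intro x hx y hy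
      have hx' : x ∈ A := by
        rcases hx with rfl | hx
        · exact ha
        · exact hKA hx
      have hy' : y ∈ B := by
        rcases hy with rfl | hy
        · exact hb
        · exact hLB hy
      exact hsub x hx' y hy'
  rw [hA.measure_eq_iSup_isCompact volume, hB.measure_eq_iSup_isCompact volume]
  have e1 : (⨆ K, ⨆ (_ : K ⊆ A), ⨆ (_ : IsCompact K), volume K) =
      ⨆ K, ⨆ (_ : K ⊆ A ∧ IsCompact K), volume K := by
    congr 1; ext K; rw [iSup_and]
  have e2 : (⨆ K, ⨆ (_ : K ⊆ B), ⨆ (_ : IsCompact K), volume K) =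
      ⨆ K, ⨆ (_ : K ⊆ B ∧ IsCompact K), volume K := by
    congr 1; ext K; rw [iSup_and]
  rw [e1, e2]
  simp only [ENNReal.mul_iSup]
  exact ENNReal.biSup_add_biSup_le' ⟨∅, by simp, isCompact_empty⟩ ⟨∅, by simp, isCompact_empty⟩ key

/-- Normalized Prékopa–Leindler in dimension one (functions with supremum one). -/
theorem pl_norm {F G H : ℝ → ℝ} (hF : Measurable F) (hG : Measurable G) (hH : Measurable H)
    (hF0 : ∀ x, 0 ≤ F x) (hG0 : ∀ x, 0 ≤ G x) (hH0 : ∀ x, 0 ≤ H x)
    (hF1 : ∀ x, F x ≤ 1) (hG1 : ∀ x, G x ≤ 1)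
    (hFs : ∀ t < 1, ∃ x, t < F x) (hGs : ∀ t < 1, ∃ x, t < G x)
    {l m : ℝ} (hl : 0 < l) (hm : 0 < m) (hlm : l + m = 1)
    (h : ∀ x y, F x ^ l * G y ^ m ≤ H (l * x + m * y)) :
    ENNReal.ofReal l * (∫⁻ x, ENNReal.ofReal (F x)) +
      ENNReal.ofReal m * (∫⁻ x, ENNReal.ofReal (G x)) ≤ ∫⁻ x, ENNReal.ofReal (H x) := by
  rw [lintegral_eq_lintegral_meas_lt volume (ae_of_all _ hF0) hF.aemeasurable,
    lintegral_eq_lintegral_meas_lt volume (ae_of_all _ hG0) hG.aemeasurable,
    lintegral_eq_lintegral_meas_lt volume (ae_of_all _ hH0) hH.aemeasurable]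
  refine le_trans (add_le_add (lintegral_const_mul_le _ _) (lintegral_const_mul_le _ _)) ?_
  refine le_trans (le_lintegral_add _ _) ?_
  refine setLIntegral_mono' measurableSet_Ioi ?_
  intro t ht
  have ht : 0 < t := ht
  rcases lt_or_ge t 1 with h1 | h1
  · apply bm
    · exact measurableSet_lt measurable_const hF
    · exact measurableSet_lt measurable_const hG
    · exact hFs t h1
    · exact hGs t h1
    · exact hl
    · exact hm
    · intro x hx y hy
      simp only [mem_ofPred_eq] at *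
      refine lt_of_lt_of_le ?_ (h x y)
      have : t = t ^ l * t ^ m := by
        rw [← Real.rpow_add ht, hlm, Real.rpow_one]
      calc t = t ^ l * t ^ m := this
        _ < F x ^ l * G y ^ m := by
          apply mul_lt_mul'' <;> first | positivity | (apply Real.rpow_lt_rpow ht.le <;> assumption)
  · have e1 : {a | t < F a} = ∅ := by
      ext x; simp only [mem_ofPred_eq, mem_empty_iff_false, iff_false, not_lt]
      exact (hF1 x).trans h1
    have e2 : {a | t < G a} = ∅ := by
      ext x; simp only [mem_ofPred_eq, mem_empty_iff_false, iff_false, not_lt]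
      exact (hG1 x).trans h1
    simp [e1, e2]

/-- Prékopa–Leindler in dimension one for bounded integrable functions. -/
theorem pl {F G H : ℝ → ℝ} (hF : Measurable F) (hG : Measurable G) (hH : Measurable H)
    (hF0 : ∀ x, 0 ≤ F x) (hG0 : ∀ x, 0 ≤ G x) (hH0 : ∀ x, 0 ≤ H x)
    (hFb : BddAbove (range F)) (hGb : BddAbove (range G))
    (iF : Integrable F) (iG : Integrable G) (iH : Integrable H)
    {l m : ℝ} (hl : 0 < l) (hm : 0 < m) (hlm : l + m = 1)
    (h : ∀ x y, F x ^ l * G y ^ m ≤ H (l * x + m * y)) :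
    (∫ x, F x) ^ l * (∫ x, G x) ^ m ≤ ∫ x, H x := by
  have hHi : 0 ≤ ∫ x, H x := integral_nonneg hH0
  by_cases hFz : ∀ x, F x = 0
  · have : ∫ x, F x = 0 := by simp [hFz]
    rw [this, Real.zero_rpow hl.ne', zero_mul]
    exact hHi
  by_cases hGz : ∀ x, G x = 0
  · have : ∫ x, G x = 0 := by simp [hGz]
    rw [this, Real.zero_rpow hm.ne', mul_zero]
    exact hHi
  push Not at hFz hGz
  obtain ⟨x0, hx0⟩ := hFz
  obtain ⟨y0, hy0⟩ := hGz
  set a := sSup (range F) with ha
  set b := sSup (range G) with hb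
  have hFa : ∀ x, F x ≤ a := fun x => le_csSup hFb ⟨x, rfl⟩
  have hGb' : ∀ x, G x ≤ b := fun x => le_csSup hGb ⟨x, rfl⟩
  have ha0 : 0 < a := lt_of_lt_of_le (lt_of_le_of_ne (hF0 x0) (Ne.symm hx0)) (hFa x0)
  have hb0 : 0 < b := lt_of_lt_of_le (lt_of_le_of_ne (hG0 y0) (Ne.symm hy0)) (hGb' y0)
  set k := a ^ l * b ^ m with hk
  have hk0 : 0 < k := by positivity
  have main := pl_norm (F := fun x => F x / a) (G := fun x => G x / b) (H := fun x => H x / k)
    (hF.div_const a) (hG.div_const b) (hH.div_const k)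
    (fun x => div_nonneg (hF0 x) ha0.le) (fun x => div_nonneg (hG0 x) hb0.le)
    (fun x => div_nonneg (hH0 x) hk0.le)
    (fun x => (div_le_one ha0).2 (hFa x)) (fun x => (div_le_one hb0).2 (hGb' x))
    (by
      intro t ht
      have : a * t < a := by nlinarith
      obtain ⟨_, ⟨x, rfl⟩, hx⟩ := exists_lt_of_lt_csSup (range_nonempty F) this
      exact ⟨x, by rw [lt_div_iff₀ ha0]; linarith⟩)
    (by
      intro t ht
      have : b * t < b := by nlinarith
      obtain ⟨_, ⟨x, rfl⟩, hx⟩ := exists_lt_of_lt_csSup (range_nonempty G) this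
      exact ⟨x, by rw [lt_div_iff₀ hb0]; linarith⟩)
    hl hm hlm
    (by
      intro x y
      rw [Real.div_rpow (hF0 x) ha0.le, Real.div_rpow (hG0 y) hb0.le, div_mul_div_comm]
      exact div_le_div_of_nonneg_right (h x y) hk0.le)
  rw [← ofReal_integral_eq_lintegral_ofReal (iF.div_const a)
      (ae_of_all _ fun x => div_nonneg (hF0 x) ha0.le),
    ← ofReal_integral_eq_lintegral_ofReal (iG.div_const b)
      (ae_of_all _ fun x => div_nonneg (hG0 x) hb0.le),
    ← ofReal_integral_eq_lintegral_ofReal (iH.div_const k)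
      (ae_of_all _ fun x => div_nonneg (hH0 x) hk0.le),
    integral_div, integral_div, integral_div] at main
  have hFi : 0 ≤ ∫ x, F x := integral_nonneg hF0
  have hGi : 0 ≤ ∫ x, G x := integral_nonneg hG0
  rw [← ENNReal.ofReal_mul hl.le, ← ENNReal.ofReal_mul hm.le,
    ← ENNReal.ofReal_add (by positivity) (by positivity),
    ENNReal.ofReal_le_ofReal_iff (by positivity)] at main
  have amgm := Real.geom_mean_le_arith_mean2_weighted hl.le hm.le
    (div_nonneg hFi ha0.le) (div_nonneg hGi hb0.le) hlm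
  have := amgm.trans main
  rw [Real.div_rpow hFi ha0.le, Real.div_rpow hGi hb0.le, div_mul_div_comm] at this
  rwa [div_le_div_iff_of_pos_right hk0] at this

end Rigid
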