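import Mathlib

/-!
# Affine symmetries of a graph and the cone of admissible directions
-/

namespace Rigid

open Set Filter Topology

set_option linter.unusedSectionVars false

variable {V : Type*} [NormedAddCommGroup V] [NormedSpace ℝ V]

/-- Graph of `f` in `V × ℝ`. -/
def Gr (f : V → ℝ) : Set (V × ℝ) := {p | p.2 = f p.1}

/-- Signed vertical distance to the graph. -/
def sg (f : V → ℝ) (p : V × ℝ) : ℝ := p.2 - f p.1

/-- Cone of directions `v` such that the epigraph is stable under translation by `t v`, `t ≥ 0`. -/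
def KK (f : V → ℝ) : Set (V × ℝ) :=
  {v | ∀ x, ∀ t : ℝ, 0 ≤ t → f (x + t • v.1) ≤ f x + t * v.2}

/-- Affine symmetries of the graph. -/
def HH (f : V → ℝ) : Subgroup ((V × ℝ) ≃ᵃ[ℝ] (V × ℝ)) where
  carrier := {T | ∀ p, T p ∈ Gr f ↔ p ∈ Gr f}
  mul_mem' := by
    intro a b ha hb p
    show a (b p) ∈ Gr f ↔ _
    rw [ha, hb]
  one_mem' := by intro p; exact Iff.rfl
  inv_mem' := by
    intro a ha p
    rw [← ha]
    show a (a.symm p) ∈ Gr f ↔ _
    rw [AffineEquiv.apply_symm_apply]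

theorem mem_Gr {f : V → ℝ} {p : V × ℝ} : p ∈ Gr f ↔ p.2 = f p.1 := Iff.rfl

theorem mem_Gr' {f : V → ℝ} {p : V × ℝ} : p ∈ Gr f ↔ sg f p = 0 := by
  rw [mem_Gr, sg, sub_eq_zero]

theorem mem_HH {f : V → ℝ} {T : (V × ℝ) ≃ᵃ[ℝ] (V × ℝ)} :
    T ∈ HH f ↔ ∀ p, T p ∈ Gr f ↔ p ∈ Gr f := Iff.rfl

theorem mem_KK {f : V → ℝ} {v : V × ℝ} :
    v ∈ KK f ↔ ∀ x, ∀ t : ℝ, 0 ≤ t → f (x + t • v.1) ≤ f x + t * v.2 := Iff.rfl

theorem KK_iff_pos {f : V → ℝ} {v : V × ℝ} :
    v ∈ KK f ↔ ∀ p, ∀ t : ℝ, 0 ≤ t → 0 ≤ sg f p → 0 ≤ sg f (p + t • v) := by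
  rw [mem_KK]
  constructor
  · intro h p t ht hp
    have := h p.1 t ht
    simp only [sg, Prod.fst_add, Prod.smul_fst, Prod.snd_add, Prod.smul_snd, smul_eq_mul] at *
    linarith
  · intro h x t ht
    have := h (x, f x) t ht (by simp [sg])
    simp only [sg, Prod.fst_add, Prod.smul_fst, Prod.snd_add, Prod.smul_snd, smul_eq_mul] at this
    linarith

theorem KK_iff_neg {f : V → ℝ} {v : V × ℝ} :
    v ∈ KK f ↔ ∀ p, ∀ t : ℝ, 0 ≤ t → sg f p ≤ 0 → sg f (p - t • v) ≤ 0 := by
  rw [mem_KK]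
  constructor
  · intro h p t ht hp
    have := h (p.1 - t • v.1) t ht
    rw [sub_add_cancel] at this
    simp only [sg, Prod.fst_sub, Prod.smul_fst, Prod.snd_sub, Prod.smul_snd, smul_eq_mul] at *
    linarith
  · intro h x t ht
    have := h (x + t • v.1, f (x + t • v.1)) t ht (by simp [sg])
    simp only [sg, Prod.fst_sub, Prod.smul_fst, Prod.snd_sub, Prod.smul_snd, smul_eq_mul,
      add_sub_cancel_right] at this
    linarith

theorem KK_closed {f : V → ℝ} (hf : Continuous f) : IsClosed (KK f) := by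
  have : KK f = ⋂ x : V, ⋂ t : ℝ, ⋂ _ : 0 ≤ t, {v : V × ℝ | f (x + t • v.1) ≤ f x + t * v.2} := by
    ext v
    simp only [mem_KK, mem_iInter, mem_ofPred_eq]
  rw [this]
  refine isClosed_iInter fun x => isClosed_iInter fun t => isClosed_iInter fun _ => ?_
  exact isClosed_le (by fun_prop) (by fun_prop)

theorem KK_add {f : V → ℝ} {v w : V × ℝ} (hv : v ∈ KK f) (hw : w ∈ KK f) : v + w ∈ KK f := by
  intro x t ht
  have h1 := hv x t ht
  have h2 := hw (x + t • v.1) t ht
  simp only [Prod.fst_add, Prod.snd_add, smul_add, mul_add]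
  rw [← add_assoc]
  linarith

theorem KK_smul {f : V → ℝ} {v : V × ℝ} (hv : v ∈ KK f) {r : ℝ} (hr : 0 ≤ r) : r • v ∈ KK f := by
  intro x t ht
  have h1 := hv x (t * r) (mul_nonneg ht hr)
  simp only [Prod.smul_fst, Prod.smul_snd, smul_smul, smul_eq_mul]
  linarith

theorem KK_zero (f : V → ℝ) : (0 : V × ℝ) ∈ KK f := by
  intro x t ht
  simp

theorem KK_vert {f : V → ℝ} {z : ℝ} : ((0 : V), z) ∈ KK f ↔ 0 ≤ z := by
  constructor
  · intro h
    have := h 0 1 zero_le_one
    simp at this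
    exact this
  · intro hz x t ht
    simp
    positivity

theorem KK_convex (f : V → ℝ) : Convex ℝ (KK f) := by
  intro v hv w hw a b ha hb _
  exact KK_add (KK_smul hv ha) (KK_smul hw hb)

theorem sg_cont {f : V → ℝ} (hf : Continuous f) : Continuous (sg f) := by
  unfold sg; fun_prop

theorem aff_apply (T : (V × ℝ) ≃ᵃ[ℝ] (V × ℝ)) (p v : V × ℝ) : T (p + v) = T p + T.linear v := by
  have := T.map_vadd p v
  simp only [vadd_eq_add] at this
  rw [add_comm p v, this, add_comm]

theorem aff_cont [FiniteDimensional ℝ V] (T : (V × ℝ) ≃ᵃ[ℝ] (V × ℝ)) : Continuous T := by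
  have h : ∀ p, T p = T 0 + T.linear p := fun p => by
    rw [← aff_apply, zero_add]
  have h2 : (T : V × ℝ → V × ℝ) = fun p => T 0 + T.linear p := funext h
  rw [h2]
  have : Continuous (T.linear : V × ℝ → V × ℝ) :=
    LinearMap.continuous_of_finiteDimensional (T.linear : (V × ℝ) →ₗ[ℝ] (V × ℝ))
  exact continuous_const.add this

/-- sign of a symmetry -/
theorem exists_sign [FiniteDimensional ℝ V] {f : V → ℝ} (hf : Continuous f)
    {T : (V × ℝ) ≃ᵃ[ℝ] (V × ℝ)} (hT : T ∈ HH f) :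
    ∃ ε : ℝ, (ε = 1 ∨ ε = -1) ∧ ∀ p, 0 ≤ sg f p ↔ 0 ≤ ε * sg f (T p) := by
  have hs : Continuous (fun q : V × ℝ => sg f (T (q.1, f q.1 + q.2))) :=
    (sg_cont hf).comp ((aff_cont T).comp (by fun_prop))
  set s : V × ℝ → ℝ := fun q => sg f (T (q.1, f q.1 + q.2)) with hsdef
  have hs0 : ∀ q, s q = 0 ↔ q.2 = 0 := by
    intro q
    simp only [hsdef]
    rw [← mem_Gr', hT, mem_Gr']
    simp [sg]
  have hsp : ∀ p : V × ℝ, sg f (T p) = s (p.1, sg f p) := by
    intro p
    simp [hsdef, sg]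
  have hconst : ∀ C : Set (V × ℝ), IsPreconnected C → (∀ q ∈ C, q.2 ≠ 0) →
      (∀ q ∈ C, 0 < s q) ∨ (∀ q ∈ C, s q < 0) := by
    intro C hC hC0
    by_contra hcon
    push Not at hcon
    obtain ⟨⟨a, ha, ha'⟩, ⟨b, hb, hb'⟩⟩ := hcon
    obtain ⟨q, hq, hq0⟩ := hC.intermediate_value ha hb hs.continuousOn ⟨ha', hb'⟩
    exact hC0 q hq ((hs0 q).1 hq0)
  have hP : IsPreconnected {q : V × ℝ | 0 < q.2} := by
    have : {q : V × ℝ | 0 < q.2} = (univ : Set V) ×ˢ Ioi (0 : ℝ) := by ext; simp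
    rw [this]
    exact isPreconnected_univ.prod isPreconnected_Ioi
  have hN : IsPreconnected {q : V × ℝ | q.2 < 0} := by
    have : {q : V × ℝ | q.2 < 0} = (univ : Set V) ×ˢ Iio (0 : ℝ) := by ext; simp
    rw [this]
    exact isPreconnected_univ.prod isPreconnected_Iio
  have hsurj : ∀ y : V × ℝ, ∃ q : V × ℝ, s q = sg f y ∧ (q.2 = sg f (T.symm y)) := by
    intro y
    refine ⟨((T.symm y).1, sg f (T.symm y)), ?_, rfl⟩
    rw [← hsp, AffineEquiv.apply_symm_apply]
  rcases hconst _ hP (fun q hq => ne_of_gt hq) with h1 | h1 <;>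
    rcases hconst _ hN (fun q hq => ne_of_lt hq) with h2 | h2
  · exfalso
    obtain ⟨q, hq, hq2⟩ := hsurj (0, f 0 - 1)
    have h3 : s q < 0 := by rw [hq]; simp [sg]
    rcases lt_trichotomy q.2 0 with h | h | h
    · exact absurd (h2 q h) (not_lt.2 h3.le)
    · rw [(hs0 q).2 h] at h3; exact lt_irrefl _ h3
    · exact absurd (h1 q h) (not_lt.2 h3.le)
  · refine ⟨1, Or.inl rfl, fun p => ?_⟩
    rw [one_mul, hsp]
    rcases lt_trichotomy (sg f p) 0 with h | h | h
    · have := h2 (p.1, sg f p) h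
      constructor <;> intro h' <;> linarith
    · rw [(hs0 (p.1, sg f p)).2 h, h]
    · have := h1 (p.1, sg f p) h
      constructor <;> intro h' <;> linarith
  · refine ⟨-1, Or.inr rfl, fun p => ?_⟩
    rw [hsp]
    rcases lt_trichotomy (sg f p) 0 with h | h | h
    · have := h2 (p.1, sg f p) h
      constructor <;> intro h' <;> linarith
    · rw [(hs0 (p.1, sg f p)).2 h, h]; simp
    · have := h1 (p.1, sg f p) h
      constructor <;> intro h' <;> linarith
  · exfalso
    obtain ⟨q, hq, hq2⟩ := hsurj (0, f 0 + 1)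
    have h3 : 0 < s q := by rw [hq]; simp [sg]
    rcases lt_trichotomy q.2 0 with h | h | h
    · exact absurd (h2 q h) (not_lt.2 h3.le)
    · rw [(hs0 q).2 h] at h3; exact lt_irrefl _ h3
    · exact absurd (h1 q h) (not_lt.2 h3.le)

theorem KK_sign [FiniteDimensional ℝ V] {f : V → ℝ} (hf : Continuous f)
    {T : (V × ℝ) ≃ᵃ[ℝ] (V × ℝ)} (hT : T ∈ HH f) :
    ∃ ε : ℝ, (ε = 1 ∨ ε = -1) ∧ ∀ v, v ∈ KK f ↔ ε • T.linear v ∈ KK f := by
  obtain ⟨ε, hε, h⟩ := exists_sign hf hT
  refine ⟨ε, hε, fun v => ?_⟩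
  have key : ∀ p (t : ℝ), T (p + t • v) = T p + t • T.linear v := by
    intro p t; rw [aff_apply, map_smul]
  rcases hε with rfl | rfl
  · simp only [one_smul, one_mul] at *
    constructor
    · intro hv
      rw [KK_iff_pos] at hv ⊢
      intro p t ht hp
      have h1 := hv (T.symm p) t ht ((h _).2 (by rwa [AffineEquiv.apply_symm_apply]))
      rw [h, key, AffineEquiv.apply_symm_apply] at h1
      exact h1
    · intro hv
      rw [KK_iff_pos] at hv ⊢
      intro p t ht hp
      rw [h] at hp ⊢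
      rw [key]
      exact hv _ t ht hp
  · simp only [neg_smul, one_smul, neg_mul, one_mul] at *
    constructor
    · intro hv
      rw [KK_iff_pos] at hv
      rw [KK_iff_neg]
      intro p t ht hp
      have h1 := hv (T.symm p) t ht ((h _).2 (by rw [AffineEquiv.apply_symm_apply]; linarith))
      rw [h, key, AffineEquiv.apply_symm_apply] at h1
      rw [smul_neg, sub_neg_eq_add]
      linarith
    · intro hv
      rw [KK_iff_neg] at hv
      rw [KK_iff_pos]
      intro p t ht hp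
      rw [h] at hp ⊢
      rw [key]
      have := hv (T p) t ht (by linarith)
      rw [smul_neg, sub_neg_eq_add] at this
      linarith

/-- Lineality: exact behaviour along lines. -/
theorem lin_eq {f : V → ℝ} {w : V × ℝ} (h1 : w ∈ KK f) (h2 : -w ∈ KK f) (x : V) (t : ℝ) :
    f (x + t • w.1) = f x + t * w.2 := by
  have key : ∀ w : V × ℝ, w ∈ KK f → -w ∈ KK f → ∀ x (t : ℝ), 0 ≤ t →
      f (x + t • w.1) = f x + t * w.2 := by
    intro w h1 h2 x t ht
    apply le_antisymm (h1 x t ht)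
    have := h2 (x + t • w.1) t ht
    simp only [Prod.fst_neg, smul_neg, add_neg_cancel_right, Prod.snd_neg, mul_neg] at this
    linarith
  rcases le_total 0 t with ht | ht
  · exact key w h1 h2 x t ht
  · have := key (-w) h2 (by rwa [neg_neg]) x (-t) (by linarith)
    simpa using this

/-- Contraction lemma. -/
theorem VF1 [FiniteDimensional ℝ V] {f : V → ℝ} (hf : Continuous f)
    {T : (V × ℝ) ≃ᵃ[ℝ] (V × ℝ)} (hT : T ∈ HH f) {δ : ℝ} (hδ : |δ| = 1)
    (hv : T.linear (0, 1) = (0, δ)) (S : V →ₗ[ℝ] V)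
    (hS : ∀ x, T.linear (x, 0) = (S x, 0))
    (hlim : ∀ x, Tendsto (fun n : ℕ => (S ^ n) x) atTop (𝓝 0)) :
    ∃ k, ∀ x, f x = k := by
  set b := (T 0).1 with hb
  set k := (T 0).2 with hk
  have hTf : ∀ x z, T (x, z) = (S x + b, δ * z + k) := by
    intro x z
    have e : ((x, z) : V × ℝ) = 0 + ((x, 0) + z • (0, 1)) := by
      ext <;> simp
    rw [e, aff_apply, map_add, map_smul, hS, hv]
    ext
    · simp [hb]; abel
    · simp [hk]; ring
  have hfun : ∀ x, f (S x + b) = δ * f x + k := by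
    intro x
    have h1 : T (x, f x) ∈ Gr f := (hT _).2 rfl
    rw [hTf, mem_Gr] at h1
    exact h1.symm
  -- fixed point
  have hinj : Function.Injective (LinearMap.id - S : V →ₗ[ℝ] V) := by
    rw [← LinearMap.ker_eq_bot, LinearMap.ker_eq_bot']
    intro x hx
    have hx' : S x = x := by
      have : x - S x = 0 := by simpa using hx
      exact (sub_eq_zero.1 this).symm
    have hn : ∀ n : ℕ, (S ^ n) x = x := by
      intro n
      induction n with
      | zero => simp
      | succ n ih => rw [pow_succ, Module.End.mul_apply, hx', ih]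
    have := hlim x
    simp only [hn] at this
    exact tendsto_nhds_unique tendsto_const_nhds this
  have hsurj : Function.Surjective (LinearMap.id - S : V →ₗ[ℝ] V) := LinearMap.injective_iff_surjective.1 hinj
  obtain ⟨x0, hx0⟩ := hsurj b
  have hx0' : S x0 + b = x0 := by
    have : x0 - S x0 = b := by simpa using hx0
    rw [← this]; abel
  have h0 := hfun x0
  rw [hx0'] at h0
  have hg : ∀ y, |f (x0 + S y) - f x0| = |f (x0 + y) - f x0| := by
    intro y
    have h1 := hfun (x0 + y)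
    have e : S (x0 + y) + b = x0 + S y := by
      calc S (x0 + y) + b = (S x0 + b) + S y := by rw [map_add]; abel
        _ = x0 + S y := by rw [hx0']
    rw [e] at h1
    have h2 : f (x0 + S y) - f x0 = δ * (f (x0 + y) - f x0) := by
      rw [h1]; linear_combination -h0
    rw [h2, abs_mul, hδ, one_mul]
  have hgn : ∀ n : ℕ, ∀ y, |f (x0 + (S ^ n) y) - f x0| = |f (x0 + y) - f x0| := by
    intro n
    induction n with
    | zero => intro y; simp
    | succ n ih => intro y; rw [pow_succ', Module.End.mul_apply, hg, ih]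
  refine ⟨f x0, fun x => ?_⟩
  have hc : Tendsto (fun n : ℕ => |f (x0 + (S ^ n) (x - x0)) - f x0|) atTop (𝓝 |f (x0 + 0) - f x0|) := by
    apply Tendsto.abs
    apply Tendsto.sub_const
    exact (hf.tendsto _).comp (tendsto_const_nhds.add (hlim _))
  simp only [hgn] at hc
  have := tendsto_nhds_unique tendsto_const_nhds hc
  simp only [add_sub_cancel, add_zero, sub_self, abs_zero, abs_eq_zero] at this
  linarith

end Rigid
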