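import Mathlib
import Pool.Agent.Lib_helper73.Rigid.Basic

/-!
# Monomial symmetries and the orthant contradiction
-/

namespace Rigid

open Set Filter Topology

set_option linter.unusedSectionVars false

variable {V : Type*} [NormedAddCommGroup V] [NormedSpace ℝ V]

/-- monomial symmetry with respect to a frame `u` -/
structure Mon {ι : Type*} (f : V → ℝ) (u : ι → V × ℝ) (T : (V × ℝ) ≃ᵃ[ℝ] (V × ℝ))
    (σ : Equiv.Perm ι) (ε : ℝ) (x : ι → ℝ) : Prop where
  mem : T ∈ HH f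
  lin : ∀ i, T.linear (u i) = (ε * x i) • u (σ i)
  pos : ∀ i, 0 < x i
  sgn : ε = 1 ∨ ε = -1

variable {ι : Type*} {f : V → ℝ} {u : ι → V × ℝ} {T T' : (V × ℝ) ≃ᵃ[ℝ] (V × ℝ)}
  {σ σ' : Equiv.Perm ι} {ε ε' : ℝ} {x x' : ι → ℝ}

theorem Mon.mul (h : Mon f u T σ ε x) (h' : Mon f u T' σ' ε' x') :
    Mon f u (T * T') (σ * σ') (ε * ε') (fun i => x' i * x (σ' i)) where
  mem := (HH f).mul_mem h.mem h'.mem
  lin := by
    intro i
    show T.linear (T'.linear (u i)) = _
    rw [h'.lin, map_smul, h.lin, smul_smul, Equiv.Perm.mul_apply]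
    congr 1; ring
  pos := fun i => mul_pos (h'.pos i) (h.pos _)
  sgn := by
    rcases h.sgn with rfl | rfl <;> rcases h'.sgn with rfl | rfl <;> simp

theorem Mon.inv (h : Mon f u T σ ε x) :
    Mon f u T⁻¹ σ⁻¹ ε (fun i => (x (σ⁻¹ i))⁻¹) where
  mem := (HH f).inv_mem h.mem
  lin := by
    intro i
    show T.linear.symm (u i) = _
    rw [LinearEquiv.symm_apply_eq, map_smul, h.lin, smul_smul]
    have h1 := (h.pos (σ⁻¹ i)).ne'
    have h2 : ε * (x (σ⁻¹ i))⁻¹ * (ε * x (σ⁻¹ i)) = 1 := by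
      have : ε * ε = 1 := by rcases h.sgn with rfl | rfl <;> norm_num
      field_simp
      linarith
    rw [h2, one_smul]
    congr 1
    exact (σ.apply_symm_apply i).symm
  pos := fun i => inv_pos.2 (h.pos _)
  sgn := h.sgn

/-- Every line parallel to `w` meets the graph exactly once. -/
def Line1 (f : V → ℝ) (w : V × ℝ) : Prop := ∀ p, ∃! s : ℝ, p + s • w ∈ Gr f

theorem Line1_vert (f : V → ℝ) : Line1 f ((0, 1) : V × ℝ) := by
  intro p
  refine ⟨f p.1 - p.2, ?_, ?_⟩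
  · simp [mem_Gr]
  · intro s hs
    have hs' : p.2 + s = f p.1 := by simpa [mem_Gr] using hs
    linarith

theorem Line1.transport {T : (V × ℝ) ≃ᵃ[ℝ] (V × ℝ)} (hT : T ∈ HH f) {w w' : V × ℝ} {l : ℝ}
    (hl : l ≠ 0) (hw : T.linear w = l • w') (h : Line1 f w) : Line1 f w' := by
  intro p
  have key : ∀ s : ℝ, (p + s • w' ∈ Gr f ↔ T.symm p + (s / l) • w ∈ Gr f) := by
    intro s
    rw [← hT (T.symm p + (s / l) • w), aff_apply, AffineEquiv.apply_symm_apply, map_smul, hw,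
      smul_smul, div_mul_cancel₀ _ hl]
  obtain ⟨s, hs, huniq⟩ := h (T.symm p)
  refine ⟨s * l, ?_, ?_⟩
  · show p + (s * l) • w' ∈ Gr f
    rw [key, mul_div_cancel_right₀ _ hl]
    exact hs
  · intro r hr
    have := huniq (r / l) ((key r).1 hr)
    rw [← this, div_mul_cancel₀ _ hl]

theorem KK_mono {v : V × ℝ} (hv : v ∈ KK f) {t : ℝ} (ht : 0 ≤ t) (p : V × ℝ) :
    sg f p ≤ sg f (p + t • v) := by
  have := hv p.1 t ht
  simp only [sg, Prod.fst_add, Prod.smul_fst, Prod.snd_add, Prod.smul_snd, smul_eq_mul]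
  linarith

/-- antichain property -/
theorem antichain {v w : V × ℝ} (hv : v ∈ KK f) (hw : w ∈ KK f) (hl : Line1 f v)
    {p : V × ℝ} (hp : p ∈ Gr f) {a b : ℝ} (ha : 0 < a) (hb : 0 ≤ b) :
    p + a • v + b • w ∉ Gr f := by
  intro hcon
  have h1 : sg f p ≤ sg f (p + a • v) := KK_mono hv ha.le p
  have h2 : sg f (p + a • v) ≤ sg f (p + a • v + b • w) := KK_mono hw hb _
  rw [mem_Gr'] at hp hcon
  have h3 : sg f (p + a • v) = 0 := by linarith
  obtain ⟨s, _, hu⟩ := hl p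
  have e1 := hu a (mem_Gr'.2 h3)
  have e2 := hu 0 (by
    show p + (0 : ℝ) • v ∈ Gr f
    rw [zero_smul, add_zero]; exact mem_Gr'.2 hp)
  rw [e1, ← e2] at ha
  exact lt_irrefl _ ha

theorem oct_contra (hline : ∀ i, Line1 f (u i)) (hK : ∀ i, u i ∈ KK f)
    {g : (V × ℝ) ≃ᵃ[ℝ] (V × ℝ)} (hgm : g ∈ HH f) {x : ι → ℝ}
    (hg : ∀ i, g.linear (u i) = x i • u i) {i j : ι} (hi : 1 < x i) (hj : x j < 1)
    {O : V × ℝ} (hO : O ∈ Gr f) (hgO : g O = O) : False := by
  obtain ⟨s, hs, _⟩ := hline j (O + u i)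
  have hs0 : s < 0 := by
    by_contra hcon
    push Not at hcon
    refine antichain (hK i) (hK j) (hline i) hO (a := 1) (b := s) one_pos hcon ?_
    rw [one_smul]; exact hs
  have h1 := (hgm (O + u i + s • u j)).2 hs
  rw [aff_apply, aff_apply, hgO, map_smul, hg, hg] at h1
  refine antichain (hK i) (hK j) (hline i) hs (a := x i - 1) (b := (x j - 1) * s)
    (by linarith) (by nlinarith) ?_
  convert h1 using 1
  module

theorem fix_exists [Fintype ι] [DecidableEq ι] (hspan : ⊤ ≤ Submodule.span ℝ (range u))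
    {g : (V × ℝ) ≃ᵃ[ℝ] (V × ℝ)} (hgm : g ∈ HH f) {x : ι → ℝ}
    (hg : ∀ i, g.linear (u i) = x i • u i) (k : ι) (hline : Line1 f (u k))
    (hx : ∀ m, m ≠ k → x m ≠ 1) : ∃ O ∈ Gr f, g O = O := by
  obtain ⟨β, hβ⟩ := (Submodule.mem_span_range_iff_exists_fun ℝ).1 (hspan (Submodule.mem_top (x := g 0)))
  set γ : ι → ℝ := fun m => if m = k then 0 else β m / (1 - x m) with hγ
  set p : V × ℝ := ∑ m, γ m • u m with hp
  have hgp : g p = p + β k • u k := by
    have e0 : g p = g 0 + g.linear p := by rw [← aff_apply, zero_add]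
    have e1 : g.linear p = ∑ m, (γ m * x m) • u m := by
      rw [hp, map_sum]
      refine Finset.sum_congr rfl fun m _ => ?_
      rw [map_smul, hg, smul_smul]
    have e2 : β k • u k = ∑ m, (β m + γ m * x m - γ m) • u m := by
      rw [Finset.sum_eq_single k]
      · simp [hγ]
      · intro m _ hm
        have hxm : 1 - x m ≠ 0 := fun h => hx m hm (by linarith)
        have : β m + γ m * x m - γ m = 0 := by
          simp only [hγ, if_neg hm]
          field_simp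
          ring
        rw [this, zero_smul]
      · intro h; exact absurd (Finset.mem_univ k) h
    rw [e0, e1, ← hβ, e2, hp, ← Finset.sum_add_distrib, ← Finset.sum_add_distrib]
    refine Finset.sum_congr rfl fun m _ => ?_
    module
  obtain ⟨s, hs, hu⟩ := hline p
  refine ⟨p + s • u k, hs, ?_⟩
  have h1 := (hgm (p + s • u k)).2 hs
  have e3 : g (p + s • u k) = p + (β k + s * x k) • u k := by
    rw [aff_apply, hgp, map_smul, hg]
    module
  rw [e3] at h1 ⊢
  have := hu _ h1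
  rw [this]

theorem no_diag [Fintype ι] [DecidableEq ι] (hspan : ⊤ ≤ Submodule.span ℝ (range u))
    (hline : ∀ i, Line1 f (u i)) (hK : ∀ i, u i ∈ KK f)
    {g : (V × ℝ) ≃ᵃ[ℝ] (V × ℝ)} (hgm : g ∈ HH f) {x : ι → ℝ}
    (hg : ∀ i, g.linear (u i) = x i • u i) {i j : ι} (hi : 1 < x i) (hj : x j < 1)
    (hk : ∃ k, ∀ m, m ≠ k → m = i ∨ m = j) : False := by
  obtain ⟨k, hk⟩ := hk
  obtain ⟨O, hO, hgO⟩ := fix_exists hspan hgm hg k (hline k) (by
    intro m hm
    rcases hk m hm with rfl | rfl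
    · exact hi.ne'
    · exact hj.ne)
  exact oct_contra hline hK hgm hg hi hj hO hgO

theorem Mon.no_diag [Fintype ι] [DecidableEq ι] (hspan : ⊤ ≤ Submodule.span ℝ (range u))
    (hline : ∀ i, Line1 f (u i)) (hK : ∀ i, u i ∈ KK f) {g : (V × ℝ) ≃ᵃ[ℝ] (V × ℝ)}
    {ε : ℝ} (hε : ε = 1) {σ : Equiv.Perm ι} (hσ : σ = 1)
    (hg : Mon f u g σ ε x) {i j : ι} (hi : 1 < x i) (hj : x j < 1)
    (hk : ∃ k, ∀ m, m ≠ k → m = i ∨ m = j) : False := by
  subst hε hσ
  refine Rigid.no_diag hspan hline hK hg.mem (x := x) ?_ hi hj hk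
  intro i
  rw [hg.lin]; simp

end Rigid
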