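import Mathlib
import Pool.Agent.Lib_helper73.Rigid.Basic

/-!
# The Euclidean quadratic form on `(ℝ × ℝ) × ℝ`
-/

namespace Rigid

open MeasureTheory Set Filter Topology

/-- model space -/
abbrev W := (ℝ × ℝ) × ℝ

/-- Euclidean quadratic form. -/
def Q (v : W) : ℝ := v.1.1 ^ 2 + v.1.2 ^ 2 + v.2 ^ 2

/-- Euclidean bilinear form. -/
def B (v w : W) : ℝ := v.1.1 * w.1.1 + v.1.2 * w.1.2 + v.2 * w.2

theorem Q_eq (v : W) : Q v = B v v := by unfold Q B; ring

theorem B_comm (v w : W) : B v w = B w v := by unfold B; ring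

theorem B_add_left (u v w : W) : B (u + v) w = B u w + B v w := by
  unfold B; simp; ring

theorem B_add_right (u v w : W) : B u (v + w) = B u v + B u w := by
  unfold B; simp; ring

theorem B_smul_left (r : ℝ) (v w : W) : B (r • v) w = r * B v w := by
  unfold B; simp; ring

theorem B_smul_right (r : ℝ) (v w : W) : B v (r • w) = r * B v w := by
  unfold B; simp; ring

theorem B_neg_right (v w : W) : B v (-w) = - B v w := by
  unfold B; simp; ring

theorem B_zero_right (v : W) : B v 0 = 0 := by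
  unfold B; simp

theorem Q_nonneg (v : W) : 0 ≤ Q v := by unfold Q; positivity

theorem Q_add (v w : W) : Q (v + w) = Q v + 2 * B v w + Q w := by
  unfold Q B; simp; ring

theorem Q_sub (v w : W) : Q (v - w) = Q v - 2 * B v w + Q w := by
  unfold Q B; simp; ring

theorem Q_smul (r : ℝ) (v : W) : Q (r • v) = r ^ 2 * Q v := by
  unfold Q; simp; ring

theorem Q_zero : Q 0 = 0 := by simp [Q]

theorem Q_eq_zero {v : W} : Q v = 0 ↔ v = 0 := by
  constructor
  · intro h
    unfold Q at h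
    have h1 : v.1.1 = 0 := by nlinarith [sq_nonneg v.1.1, sq_nonneg v.1.2, sq_nonneg v.2]
    have h2 : v.1.2 = 0 := by nlinarith [sq_nonneg v.1.1, sq_nonneg v.1.2, sq_nonneg v.2]
    have h3 : v.2 = 0 := by nlinarith [sq_nonneg v.1.1, sq_nonneg v.1.2, sq_nonneg v.2]
    ext <;> simp [h1, h2, h3]
  · rintro rfl; exact Q_zero

theorem Q_cont : Continuous Q := by unfold Q; fun_prop

theorem B_cont_right (v : W) : Continuous (B v) := by unfold B; fun_prop

theorem B_cont_left (w : W) : Continuous (fun v => B v w) := by unfold B; fun_prop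

theorem norm_sq_le_Q (v : W) : ‖v‖ ^ 2 ≤ Q v := by
  have h : ‖v‖ ≤ Real.sqrt (Q v) := by
    rw [Prod.norm_def, Prod.norm_def, max_le_iff, max_le_iff]
    unfold Q
    refine ⟨⟨?_, ?_⟩, ?_⟩
    · apply Real.le_sqrt_of_sq_le
      rw [Real.norm_eq_abs, sq_abs]
      nlinarith [sq_nonneg v.1.1, sq_nonneg v.1.2, sq_nonneg v.2]
    · apply Real.le_sqrt_of_sq_le
      rw [Real.norm_eq_abs, sq_abs]
      nlinarith [sq_nonneg v.1.1, sq_nonneg v.1.2, sq_nonneg v.2]
    · apply Real.le_sqrt_of_sq_le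
      rw [Real.norm_eq_abs, sq_abs]
      nlinarith [sq_nonneg v.1.1, sq_nonneg v.1.2, sq_nonneg v.2]
  calc ‖v‖ ^ 2 ≤ (Real.sqrt (Q v)) ^ 2 := by gcongr
    _ = Q v := Real.sq_sqrt (Q_nonneg v)

theorem tendsto_of_Q {ι : Type*} {l : Filter ι} {x : ι → W} {a : W}
    (h : Tendsto (fun i => Q (x i - a)) l (𝓝 0)) : Tendsto x l (𝓝 a) := by
  rw [tendsto_iff_norm_sub_tendsto_zero]
  have h2 : Tendsto (fun i => Real.sqrt (Q (x i - a))) l (𝓝 0) := by
    have := (Real.continuous_sqrt.tendsto 0).comp h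
    rw [Real.sqrt_zero] at this
    exact this
  refine squeeze_zero (fun _ => norm_nonneg _) (fun i => ?_) h2
  apply Real.le_sqrt_of_sq_le
  exact norm_sq_le_Q _

/-- linear isometries of `Q` -/
def IsoQ (L : W ≃ₗ[ℝ] W) : Prop := ∀ v, Q (L v) = Q v

theorem IsoQ.symm {L : W ≃ₗ[ℝ] W} (h : IsoQ L) : IsoQ L.symm := by
  intro v
  rw [← h, LinearEquiv.apply_symm_apply]

theorem IsoQ.B_eq {L : W ≃ₗ[ℝ] W} (h : IsoQ L) (v w : W) : B (L v) (L w) = B v w := by
  have h1 := h (v + w)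
  rw [map_add, Q_add, Q_add, h, h] at h1
  linarith

theorem IsoQ.trans {L M : W ≃ₗ[ℝ] W} (h : IsoQ L) (h' : IsoQ M) : IsoQ (L.trans M) := by
  intro v
  rw [LinearEquiv.trans_apply, h', h]

/-- Recurrence for isometries: forward invariant closed sets are backward invariant. -/
theorem recur {L : W ≃ₗ[ℝ] W} (h : IsoQ L) {S : Set W} (hS : IsClosed S)
    (hL : ∀ v ∈ S, L v ∈ S) : ∀ v ∈ S, L.symm v ∈ S := by
  intro v hv
  set a : ℕ → W := fun n => (L : W →ₗ[ℝ] W) ^ n • v with ha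
  have haS : ∀ n, ((L : W →ₗ[ℝ] W) ^ n) v ∈ S := by
    intro n
    induction n with
    | zero => simpa using hv
    | succ n ih => rw [pow_succ', Module.End.mul_apply]; exact hL _ ih
  have hQn : ∀ n x, Q (((L : W →ₗ[ℝ] W) ^ n) x) = Q x := by
    intro n
    induction n with
    | zero => intro x; simp
    | succ n ih =>
      intro x
      rw [pow_succ', Module.End.mul_apply]
      exact (h _).trans (ih x)
  have hcomp : IsCompact {w : W | Q w = Q v} := by
    apply Metric.isCompact_of_isClosed_isBounded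
    · exact isClosed_eq Q_cont continuous_const
    · rw [isBounded_iff_forall_norm_le]
      refine ⟨Real.sqrt (Q v), fun w hw => ?_⟩
      apply Real.le_sqrt_of_sq_le
      rw [← (show Q w = Q v from hw)]
      exact norm_sq_le_Q w
  obtain ⟨x, -, φ, hφ, hlim⟩ := hcomp.tendsto_subseq (x := fun n => ((L : W →ₗ[ℝ] W) ^ n) v)
    (fun n => hQn n v)
  have hlim' : Tendsto (fun n => ((L : W →ₗ[ℝ] W) ^ (φ (n + 1))) v) atTop (𝓝 x) :=
    hlim.comp (tendsto_add_atTop_nat 1)
  have hd : Tendsto (fun n => ((L : W →ₗ[ℝ] W) ^ (φ (n + 1))) v - ((L : W →ₗ[ℝ] W) ^ (φ n)) v)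
      atTop (𝓝 0) := by
    have := hlim'.sub hlim
    simpa using this
  have hQd : Tendsto (fun n => Q (((L : W →ₗ[ℝ] W) ^ (φ (n + 1))) v -
      ((L : W →ₗ[ℝ] W) ^ (φ n)) v)) atTop (𝓝 0) := by
    have := (Q_cont.tendsto 0).comp hd
    rw [Q_zero] at this
    exact this
  have key : ∀ n, Q (((L : W →ₗ[ℝ] W) ^ (φ (n + 1) - φ n - 1)) v - L.symm v) =
      Q (((L : W →ₗ[ℝ] W) ^ (φ (n + 1))) v - ((L : W →ₗ[ℝ] W) ^ (φ n)) v) := by
    intro n
    have hlt : φ n < φ (n + 1) := hφ (Nat.lt_succ_self n)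
    rw [← hQn (φ n + 1) (((L : W →ₗ[ℝ] W) ^ (φ (n + 1) - φ n - 1)) v - L.symm v)]
    congr 1
    have e1 : φ n + 1 + (φ (n + 1) - φ n - 1) = φ (n + 1) := by omega
    have e2 : ((L : W →ₗ[ℝ] W) ^ (φ n + 1)) (L.symm v) = ((L : W →ₗ[ℝ] W) ^ (φ n)) v := by
      rw [pow_succ, Module.End.mul_apply]
      simp
    rw [map_sub, ← Module.End.mul_apply, ← pow_add, e1, e2]
  have hfin : Tendsto (fun n => ((L : W →ₗ[ℝ] W) ^ (φ (n + 1) - φ n - 1)) v) atTop
      (𝓝 (L.symm v)) := by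
    apply tendsto_of_Q
    simp only [key]
    exact hQd
  exact hS.mem_of_tendsto hfin (Eventually.of_forall fun n => haS _)

instance instHaar2 : (volume : Measure (ℝ × ℝ)).IsAddHaarMeasure := by
  rw [Measure.volume_eq_prod]; infer_instance

instance instHaar3 : (volume : Measure W).IsAddHaarMeasure := by
  rw [Measure.volume_eq_prod]; infer_instance

/-- Linear isometries of `Q` preserve Lebesgue measure. -/
theorem IsoQ.measurePreserving {L : W ≃ₗ[ℝ] W} (h : IsoQ L) :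
    MeasurePreserving (L : W → W) volume volume := by
  have hdet : LinearMap.det (L : W →ₗ[ℝ] W) ≠ 0 := by
    exact (LinearEquiv.isUnit_det' L).ne_zero
  have hmap := Measure.map_linearMap_addHaar_eq_smul_addHaar (volume : Measure W) hdet
  have hLc : Continuous (L : W → W) :=
    LinearMap.continuous_of_finiteDimensional (L : W →ₗ[ℝ] W)
  have hpre := Measure.addHaar_preimage_linearMap (volume : Measure W) hdet {v | Q v < 1}
  have e : ((L : W →ₗ[ℝ] W) : W → W) ⁻¹' {v | Q v < 1} = {v | Q v < 1} := by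
    ext v
    simp only [mem_preimage, mem_ofPred_eq]
    have : Q ((L : W →ₗ[ℝ] W) v) = Q v := h v
    rw [this]
  rw [e] at hpre
  have hopen : IsOpen {v : W | Q v < 1} := isOpen_lt Q_cont continuous_const
  have hpos : 0 < volume {v : W | Q v < 1} :=
    hopen.measure_pos _ ⟨0, by simp [Q_zero]⟩
  have hfin : volume {v : W | Q v < 1} < ⊤ := by
    apply Bornology.IsBounded.measure_lt_top
    rw [isBounded_iff_forall_norm_le]
    refine ⟨1, fun w hw => ?_⟩
    have h1 := norm_sq_le_Q w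
    have h2 : Q w < 1 := hw
    nlinarith [norm_nonneg w]
  have h1 : ENNReal.ofReal |(LinearMap.det (L : W →ₗ[ℝ] W))⁻¹| = 1 := by
    have h3 : (1 : ENNReal) * volume {v : W | Q v < 1} =
      ENNReal.ofReal |(LinearMap.det (L : W →ₗ[ℝ] W))⁻¹| * volume {v : W | Q v < 1} := by
      rw [one_mul]; exact hpre
    exact ((ENNReal.mul_left_inj hpos.ne' hfin.ne).1 h3).symm
  refine ⟨hLc.measurable, ?_⟩
  have : Measure.map (L : W → W) volume = ENNReal.ofReal
    |(LinearMap.det (L : W →ₗ[ℝ] W))⁻¹| • volume := hmap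
  rw [this, h1, one_smul]

/-- the scaling map -/
noncomputable def Msc (c : ℝ) (v : W) : W := (c⁻¹ • v.1, v.2)

/-- A symmetry coming from the scale `c`. -/
structure Sym (f : ℝ × ℝ → ℝ) (c : ℝ) (T : W ≃ᵃ[ℝ] W) (R : W ≃ₗ[ℝ] W) : Prop where
  mem : T ∈ HH f
  iso : IsoQ R
  lin : ∀ v, T.linear v = R (Msc c v)

theorem B_Msc (c : ℝ) (v w : W) : B (Msc c v) w = B v (Msc c w) := by
  simp [Msc, B]; ring

theorem Msc_add (c : ℝ) (v w : W) : Msc c (v + w) = Msc c v + Msc c w := by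
  simp [Msc]

theorem Msc_smul (c r : ℝ) (v : W) : Msc c (r • v) = r • Msc c v := by
  ext <;> simp [Msc] <;> ring

theorem Msc_inv {c : ℝ} (hc : c ≠ 0) (v : W) : Msc c (Msc c⁻¹ v) = v := by
  ext <;> simp [Msc] <;> field_simp

theorem Msc_inv' {c : ℝ} (hc : c ≠ 0) (v : W) : Msc c⁻¹ (Msc c v) = v := by
  ext <;> simp [Msc] <;> field_simp

end Rigid
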