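import Mathlib
import Pool.Agent.Lib_helper73.Rigid.Quad
import Pool.Agent.Lib_helper73.Rigid.Mono

/-!
# The case of a pointed cone contained in the upper half space
-/

namespace Rigid

open MeasureTheory Set Filter Topology

variable {f : ℝ × ℝ → ℝ}

/-- vertical unit vector -/
def e3 : W := (0, 1)

theorem Q_e3 : Q e3 = 1 := by simp [Q, e3]

theorem B_e3 (v : W) : B v e3 = v.2 := by simp [B, e3]

theorem VF_lt (hf : Continuous f) {T : W ≃ᵃ[ℝ] W} (hT : T ∈ HH f) {δ : ℝ} (hδ : |δ| = 1)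
    (hv : T.linear e3 = δ • e3) {ρ : ℝ} (hρ : 0 < ρ) (hρ1 : ρ < 1)
    (hS : ∀ x : ℝ × ℝ, (T.linear ((x, 0) : W)).2 = 0 ∧
      Q (T.linear ((x, 0) : W)) = ρ ^ 2 * Q ((x, 0) : W)) : ∃ k, ∀ x, f x = k := by
  set S : (ℝ × ℝ) →ₗ[ℝ] (ℝ × ℝ) :=
    (LinearMap.fst ℝ (ℝ × ℝ) ℝ).comp ((T.linear : W →ₗ[ℝ] W).comp (LinearMap.inl ℝ (ℝ × ℝ) ℝ))
    with hSdef
  have hSx : ∀ x, T.linear ((x, 0) : W) = (S x, 0) := by
    intro x
    ext
    · simp [hSdef]
    · simp [hSdef]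
    · simp only [(hS x).1]
  have hQ : ∀ x, Q ((S x, 0) : W) = ρ ^ 2 * Q ((x, 0) : W) := by
    intro x
    rw [← hSx]; exact (hS x).2
  have hQn : ∀ n : ℕ, ∀ x, Q (((S ^ n) x, 0) : W) = (ρ ^ 2) ^ n * Q ((x, 0) : W) := by
    intro n
    induction n with
    | zero => intro x; simp
    | succ n ih =>
      intro x
      rw [pow_succ', Module.End.mul_apply, hQ, ih]
      ring
  refine VF1 hf hT hδ ?_ S hSx ?_
  · have : T.linear ((0 : ℝ × ℝ), (1 : ℝ)) = T.linear e3 := rfl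
    rw [this, hv]
    ext <;> simp [e3]
  · intro x
    have h1 : Tendsto (fun n : ℕ => (((S ^ n) x, 0) : W)) atTop (𝓝 0) := by
      apply tendsto_of_Q
      simp only [sub_zero, hQn]
      have : Tendsto (fun n : ℕ => (ρ ^ 2) ^ n * Q ((x, 0) : W)) atTop
          (𝓝 (0 * Q ((x, 0) : W))) := by
        apply Tendsto.mul_const
        apply tendsto_pow_atTop_nhds_zero_of_lt_one (by positivity)
        nlinarith
      rwa [zero_mul] at this
    have := (continuous_fst.tendsto (0 : W)).comp h1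
    exact this

theorem VF (hf : Continuous f) {T : W ≃ᵃ[ℝ] W} (hT : T ∈ HH f) {δ : ℝ} (hδ : δ * δ = 1)
    (hv : T.linear e3 = δ • e3) {ρ : ℝ} (hρ : 0 < ρ) (hρ1 : ρ ≠ 1)
    (hS : ∀ x : ℝ × ℝ, (T.linear ((x, 0) : W)).2 = 0 ∧
      Q (T.linear ((x, 0) : W)) = ρ ^ 2 * Q ((x, 0) : W)) : ∃ k, ∀ x, f x = k := by
  have hδ' : |δ| = 1 := by
    have h1 : |δ| * |δ| = 1 := by rw [← abs_mul, hδ, abs_one]
    nlinarith [abs_nonneg δ]
  rcases lt_or_gt_of_ne hρ1 with h | h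
  · exact VF_lt hf hT hδ' hv hρ h hS
  · refine VF_lt (T := T⁻¹) (ρ := ρ⁻¹) hf ((HH f).inv_mem hT) hδ' ?_ (by positivity)
      (inv_lt_one_of_one_lt₀ h) ?_
    · show T.linear.symm e3 = δ • e3
      rw [LinearEquiv.symm_apply_eq, map_smul, hv, smul_smul, hδ, one_smul]
    · intro x
      show (T.linear.symm ((x, 0) : W)).2 = 0 ∧ Q (T.linear.symm ((x, 0) : W)) = _
      obtain ⟨y, z, hyz⟩ : ∃ (y : ℝ × ℝ) (z : ℝ), T.linear.symm ((x, 0) : W) = (y, z) :=
        ⟨_, _, rfl⟩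
      have h1 : ((x, 0) : W) = T.linear ((y, z) : W) := by
        rw [← hyz, LinearEquiv.apply_symm_apply]
      have h2 : ((y, z) : W) = ((y, 0) : W) + z • e3 := by ext <;> simp [e3]
      have h3 : ((x, 0) : W) = T.linear ((y, 0) : W) + (z * δ) • e3 := by
        rw [h1, h2, map_add, map_smul, hv, smul_smul]
      have h4 : (0 : ℝ) = z * δ := by
        have := congrArg Prod.snd h3
        simp only [Prod.snd_add, (hS y).1, Prod.smul_snd, e3, smul_eq_mul, mul_one, zero_add]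
          at this
        exact this
      have hδ0 : δ ≠ 0 := by rintro rfl; simp at hδ
      have hz : z = 0 := by
        rcases mul_eq_zero.1 h4.symm with h | h
        · exact h
        · exact absurd h hδ0
      rw [hyz, hz]
      refine ⟨rfl, ?_⟩
      have h5 := (hS y).2
      rw [← h4, zero_smul, add_zero] at h3
      rw [← h3] at h5
      rw [h5]
      field_simp

theorem VFR (hf : Continuous f) {T : W ≃ᵃ[ℝ] W} (hT : T ∈ HH f) {R : W ≃ₗ[ℝ] W} (hR : IsoQ R)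
    {c d : ℝ} (hc : 0 < c) (hd : 0 < d) (hcd : c * d ≠ 1)
    (hlin : ∀ v, T.linear v = Msc d (R (Msc c v))) {δ : ℝ} (hδ : δ * δ = 1)
    (hRe : R e3 = δ • e3) : ∃ k, ∀ x, f x = k := by
  have hM : ∀ (c r : ℝ), Msc c (r • e3) = r • e3 := by
    intro c r; ext <;> simp [Msc, e3]
  refine VF (ρ := (c * d)⁻¹) hf hT hδ ?_ (by positivity) ?_ ?_
  · rw [hlin]
    have := hM c 1
    rw [one_smul] at this
    rw [this, hRe, hM]
  · intro h
    exact hcd (inv_eq_one.1 h)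
  · intro x
    rw [hlin]
    have h1 : (R (Msc c ((x, 0) : W))).2 = 0 := by
      rw [← B_e3]
      have : e3 = R (δ • e3) := by rw [map_smul, hRe, smul_smul, hδ, one_smul]
      rw [this, hR.B_eq, B_smul_right, B_e3]
      simp [Msc]
    have hQM : ∀ (c : ℝ) (w : W), w.2 = 0 → Q (Msc c w) = (c⁻¹) ^ 2 * Q w := by
      intro c w hw
      simp [Q, Msc, hw]; ring
    refine ⟨h1, ?_⟩
    rw [hQM d _ h1, hR, hQM c _ rfl]
    rw [mul_inv]; ring

/-- Scaling invariance of the cone. -/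
theorem scale_inv (hf : Continuous f) (hup : ∀ v ∈ KK f, 0 ≤ v.2) {c : ℝ} (hc : 0 < c)
    {Φ : W ≃ₗ[ℝ] W} (hΦ : IsoQ Φ) (hk : ∀ v, v ∈ KK f ↔ Φ (Msc c v) ∈ KK f) :
    (∀ v, v ∈ KK f ↔ Φ v ∈ KK f) := by
  have he : e3 ∈ KK f := KK_vert.2 zero_le_one
  rcases le_total 1 c with h | h
  · -- `Φ⁻¹` maps the cone into itself
    have h1 : ∀ w ∈ KK f, Φ.symm w ∈ KK f := by
      intro w hw
      set v := Msc c⁻¹ (Φ.symm w) with hv
      have hMv : Msc c v = Φ.symm w := Msc_inv hc.ne' _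
      have hvK : v ∈ KK f := by
        rw [hk, hMv, LinearEquiv.apply_symm_apply]; exact hw
      have e : Φ.symm w = c⁻¹ • v + ((1 - c⁻¹) * v.2) • e3 := by
        rw [← hMv]
        ext
        · simp [Msc, e3]
        · simp [Msc, e3]
        · simp [Msc, e3]; ring
      rw [e]
      refine KK_add (KK_smul hvK (by positivity)) (KK_smul he ?_)
      have : c⁻¹ ≤ 1 := inv_le_one_of_one_le₀ h
      exact mul_nonneg (by linarith) (hup v hvK)
    intro v
    constructor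
    · intro hv
      have := recur hΦ.symm (KK_closed hf) h1 v hv
      exact this
    · intro hv
      have := h1 _ hv
      rwa [LinearEquiv.symm_apply_apply] at this
  · have h1 : ∀ v ∈ KK f, Φ v ∈ KK f := by
      intro v hv
      have e : Msc c⁻¹ v = c • v + ((1 - c) * v.2) • e3 := by
        ext
        · simp [Msc, e3]
        · simp [Msc, e3]
        · simp [Msc, e3]; ring
      have h2 : Msc c⁻¹ v ∈ KK f := by
        rw [e]
        refine KK_add (KK_smul hv hc.le) (KK_smul he ?_)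
        exact mul_nonneg (by linarith) (hup v hv)
      have := (hk _).1 h2
      rwa [Msc_inv hc.ne'] at this
    intro v
    constructor
    · exact h1 v
    · intro hv
      have := recur hΦ (KK_closed hf) h1 _ hv
      rwa [LinearEquiv.symm_apply_apply] at this

theorem KK_char (hf : Continuous f) {c : ℝ} (hc : 0 < c) (hc1 : c ≠ 1)
    (hup : ∀ v ∈ KK f, 0 ≤ v.2)
    (hM : ∀ v, v ∈ KK f ↔ Msc c v ∈ KK f) (v : W) :
    v ∈ KK f ↔ ((v.1, 0) : W) ∈ KK f ∧ 0 ≤ v.2 := by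
  obtain ⟨r, hr0, hr1, hstep⟩ : ∃ r : ℝ, 0 < r ∧ r < 1 ∧
      ∀ v ∈ KK f, ((v.1, r * v.2) : W) ∈ KK f := by
    rcases lt_or_gt_of_ne hc1 with h | h
    · refine ⟨c, hc, h, fun v hv => ?_⟩
      have h1 := KK_smul ((hM v).1 hv) hc.le
      convert h1 using 1
      ext <;> simp [Msc] <;> field_simp
    · refine ⟨c⁻¹, by positivity, inv_lt_one_of_one_lt₀ h, fun v hv => ?_⟩
      have h0 : Msc c⁻¹ v ∈ KK f := by rw [hM, Msc_inv hc.ne']; exact hv
      have h1 := KK_smul h0 (r := c⁻¹) (by positivity)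
      convert h1 using 1
      ext <;> simp [Msc] <;> field_simp
  have hn : ∀ n : ℕ, ∀ v ∈ KK f, ((v.1, r ^ n * v.2) : W) ∈ KK f := by
    intro n
    induction n with
    | zero => intro v hv; simpa using hv
    | succ n ih =>
      intro v hv
      have := hstep _ (ih v hv)
      convert this using 2
      ring
  constructor
  · intro hv
    refine ⟨?_, hup v hv⟩
    have hlim : Tendsto (fun n : ℕ => ((v.1, r ^ n * v.2) : W)) atTop (𝓝 ((v.1, 0) : W)) := by
      apply Tendsto.prodMk_nhds tendsto_const_nhds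
      have : Tendsto (fun n : ℕ => r ^ n * v.2) atTop (𝓝 (0 * v.2)) :=
        (tendsto_pow_atTop_nhds_zero_of_lt_one hr0.le hr1).mul_const _
      rwa [zero_mul] at this
    exact (KK_closed hf).mem_of_tendsto hlim (Eventually.of_forall fun n => hn n v hv)
  · rintro ⟨h1, h2⟩
    have e : v = ((v.1, 0) : W) + v.2 • e3 := by ext <;> simp [e3]
    rw [e]
    exact KK_add h1 (KK_smul (KK_vert.2 zero_le_one) h2)

/-- extreme unit vectors -/
def Ext (K : Set W) (v : W) : Prop :=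
  v ∈ K ∧ Q v = 1 ∧ ∀ a ∈ K, ∀ b ∈ K, a + b = v → ∃ s : ℝ, a = s • v

theorem Ext.map {K : Set W} {Φ : W ≃ₗ[ℝ] W} (hΦ : IsoQ Φ) (hk : ∀ v, v ∈ K ↔ Φ v ∈ K) {v : W}
    (h : Ext K v) : Ext K (Φ v) := by
  refine ⟨(hk v).1 h.1, by rw [hΦ, h.2.1], fun a ha b hb hab => ?_⟩
  obtain ⟨s, hs⟩ := h.2.2 (Φ.symm a) (by rw [hk, LinearEquiv.apply_symm_apply]; exact ha)
    (Φ.symm b) (by rw [hk, LinearEquiv.apply_symm_apply]; exact hb) (by
      rw [← map_add, hab, LinearEquiv.symm_apply_apply])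
  refine ⟨s, ?_⟩
  rw [← map_smul, ← hs, LinearEquiv.apply_symm_apply]

theorem Ext_e3 (hpt : ∀ v, v ∈ KK f → -v ∈ KK f → v = 0)
    (hch : ∀ v, v ∈ KK f ↔ ((v.1, 0) : W) ∈ KK f ∧ 0 ≤ v.2) : Ext (KK f) e3 := by
  refine ⟨KK_vert.2 zero_le_one, Q_e3, fun a ha b hb hab => ?_⟩
  have h1 := ((hch a).1 ha).1
  have h2 := ((hch b).1 hb).1
  have h3 : b.1 = - a.1 := by
    have := congrArg Prod.fst hab
    simp only [Prod.fst_add, e3] at this
    exact (neg_eq_of_add_eq_zero_right this).symm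
  have h4 : -(((a.1, 0) : W)) ∈ KK f := by
    convert h2 using 1
    rw [h3]; ext <;> simp
  have h5 := hpt _ h1 h4
  refine ⟨a.2, ?_⟩
  have h6 : a.1 = 0 := congrArg Prod.fst h5
  ext
  · simp [e3, h6]
  · simp [e3, h6]
  · simp [e3]

theorem Ext_dich (hch : ∀ v, v ∈ KK f ↔ ((v.1, 0) : W) ∈ KK f ∧ 0 ≤ v.2) {v : W}
    (h : Ext (KK f) v) : v = e3 ∨ B v e3 = 0 := by
  obtain ⟨h1, h2⟩ := (hch v).1 h.1
  obtain ⟨s, hs⟩ := h.2.2 ((v.1, 0) : W) h1 ((0, v.2) : W) (KK_vert.2 h2) (by ext <;> simp)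
  rw [B_e3]
  have h3 : 0 = s * v.2 := congrArg Prod.snd hs
  have h4 : v.1 = s • v.1 := congrArg Prod.fst hs
  rcases mul_eq_zero.1 h3.symm with h5 | h5
  · left
    rw [h5, zero_smul] at h4
    have h6 := h.2.1
    simp only [Q, h4] at h6
    have h7 : v.2 = 1 := by
      have : v.2 ^ 2 = 1 := by simpa using h6
      nlinarith
    ext <;> simp [h4, h7, e3]
  · right; exact h5

end Rigid
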