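import Mathlib
import Pool.Agent.Lib_helper73.Rigid.PL

/-!
# Gaussian measure of dilates of a planar convex set
-/

namespace Rigid

open MeasureTheory Set Filter Topology

/-- Planar Gaussian weight. -/
noncomputable def gw (p : ℝ × ℝ) : ℝ := Real.exp (-p.1 ^ 2) * Real.exp (-p.2 ^ 2)

/-- the integrand -/
noncomputable def hP (P : Set (ℝ × ℝ)) (s : ℝ) (p : ℝ × ℝ) : ℝ :=
  Set.indicator {p : ℝ × ℝ | s⁻¹ • p ∈ P} gw p

/-- Gaussian measure of `s P`. -/
noncomputable def GP (P : Set (ℝ × ℝ)) (s : ℝ) : ℝ := ∫ p : ℝ × ℝ, hP P s p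

theorem gw_pos (p : ℝ × ℝ) : 0 < gw p := by unfold gw; positivity

theorem gw_cont : Continuous gw := by unfold gw; fun_prop

theorem gauss_int : Integrable (fun x : ℝ => Real.exp (-x ^ 2)) := by
  have := integrable_exp_neg_mul_sq (b := 1) one_pos
  simpa using this

theorem gw_integrable : Integrable gw := by
  unfold gw
  exact gauss_int.mul_prod gauss_int

theorem hP_nonneg (P : Set (ℝ × ℝ)) (s : ℝ) (p : ℝ × ℝ) : 0 ≤ hP P s p := by
  unfold hP
  exact indicator_nonneg (fun p _ => (gw_pos p).le) p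

theorem hP_le (P : Set (ℝ × ℝ)) (s : ℝ) (p : ℝ × ℝ) : hP P s p ≤ gw p := by
  unfold hP
  exact indicator_le_self' (fun p _ => (gw_pos p).le) p

theorem hP_meas2 {P : Set (ℝ × ℝ)} (hP' : IsClosed P) :
    Measurable (fun q : ℝ × (ℝ × ℝ) => hP P q.1 q.2) := by
  have : (fun q : ℝ × (ℝ × ℝ) => hP P q.1 q.2) =
      Set.indicator {q : ℝ × (ℝ × ℝ) | q.1⁻¹ • q.2 ∈ P} (fun q => gw q.2) := by
    ext q
    simp only [hP, indicator, mem_ofPred_eq]
  rw [this]
  apply Measurable.indicator
  · exact gw_cont.measurable.comp measurable_snd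
  · exact hP'.measurableSet.preimage (by fun_prop)

theorem hP_meas {P : Set (ℝ × ℝ)} (hP' : IsClosed P) (s : ℝ) : Measurable (hP P s) :=
  (hP_meas2 hP').comp (measurable_const.prodMk measurable_id)

theorem hP_integrable {P : Set (ℝ × ℝ)} (hP' : IsClosed P) (s : ℝ) : Integrable (hP P s) := by
  refine gw_integrable.mono' (hP_meas hP' s).aestronglyMeasurable (ae_of_all _ ?_)
  intro p
  rw [Real.norm_eq_abs, abs_of_nonneg (hP_nonneg P s p)]
  exact hP_le P s p

theorem GP_meas {P : Set (ℝ × ℝ)} (hP' : IsClosed P) : Measurable (GP P) := by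
  unfold GP
  have := (hP_meas2 hP').stronglyMeasurable
  exact (StronglyMeasurable.integral_prod_right (ν := (volume : Measure (ℝ × ℝ)))
    (f := fun s p => hP P s p) this).measurable

theorem GP_le {P : Set (ℝ × ℝ)} (hP' : IsClosed P) (s : ℝ) : GP P s ≤ ∫ p, gw p :=
  integral_mono (hP_integrable hP' s) gw_integrable (hP_le P s)

theorem GP_pos {P : Set (ℝ × ℝ)} (hP' : IsClosed P) (hint : (interior P).Nonempty) {s : ℝ}
    (hs : 0 < s) : 0 < GP P s := by
  unfold GP
  rw [integral_pos_iff_support_of_nonneg (hP_nonneg P s) (hP_integrable hP' s)]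
  have hsub : (fun p : ℝ × ℝ => s⁻¹ • p) ⁻¹' (interior P) ⊆ Function.support (hP P s) := by
    intro p hp
    have hp' : s⁻¹ • p ∈ P := interior_subset hp
    simp only [Function.mem_support, hP]
    rw [indicator_of_mem (by exact hp')]
    exact (gw_pos p).ne'
  refine lt_of_lt_of_le ?_ (measure_mono hsub)
  apply IsOpen.measure_pos
  · exact isOpen_interior.preimage (by fun_prop)
  · obtain ⟨x, hx⟩ := hint
    refine ⟨s • x, ?_⟩
    simp only [mem_preimage, smul_smul]
    rwa [inv_mul_cancel₀ hs.ne', one_smul]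

theorem GP_lim {P : Set (ℝ × ℝ)} (hP' : IsClosed P) {d : ℝ} (hd : 0 < d)
    (hPd : ∀ p ∈ P, d ≤ p.1 ^ 2 + p.2 ^ 2) : Tendsto (GP P) atTop (𝓝 0) := by
  have h0 : (0 : ℝ) = ∫ p : ℝ × ℝ, (0 : ℝ) := by simp
  rw [h0]
  unfold GP
  apply tendsto_integral_filter_of_dominated_convergence gw
  · exact Eventually.of_forall fun s => (hP_meas hP' s).aestronglyMeasurable
  · refine Eventually.of_forall fun s => ae_of_all _ fun p => ?_
    rw [Real.norm_eq_abs, abs_of_nonneg (hP_nonneg P s p)]
    exact hP_le P s p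
  · exact gw_integrable
  · refine ae_of_all _ fun p => ?_
    apply tendsto_const_nhds.congr'
    have h1 : Tendsto (fun s : ℝ => d * s ^ 2) atTop atTop :=
      Tendsto.const_mul_atTop hd (tendsto_pow_atTop (by norm_num))
    filter_upwards [h1.eventually_gt_atTop (p.1 ^ 2 + p.2 ^ 2), eventually_gt_atTop 0]
      with s hs hs0
    unfold hP
    rw [indicator_of_notMem]
    intro hmem
    have hmem' : s⁻¹ • p ∈ P := hmem
    have h2 := hPd _ hmem'
    simp only [Prod.smul_fst, Prod.smul_snd, smul_eq_mul] at h2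
    have h3 : (s⁻¹ * p.1) ^ 2 + (s⁻¹ * p.2) ^ 2 = (p.1 ^ 2 + p.2 ^ 2) / s ^ 2 := by
      field_simp
    rw [h3, le_div_iff₀ (by positivity)] at h2
    linarith

theorem hP_ineq {P : Set (ℝ × ℝ)} (hPc : Convex ℝ P) {s t l m : ℝ} (hs : 0 < s) (ht : 0 < t)
    (hl : 0 < l) (hm : 0 < m) (hlm : l + m = 1) (p q : ℝ × ℝ) :
    hP P s p ^ l * hP P t q ^ m ≤ hP P (l * s + m * t) (l • p + m • q) := by
  by_cases h1 : s⁻¹ • p ∈ P
  · by_cases h2 : t⁻¹ • q ∈ P
    · have hu : 0 < l * s + m * t := by positivity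
      have h3 : (l * s + m * t)⁻¹ • (l • p + m • q) ∈ P := by
        have := hPc h1 h2 (a := l * s / (l * s + m * t)) (b := m * t / (l * s + m * t))
          (by positivity) (by positivity) (by field_simp)
        convert this using 1
        rw [smul_add, smul_smul, smul_smul, smul_smul, smul_smul]
        congr 2
        · field_simp
        · field_simp
      unfold hP
      rw [indicator_of_mem (by exact h1), indicator_of_mem (by exact h2),
        indicator_of_mem (by exact h3)]
      unfold gw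
      rw [← Real.exp_add, ← Real.exp_add, ← Real.exp_add, ← Real.exp_mul, ← Real.exp_mul,
        ← Real.exp_add]
      apply Real.exp_le_exp.2
      simp only [Prod.fst_add, Prod.smul_fst, smul_eq_mul, Prod.snd_add, Prod.smul_snd]
      have hm' : m = 1 - l := by linarith
      subst hm'
      have e : ∀ a b : ℝ, (l * a + (1 - l) * b) ^ 2 ≤ l * a ^ 2 + (1 - l) * b ^ 2 := by
        intro a b
        nlinarith [mul_nonneg (mul_nonneg hl.le hm.le) (sq_nonneg (a - b))]
      have e1 := e p.1 q.1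
      have e2 := e p.2 q.2
      linarith
    · have : hP P t q = 0 := by
        unfold hP
        rw [indicator_of_notMem]
        exact h2
      rw [this, Real.zero_rpow hm.ne', mul_zero]
      exact hP_nonneg _ _ _
  · have : hP P s p = 0 := by
      unfold hP
      rw [indicator_of_notMem]
      exact h1
    rw [this, Real.zero_rpow hl.ne', zero_mul]
    exact hP_nonneg _ _ _

theorem hP_slice_integrable {P : Set (ℝ × ℝ)} (hP' : IsClosed P) (s x : ℝ) :
    Integrable (fun y => hP P s (x, y)) := by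
  refine (gauss_int.const_mul (Real.exp (-x ^ 2))).mono'
    ((hP_meas hP' s).comp (measurable_const.prodMk measurable_id)).aestronglyMeasurable
    (ae_of_all _ ?_)
  intro y
  rw [Real.norm_eq_abs, abs_of_nonneg (hP_nonneg P s _)]
  exact hP_le P s (x, y)

theorem hP_slice_bdd (P : Set (ℝ × ℝ)) (s x : ℝ) :
    BddAbove (range (fun y => hP P s (x, y))) := by
  refine ⟨1, ?_⟩
  rintro _ ⟨y, rfl⟩
  refine (hP_le P s (x, y)).trans ?_
  unfold gw
  have h1 : Real.exp (-x ^ 2) ≤ 1 := Real.exp_le_one_iff.2 (by simp; positivity)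
  have h2 : Real.exp (-y ^ 2) ≤ 1 := Real.exp_le_one_iff.2 (by simp; positivity)
  exact mul_le_one₀ h1 (Real.exp_pos _).le h2

/-- marginal -/
noncomputable def mP (P : Set (ℝ × ℝ)) (s x : ℝ) : ℝ := ∫ y, hP P s (x, y)

theorem mP_nonneg (P : Set (ℝ × ℝ)) (s x : ℝ) : 0 ≤ mP P s x :=
  integral_nonneg fun _ => hP_nonneg P s _

theorem mP_meas {P : Set (ℝ × ℝ)} (hP' : IsClosed P) (s : ℝ) : Measurable (mP P s) := by
  unfold mP
  exact (StronglyMeasurable.integral_prod_right (ν := (volume : Measure ℝ))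
    (f := fun x y => hP P s (x, y)) (hP_meas hP' s).stronglyMeasurable).measurable

theorem mP_integrable {P : Set (ℝ × ℝ)} (hP' : IsClosed P) (s : ℝ) : Integrable (mP P s) := by
  unfold mP
  exact (hP_integrable hP' s).integral_prod_left

theorem mP_bdd {P : Set (ℝ × ℝ)} (hP' : IsClosed P) (s : ℝ) : BddAbove (range (mP P s)) := by
  refine ⟨∫ y, Real.exp (-y ^ 2), ?_⟩
  rintro _ ⟨x, rfl⟩
  apply integral_mono (hP_slice_integrable hP' s x) gauss_int
  intro y
  refine (hP_le P s (x, y)).trans ?_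
  unfold gw
  have h1 : Real.exp (-x ^ 2) ≤ 1 := Real.exp_le_one_iff.2 (by simp; positivity)
  have h2 := (Real.exp_pos (-y ^ 2)).le
  nlinarith

theorem GP_eq {P : Set (ℝ × ℝ)} (hP' : IsClosed P) (s : ℝ) : GP P s = ∫ x, mP P s x := by
  unfold GP mP
  exact integral_prod _ (hP_integrable hP' s)

theorem GP_logconc {P : Set (ℝ × ℝ)} (hP' : IsClosed P) (hPc : Convex ℝ P) {s t l m : ℝ}
    (hs : 0 < s) (ht : 0 < t) (hl : 0 < l) (hm : 0 < m) (hlm : l + m = 1) :
    GP P s ^ l * GP P t ^ m ≤ GP P (l * s + m * t) := by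
  rw [GP_eq hP', GP_eq hP', GP_eq hP']
  apply pl (mP_meas hP' _) (mP_meas hP' _) (mP_meas hP' _) (mP_nonneg P _) (mP_nonneg P _)
    (mP_nonneg P _) (mP_bdd hP' _) (mP_bdd hP' _) (mP_integrable hP' _) (mP_integrable hP' _)
    (mP_integrable hP' _) hl hm hlm
  intro x x'
  unfold mP
  have hmeas : ∀ s x, Measurable (fun y => hP P s (x, y)) := fun s x =>
    (hP_meas hP' s).comp (measurable_const.prodMk measurable_id)
  apply pl (hmeas _ _) (hmeas _ _) (hmeas _ _) (fun _ => hP_nonneg _ _ _)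
    (fun _ => hP_nonneg _ _ _) (fun _ => hP_nonneg _ _ _) (hP_slice_bdd _ _ _)
    (hP_slice_bdd _ _ _) (hP_slice_integrable hP' _ _) (hP_slice_integrable hP' _ _)
    (hP_slice_integrable hP' _ _) hl hm hlm
  intro y y'
  exact hP_ineq hPc hs ht hl hm hlm (x, y) (x', y')

theorem GP_qc {P : Set (ℝ × ℝ)} (hP' : IsClosed P) (hPc : Convex ℝ P) {s t u : ℝ}
    (hs : 0 < s) (hst : s ≤ t) (htu : t ≤ u) : min (GP P s) (GP P u) ≤ GP P t := by
  rcases eq_or_lt_of_le hst with rfl | hst
  · exact min_le_left _ _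
  rcases eq_or_lt_of_le htu with rfl | htu
  · exact min_le_right _ _
  have h0 : 0 < u - s := by linarith
  have hl : 0 < (u - t) / (u - s) := div_pos (by linarith) h0
  have hm : 0 < (t - s) / (u - s) := div_pos (by linarith) h0
  have hlm : (u - t) / (u - s) + (t - s) / (u - s) = 1 := by field_simp; ring
  have := GP_logconc hP' hPc hs (by linarith : 0 < u) hl hm hlm
  have e : (u - t) / (u - s) * s + (t - s) / (u - s) * u = t := by field_simp; ring
  rw [e] at this
  refine le_trans ?_ this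
  have hnn : ∀ s, 0 ≤ GP P s := fun s => integral_nonneg (hP_nonneg P s)
  set k := min (GP P s) (GP P u) with hk
  have hk0 : 0 ≤ k := le_min (hnn _) (hnn _)
  rcases eq_or_lt_of_le hk0 with hk1 | hk1
  · rw [← hk1]
    have := hnn s
    have := hnn u
    positivity
  · calc k = k ^ ((u - t) / (u - s)) * k ^ ((t - s) / (u - s)) := by
          rw [← Real.rpow_add hk1, hlm, Real.rpow_one]
      _ ≤ _ := by
          apply mul_le_mul
          · exact Real.rpow_le_rpow hk0 (min_le_left _ _) hl.le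
          · exact Real.rpow_le_rpow hk0 (min_le_right _ _) hm.le
          · positivity
          · have := hnn s; positivity

end Rigid
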