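import Mathlib

/-!
# Self-affine functions on the line with different exponents are constant
-/

namespace Rigid

open Set Filter Topology

theorem growth {h : ℝ → ℝ} (hc : Continuous h) {P1 P2 b1 b2 y1 y2 : ℝ} (hP1 : 1 < P1)
    (hP2 : 1 < P2) (hb1 : 0 ≤ b1) (hb : b1 < b2)
    (H1 : ∀ z, h (y1 + P1 * z) - h y1 = P1 ^ b1 * (h (y1 + z) - h y1))
    (H2 : ∀ z, h (y2 + P2 * z) - h y2 = P2 ^ b2 * (h (y2 + z) - h y2)) :
    ∀ z, h (y2 + z) = h y2 := by
  have p1 : 0 < P1 := by linarith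
  have p2 : 0 < P2 := by linarith
  have H1n : ∀ n : ℕ, ∀ z, h (y1 + P1 ^ n * z) - h y1 = (P1 ^ b1) ^ n * (h (y1 + z) - h y1) := by
    intro n
    induction n with
    | zero => intro z; simp
    | succ n ih =>
      intro z
      have := ih (P1 * z)
      rw [H1] at this
      rw [pow_succ, mul_assoc, this]; ring
  have H2n : ∀ n : ℕ, ∀ z, h (y2 + P2 ^ n * z) - h y2 = (P2 ^ b2) ^ n * (h (y2 + z) - h y2) := by
    intro n
    induction n with
    | zero => intro z; simp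
    | succ n ih =>
      intro z
      have := ih (P2 * z)
      rw [H2] at this
      rw [pow_succ, mul_assoc, this]; ring
  -- upper bound
  obtain ⟨C0, hC0, hbd⟩ : ∃ C0, 0 ≤ C0 ∧ ∀ z, |z| ≤ 1 → |h (y1 + z) - h y1| ≤ C0 := by
    have hcomp : IsCompact (Icc (-1 : ℝ) 1) := isCompact_Icc
    have hcont : Continuous (fun z => |h (y1 + z) - h y1|) := by fun_prop
    obtain ⟨C0, hC0⟩ := hcomp.bddAbove_image hcont.continuousOn
    refine ⟨C0, ?_, ?_⟩
    · exact (abs_nonneg _).trans (hC0 ⟨0, by constructor <;> norm_num, rfl⟩)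
    · intro z hz
      exact hC0 ⟨z, abs_le.1 hz, rfl⟩
  have hPb1 : 1 ≤ P1 ^ b1 := Real.one_le_rpow hP1.le hb1
  have upper : ∀ z E, 1 ≤ E → |z| ≤ E → |h (y1 + z) - h y1| ≤ P1 ^ b1 * C0 * E ^ b1 := by
    intro z E hE hz
    obtain ⟨n, hn1, hn2⟩ := exists_nat_pow_near hE hP1
    have hpn : 0 < P1 ^ (n + 1) := by positivity
    have e : z = P1 ^ (n + 1) * (z / P1 ^ (n + 1)) := by field_simp
    rw [e, H1n, abs_mul, abs_of_pos (by positivity)]
    have h1 : |z / P1 ^ (n + 1)| ≤ 1 := by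
      rw [abs_div, abs_of_pos hpn, div_le_one hpn]
      exact hz.trans hn2.le
    have h2 := hbd _ h1
    have h3 : (P1 ^ b1) ^ (n + 1) ≤ P1 ^ b1 * E ^ b1 := by
      rw [pow_succ, mul_comm]
      apply mul_le_mul_of_nonneg_left _ (by positivity)
      rw [← Real.rpow_natCast, ← Real.rpow_mul p1.le, mul_comm, Real.rpow_mul p1.le,
        Real.rpow_natCast]
      exact Real.rpow_le_rpow (by positivity) hn1 hb1
    calc (P1 ^ b1) ^ (n + 1) * |h (y1 + z / P1 ^ (n + 1)) - h y1|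
        ≤ (P1 ^ b1 * E ^ b1) * C0 := mul_le_mul h3 h2 (abs_nonneg _) (by positivity)
      _ = _ := by ring
  intro z0
  by_contra hne
  set η := |h (y2 + z0) - h y2| with hη
  have hη0 : 0 < η := abs_pos.2 (sub_ne_zero.2 hne)
  set E := |y2 - y1| + |z0| + 1 with hE
  have hE1 : 1 ≤ E := by have := abs_nonneg (y2 - y1); have := abs_nonneg z0; linarith
  have hPb2 : 1 ≤ P2 ^ b1 := Real.one_le_rpow hP2.le hb1
  have main : ∀ k : ℕ, (P2 ^ b2) ^ k * η ≤
      (P1 ^ b1 * C0 * E ^ b1 + |h y1 - h y2|) * (P2 ^ b1) ^ k := by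
    intro k
    have hPk : 1 ≤ P2 ^ k := one_le_pow₀ hP2.le
    have e1 : |h (y2 + P2 ^ k * z0) - h y2| = (P2 ^ b2) ^ k * η := by
      rw [H2n, abs_mul, abs_of_pos (by positivity)]
    rw [← e1]
    have hz : |y2 - y1 + P2 ^ k * z0| ≤ P2 ^ k * E := by
      have h1 := abs_add_le (y2 - y1) (P2 ^ k * z0)
      rw [abs_mul, abs_of_pos (by positivity : 0 < P2 ^ k)] at h1
      have h2 : |y2 - y1| ≤ P2 ^ k * |y2 - y1| := by
        have := abs_nonneg (y2 - y1); nlinarith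
      rw [hE]; nlinarith
    have h3 := upper (y2 - y1 + P2 ^ k * z0) (P2 ^ k * E) (by nlinarith) hz
    have e2 : y1 + (y2 - y1 + P2 ^ k * z0) = y2 + P2 ^ k * z0 := by ring
    rw [e2] at h3
    have h4 : |h (y2 + P2 ^ k * z0) - h y2| ≤ |h (y2 + P2 ^ k * z0) - h y1| + |h y1 - h y2| :=
      abs_sub_le _ _ _
    have h5 : (P2 ^ k * E) ^ b1 = (P2 ^ b1) ^ k * E ^ b1 := by
      rw [Real.mul_rpow (by positivity) (by linarith), ← Real.rpow_natCast (P2 ^ b1),
        ← Real.rpow_mul p2.le, mul_comm b1, Real.rpow_mul p2.le, Real.rpow_natCast]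
    rw [h5] at h3
    have h6 : |h y1 - h y2| ≤ |h y1 - h y2| * (P2 ^ b1) ^ k := by
      have h7 : 1 ≤ (P2 ^ b1) ^ k := one_le_pow₀ hPb2
      have := abs_nonneg (h y1 - h y2)
      nlinarith
    calc _ ≤ _ := h4
      _ ≤ P1 ^ b1 * C0 * ((P2 ^ b1) ^ k * E ^ b1) + |h y1 - h y2| * (P2 ^ b1) ^ k :=
        add_le_add h3 h6
      _ = _ := by ring
  set D := P1 ^ b1 * C0 * E ^ b1 + |h y1 - h y2| with hD
  have hr : 1 < P2 ^ (b2 - b1) := Real.one_lt_rpow hP2 (by linarith)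
  obtain ⟨k, hk⟩ := pow_unbounded_of_one_lt (D / η) hr
  have h8 := main k
  have h9 : (P2 ^ b2) ^ k = (P2 ^ (b2 - b1)) ^ k * (P2 ^ b1) ^ k := by
    rw [← mul_pow, ← Real.rpow_add p2]; congr 2; ring
  rw [h9] at h8
  have h10 : 0 < (P2 ^ b1) ^ k := by positivity
  have h11 : (P2 ^ (b2 - b1)) ^ k * η ≤ D := by
    by_contra hcon
    push Not at hcon
    have := mul_lt_mul_of_pos_right hcon h10
    linarith
  rw [div_lt_iff₀ hη0] at hk
  linarith

/-- exponent zero -/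
theorem const_of_zero {h : ℝ → ℝ} (hc : Continuous h) {P y : ℝ} (hP : 1 < P)
    (H : ∀ z, h (y + P * z) = h (y + z)) : ∀ z, h (y + z) = h y := by
  have p : 0 < P := by linarith
  have Hn : ∀ n : ℕ, ∀ z, h (y + P ^ n * z) = h (y + z) := by
    intro n
    induction n with
    | zero => intro z; simp
    | succ n ih => intro z; rw [pow_succ, mul_assoc, ih, H]
  intro z
  have h1 : ∀ n : ℕ, h (y + (P⁻¹) ^ n * z) = h (y + z) := by
    intro n
    have := Hn n ((P⁻¹) ^ n * z)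
    rw [← mul_assoc, ← mul_pow, mul_inv_cancel₀ p.ne', one_pow, one_mul] at this
    exact this.symm
  have h2 : Tendsto (fun n : ℕ => h (y + (P⁻¹) ^ n * z)) atTop (𝓝 (h (y + 0 * z))) := by
    apply (hc.tendsto _).comp
    apply Tendsto.const_add
    apply Tendsto.mul_const
    exact tendsto_pow_atTop_nhds_zero_of_lt_one (by positivity) (inv_lt_one_of_one_lt₀ hP)
  simp only [h1] at h2
  have := tendsto_nhds_unique tendsto_const_nhds h2
  rw [this]; simp

/-- three points on a line contradict strict concavity of `x ^ b` -/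
theorem rpow_three {b M s0 s1 s2 : ℝ} (hb0 : 0 < b) (hb1 : b < 1) (h0 : 0 ≤ s0) (h01 : s0 < s1)
    (h12 : s1 < s2) (e0 : (1 + M) * s0 ^ b = 1 + M * s0) (e1 : (1 + M) * s1 ^ b = 1 + M * s1)
    (e2 : (1 + M) * s2 ^ b = 1 + M * s2) (hM : 0 ≤ M) : False := by
  have hconc := Real.strictConcaveOn_rpow hb0 hb1
  have hd : 0 < s2 - s0 := by linarith
  set l := (s2 - s1) / (s2 - s0) with hl
  set m := (s1 - s0) / (s2 - s0) with hm
  have hl0 : 0 < l := div_pos (by linarith) hd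
  have hm0 : 0 < m := div_pos (by linarith) hd
  have hlm : l + m = 1 := by rw [hl, hm]; field_simp; ring
  have hs : l * s0 + m * s2 = s1 := by rw [hl, hm]; field_simp; ring
  have := hconc.2 (show s0 ∈ Ici (0:ℝ) from h0) (show s2 ∈ Ici (0:ℝ) from by
    show (0:ℝ) ≤ s2; linarith) (by linarith : s0 ≠ s2) hl0 hm0 hlm
  simp only [smul_eq_mul] at this
  rw [hs] at this
  have h3 : 0 < 1 + M := by linarith
  have h4 := mul_lt_mul_of_pos_left this h3
  have h5 : (1 + M) * (l * s0 ^ b + m * s2 ^ b) = l * (1 + M * s0) + m * (1 + M * s2) := by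
    rw [← e0, ← e2]; ring
  have h6 : l * (1 + M * s0) + m * (1 + M * s2) = 1 + M * s1 := by
    rw [← hs]; linear_combination hlm
  rw [h5, h6, e1] at h4
  exact lt_irrefl _ h4

end Rigid
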