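import Mathlib

/-!
# A sign-change argument for Gaussian kernels against quasi-concave profiles
-/

namespace Rigid

open MeasureTheory Set Filter Topology

/-- Tail part. -/
theorem tail {G K : ℝ → ℝ} {s0 : ℝ}
    (hG : ∀ s t, s0 < s → s ≤ t → G t ≤ G s)
    (hpos : ∀ s, s0 < s → 0 < G s)
    (hlim : Tendsto G atTop (𝓝 0))
    (iK : IntegrableOn K (Ioi s0))
    (iGK : IntegrableOn (fun s => G s * K s) (Ioi s0))
    (hK0 : ∫ s in Ioi s0, K s = 0)
    (hI : ∀ s t, s0 < s → s ≤ t → 0 < K t → 0 < K s)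
    (hneg : ∃ N, ∀ s, N < s → K s < 0) (hne : ∃ s1, s0 < s1 ∧ 0 < K s1) :
    0 < ∫ s in Ioi s0, G s * K s := by
  obtain ⟨N, hN⟩ := hneg
  obtain ⟨s1, hs1, hKs1⟩ := hne
  set I : Set ℝ := {s | s0 < s ∧ 0 < K s} with hIdef
  have hIN : ∀ s ∈ I, s ≤ N := by
    intro s hs
    by_contra hc
    push Not at hc
    exact absurd hs.2 (not_lt.2 (hN s hc).le)
  have hbdd : BddBelow (G '' I) := ⟨0, by rintro _ ⟨s, hs, rfl⟩; exact (hpos s hs.1).le⟩
  have hIne : (G '' I).Nonempty := ⟨G s1, s1, ⟨hs1, hKs1⟩, rfl⟩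
  set g := sInf (G '' I) with hg
  set N2 := max N s0 + 1 with hN2
  have hN2N : N < N2 := by have := le_max_left N s0; linarith
  have hN2s : s0 < N2 := by have := le_max_right N s0; linarith
  have hg0 : 0 < g := by
    refine lt_of_lt_of_le (hpos N2 hN2s) ?_
    apply le_csInf hIne
    rintro _ ⟨s, hs, rfl⟩
    exact hG s N2 hs.1 ((hIN s hs).trans hN2N.le)
  have hnn : ∀ s, s0 < s → 0 ≤ (G s - g) * K s := by
    intro s hs
    rcases lt_or_ge 0 (K s) with hk | hk
    · have : g ≤ G s := csInf_le hbdd ⟨s, ⟨hs, hk⟩, rfl⟩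
      nlinarith
    · have : G s ≤ g := by
        apply le_csInf hIne
        rintro _ ⟨i, hi, rfl⟩
        have : i ≤ s := by
          by_contra hc
          push Not at hc
          exact absurd (hI s i hs hc.le hi.2) (not_lt.2 hk)
        exact hG i s hi.1 this
      nlinarith
  have iD : IntegrableOn (fun s => (G s - g) * K s) (Ioi s0) := by
    have : (fun s => (G s - g) * K s) = fun s => G s * K s - g * K s := by ext s; ring
    rw [this]
    exact iGK.sub (iK.const_mul g)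
  have hD : ∫ s in Ioi s0, (G s - g) * K s = ∫ s in Ioi s0, G s * K s := by
    have : (fun s => (G s - g) * K s) = fun s => G s * K s - g * K s := by ext s; ring
    rw [this, integral_sub iGK (iK.const_mul g), integral_const_mul, hK0]
    ring
  rw [← hD]
  rw [setIntegral_pos_iff_support_of_nonneg_ae]
  · have hev : ∀ᶠ s in atTop, G s < g := hlim.eventually_lt_const hg0
    obtain ⟨M, hM⟩ := (hev.and (eventually_gt_atTop (max N s0))).exists_forall_of_atTop
    have hsub : Ioi M ⊆ Function.support (fun s => (G s - g) * K s) ∩ Ioi s0 := by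
      intro s hs
      have h1 := hM s (le_of_lt hs)
      have h2 : K s < 0 := hN s (lt_of_le_of_lt (le_max_left _ _) h1.2)
      have h3 : G s - g < 0 := by linarith [h1.1]
      refine ⟨?_, lt_of_le_of_lt (le_max_right _ _) h1.2⟩
      simp only [Function.mem_support]
      exact (mul_pos_of_neg_of_neg h3 h2).ne'
    refine lt_of_lt_of_le ?_ (measure_mono hsub)
    simp
  · exact (ae_restrict_iff' measurableSet_Ioi).2 (ae_of_all _ hnn)
  · exact iD

/-- Head part. -/
theorem head {G K : ℝ → ℝ} {s0 : ℝ}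
    (hG : ∀ s t, 0 < s → s ≤ t → t < s0 → G s ≤ G t)
    (hpos : ∀ s, 0 < s → 0 < G s)
    (iK : IntegrableOn K (Ioo 0 s0))
    (iGK : IntegrableOn (fun s => G s * K s) (Ioo 0 s0))
    (hK0 : ∫ s in Ioo 0 s0, K s = 0)
    (hI : ∀ s t, 0 < s → s ≤ t → t < s0 → 0 < K s → 0 < K t)
    (hne : ∃ s1, 0 < s1 ∧ s1 < s0 ∧ 0 < K s1) :
    0 ≤ ∫ s in Ioo 0 s0, G s * K s := by
  obtain ⟨s1, hs1, hs1', hKs1⟩ := hne
  set I : Set ℝ := {s | (0 < s ∧ s < s0) ∧ 0 < K s} with hIdef
  have hbdd : BddBelow (G '' I) := ⟨0, by rintro _ ⟨s, hs, rfl⟩; exact (hpos s hs.1.1).le⟩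
  have hIne : (G '' I).Nonempty := ⟨G s1, s1, ⟨⟨hs1, hs1'⟩, hKs1⟩, rfl⟩
  set g := sInf (G '' I) with hg
  have hnn : ∀ s ∈ Ioo 0 s0, 0 ≤ (G s - g) * K s := by
    intro s hs
    rcases lt_or_ge 0 (K s) with hk | hk
    · have : g ≤ G s := csInf_le hbdd ⟨s, ⟨hs, hk⟩, rfl⟩
      nlinarith
    · have : G s ≤ g := by
        apply le_csInf hIne
        rintro _ ⟨i, hi, rfl⟩
        have : s ≤ i := by
          by_contra hc
          push Not at hc
          exact absurd (hI i s hi.1.1 hc.le hs.2 hi.2) (not_lt.2 hk)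
        exact hG s i hs.1 this hi.1.2
      nlinarith
  have hD : ∫ s in Ioo 0 s0, (G s - g) * K s = ∫ s in Ioo 0 s0, G s * K s := by
    have : (fun s => (G s - g) * K s) = fun s => G s * K s - g * K s := by ext s; ring
    rw [this, integral_sub iGK (iK.const_mul g), integral_const_mul, hK0]
    ring
  rw [← hD]
  exact setIntegral_nonneg measurableSet_Ioo hnn

/-- The Gaussian kernel `exp(-s²/c²)/c`. -/
noncomputable def ker (c s : ℝ) : ℝ := c⁻¹ * Real.exp (-(c⁻¹ * s) ^ 2)

theorem ker_cont (c : ℝ) : Continuous (ker c) := by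
  unfold ker; fun_prop

theorem gauss_integrable : Integrable (fun x : ℝ => Real.exp (-x ^ 2)) := by
  have := integrable_exp_neg_mul_sq (b := 1) one_pos
  simpa using this

theorem ker_integrable {c : ℝ} (hc : 0 < c) : Integrable (ker c) := by
  unfold ker
  refine Integrable.const_mul ?_ _
  exact gauss_integrable.comp_mul_left' (inv_ne_zero hc.ne')

theorem ker_nonneg {c : ℝ} (hc : 0 < c) (s : ℝ) : 0 ≤ ker c s := by
  unfold ker; positivity

theorem ker_pos {c : ℝ} (hc : 0 < c) (s : ℝ) : 0 < ker c s := by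
  unfold ker; positivity

theorem ker_integral (G : ℝ → ℝ) {c : ℝ} (hc : 0 < c) :
    ∫ s in Ioi 0, G s * ker c s = ∫ z in Ioi (0 : ℝ), Real.exp (-z ^ 2) * G (c * z) := by
  have := integral_comp_mul_left_Ioi (fun s => Real.exp (-(c⁻¹ * s) ^ 2) * G s) 0 hc
  simp only [mul_zero] at this
  have e : ∀ x, c⁻¹ * (c * x) = x := fun x => by field_simp
  simp only [e] at this
  rw [this, smul_eq_mul, ← integral_const_mul]
  apply integral_congr_ae
  refine ae_of_all _ ?_
  intro s
  simp only [ker]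
  ring

theorem ker_total {c : ℝ} (hc : 0 < c) :
    ∫ s in Ioi 0, ker c s = ∫ z in Ioi (0 : ℝ), Real.exp (-z ^ 2) := by
  have := ker_integral (fun _ => 1) hc
  simpa using this

theorem ker_partial {c : ℝ} (s0 : ℝ) :
    ∫ s in (0 : ℝ)..s0, ker c s = ∫ z in (0 : ℝ)..(c⁻¹ * s0), Real.exp (-z ^ 2) := by
  unfold ker
  rw [intervalIntegral.integral_const_mul, intervalIntegral.mul_integral_comp_mul_left
    (f := fun z => Real.exp (-z ^ 2))]
  simp

theorem ker_partial_lt {c d : ℝ} (hc : 0 < c) (hcd : c < d) {s0 : ℝ} (hs0 : 0 < s0) :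
    ∫ s in (0 : ℝ)..s0, ker d s < ∫ s in (0 : ℝ)..s0, ker c s := by
  have hd : 0 < d := hc.trans hcd
  rw [ker_partial, ker_partial]
  have hii : ∀ a b : ℝ, IntervalIntegrable (fun z : ℝ => Real.exp (-z ^ 2)) volume a b :=
    fun a b => gauss_integrable.intervalIntegrable
  rw [← intervalIntegral.integral_add_adjacent_intervals (hii 0 (d⁻¹ * s0))
    (hii (d⁻¹ * s0) (c⁻¹ * s0))]
  have hlt : d⁻¹ * s0 < c⁻¹ * s0 := by
    apply mul_lt_mul_of_pos_right _ hs0
    exact inv_strictAnti₀ hc hcd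
  have : 0 < ∫ x in (d⁻¹ * s0)..(c⁻¹ * s0), Real.exp (-x ^ 2) := by
    apply intervalIntegral.intervalIntegral_pos_of_pos (hii _ _) _ hlt
    intro x; positivity
  linarith

/-- Concavity-type statement for `A e^{-py} + B + D e^{qy}` with `A, D < 0`. -/
theorem quad_conc {A B D p q : ℝ} (hA : A ≤ 0) (hD : D ≤ 0) {x y z : ℝ} (hxy : x ≤ y) (hyz : y ≤ z)
    (hx : 0 < A * Real.exp (-(p * x)) + B + D * Real.exp (q * x))
    (hz : 0 < A * Real.exp (-(p * z)) + B + D * Real.exp (q * z)) :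
    0 < A * Real.exp (-(p * y)) + B + D * Real.exp (q * y) := by
  rcases eq_or_lt_of_le hxy with rfl | hxy
  · exact hx
  have hxz : x < z := lt_of_lt_of_le hxy hyz
  set a := (z - y) / (z - x) with ha
  set b := (y - x) / (z - x) with hb
  have h0 : 0 < z - x := by linarith
  have ha0 : 0 ≤ a := div_nonneg (by linarith) h0.le
  have hb0 : 0 < b := div_pos (by linarith) h0
  have hab : a + b = 1 := by rw [ha, hb]; field_simp; ring
  have hy : y = a * x + b * z := by rw [ha, hb]; field_simp; ring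
  have h1 : Real.exp (-(p * y)) ≤ a * Real.exp (-(p * x)) + b * Real.exp (-(p * z)) := by
    have := convexOn_exp.2 (mem_univ (-(p * x))) (mem_univ (-(p * z))) ha0 hb0.le hab
    simp only [smul_eq_mul] at this
    have e : a * -(p * x) + b * -(p * z) = -(p * y) := by rw [hy]; ring
    rwa [e] at this
  have h2 : Real.exp (q * y) ≤ a * Real.exp (q * x) + b * Real.exp (q * z) := by
    have := convexOn_exp.2 (mem_univ (q * x)) (mem_univ (q * z)) ha0 hb0.le hab
    simp only [smul_eq_mul] at this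
    have e : a * (q * x) + b * (q * z) = q * y := by rw [hy]; ring
    rwa [e] at this
  have h3 := mul_le_mul_of_nonpos_left h1 hA
  have h4 := mul_le_mul_of_nonpos_left h2 hD
  have h5 : 0 < b * (A * Real.exp (-(p * z)) + B + D * Real.exp (q * z)) := mul_pos hb0 hz
  have h6 : 0 ≤ a * (A * Real.exp (-(p * x)) + B + D * Real.exp (q * x)) := mul_nonneg ha0 hx.le
  have h7 : a * B + b * B = B := by rw [← add_mul, hab, one_mul]
  nlinarith

theorem quad_strict {A B D p q h : ℝ} (hA : A < 0) (hD : D ≤ 0) (hp : 0 < p) (hh : 0 < h)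
    (h0 : A * Real.exp (-(p * 0)) + B + D * Real.exp (q * 0) = 0)
    (h1 : A * Real.exp (-(p * h)) + B + D * Real.exp (q * h) = 0)
    (h2 : A * Real.exp (-(p * (2 * h))) + B + D * Real.exp (q * (2 * h)) = 0) : False := by
  set u := Real.exp (-(p * h)) with hu
  set w := Real.exp (q * h) with hw
  have eu : Real.exp (-(p * (2 * h))) = u ^ 2 := by
    rw [hu, ← Real.exp_nat_mul]; congr 1; push_cast; ring
  have ew : Real.exp (q * (2 * h)) = w ^ 2 := by
    rw [hw, ← Real.exp_nat_mul]; congr 1; push_cast; ring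
  rw [eu, ew] at h2
  simp only [mul_zero, neg_zero, Real.exp_zero, mul_one] at h0
  have hu1 : u < 1 := by
    rw [hu, Real.exp_lt_one_iff]
    have := mul_pos hp hh
    linarith
  have : A * (1 - u) ^ 2 + D * (1 - w) ^ 2 = 0 := by linear_combination h0 - 2 * h1 + h2
  have h3 : A * (1 - u) ^ 2 < 0 := mul_neg_of_neg_of_pos hA (by
    have : 0 < 1 - u := by linarith
    positivity)
  have h4 : D * (1 - w) ^ 2 ≤ 0 := mul_nonpos_of_nonpos_of_nonneg hD (sq_nonneg _)
  linarith

theorem tail_ne {K : ℝ → ℝ} {s0 : ℝ} (iK : IntegrableOn K (Ioi s0))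
    (hK0 : ∫ s in Ioi s0, K s = 0) (hneg : ∃ N, ∀ s, N < s → K s < 0) :
    ∃ s1, s0 < s1 ∧ 0 < K s1 := by
  by_contra hc
  push Not at hc
  obtain ⟨N, hN⟩ := hneg
  have h1 : 0 < ∫ s in Ioi s0, (-K s) := by
    rw [setIntegral_pos_iff_support_of_nonneg_ae]
    · have hsub : Ioi (max N s0) ⊆ Function.support (fun s => - K s) ∩ Ioi s0 := by
        intro s hs
        have hs' : max N s0 < s := hs
        have h2 : K s < 0 := hN s (lt_of_le_of_lt (le_max_left _ _) hs')
        refine ⟨?_, lt_of_le_of_lt (le_max_right _ _) hs'⟩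
        simp only [Function.mem_support]
        linarith
      refine lt_of_lt_of_le ?_ (measure_mono hsub)
      simp
    · refine (ae_restrict_iff' measurableSet_Ioi).2 (ae_of_all _ ?_)
      intro s hs
      have := hc s hs
      simp only [Pi.zero_apply]
      linarith
    · exact iK.neg
  rw [integral_neg, hK0] at h1
  simp at h1

theorem prof_integrable {G : ℝ → ℝ} (hm : Measurable G) (hpos : ∀ s, 0 < s → 0 < G s)
    (hb : ∃ M, ∀ s, 0 < s → G s ≤ M) {c : ℝ} (hc : 0 < c) :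
    IntegrableOn (fun s => G s * ker c s) (Ioi 0) := by
  obtain ⟨M, hM⟩ := hb
  refine Integrable.mono' ((ker_integrable hc).integrableOn.const_mul M) ?_ ?_
  · exact (hm.mul (ker_cont c).measurable).aestronglyMeasurable
  · refine (ae_restrict_iff' measurableSet_Ioi).2 (ae_of_all _ ?_)
    intro s hs
    have hs : 0 < s := hs
    rw [Real.norm_eq_abs, abs_of_nonneg (mul_nonneg (hpos s hs).le (ker_nonneg hc s))]
    exact mul_le_mul_of_nonneg_right (hM s hs) (ker_nonneg hc s)

/-- antitone profile: impossible -/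
theorem kernel_anti {G : ℝ → ℝ} (hm : Measurable G) (hpos : ∀ s, 0 < s → 0 < G s)
    (hb : ∃ M, ∀ s, 0 < s → G s ≤ M) (hlim : Tendsto G atTop (𝓝 0))
    (hG : ∀ s t, 0 < s → s ≤ t → G t ≤ G s) {c d : ℝ} (hc : 0 < c) (hcd : c < d)
    (h : ∫ s in Ioi 0, G s * ker c s = ∫ s in Ioi 0, G s * ker d s) : False := by
  have hd : 0 < d := hc.trans hcd
  set K : ℝ → ℝ := fun s => ker c s - ker d s with hK
  have iK : IntegrableOn K (Ioi 0) :=
    ((ker_integrable hc).sub (ker_integrable hd)).integrableOn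
  have eGK : (fun s => G s * K s) = fun s => G s * ker c s - G s * ker d s := by
    ext s; simp only [hK]; ring
  have iGK : IntegrableOn (fun s => G s * K s) (Ioi 0) := by
    rw [eGK]
    exact (prof_integrable hm hpos hb hc).sub (prof_integrable hm hpos hb hd)
  have hGK : ∫ s in Ioi 0, G s * K s = 0 := by
    rw [eGK, integral_sub (prof_integrable hm hpos hb hc) (prof_integrable hm hpos hb hd), h,
      sub_self]
  have hK0 : ∫ s in Ioi 0, K s = 0 := by
    simp only [hK]
    rw [integral_sub (ker_integrable hc).integrableOn (ker_integrable hd).integrableOn,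
      ker_total hc, ker_total hd, sub_self]
  set p : ℝ := c⁻¹ ^ 2 - d⁻¹ ^ 2 with hp
  have hp0 : 0 < p := by
    have h1 : d⁻¹ < c⁻¹ := inv_strictAnti₀ hc hcd
    have h2 : 0 < d⁻¹ := by positivity
    rw [hp]; nlinarith
  have eK : ∀ s, K s = Real.exp (-(d⁻¹ * s) ^ 2) * (c⁻¹ * Real.exp (-(p * s ^ 2)) - d⁻¹) := by
    intro s
    have e1 : Real.exp (-(c⁻¹ * s) ^ 2) =
        Real.exp (-(d⁻¹ * s) ^ 2) * Real.exp (-(p * s ^ 2)) := by
      rw [← Real.exp_add]; congr 1; rw [hp]; ring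
    simp only [hK, ker]
    rw [e1]; ring
  have hneg : ∃ N, ∀ s, N < s → K s < 0 := by
    have h1 : Tendsto (fun s : ℝ => c⁻¹ * Real.exp (-(p * s ^ 2))) atTop (𝓝 (c⁻¹ * 0)) := by
      apply Tendsto.const_mul
      apply Real.tendsto_exp_neg_atTop_nhds_zero.comp
      exact Tendsto.const_mul_atTop hp0 (tendsto_pow_atTop (by norm_num))
    rw [mul_zero] at h1
    have h2 := h1.eventually_lt_const (show (0:ℝ) < d⁻¹ by positivity)
    obtain ⟨N, hN⟩ := h2.exists_forall_of_atTop
    refine ⟨N, fun s hs => ?_⟩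
    rw [eK]
    apply mul_neg_of_pos_of_neg (Real.exp_pos _)
    have := hN s hs.le
    linarith
  have hI : ∀ s t, 0 < s → s ≤ t → 0 < K t → 0 < K s := by
    intro s t hs hst ht
    rw [eK] at ht ⊢
    have h1 : 0 < c⁻¹ * Real.exp (-(p * t ^ 2)) - d⁻¹ := by
      by_contra hcon
      push Not at hcon
      have := mul_nonpos_of_nonneg_of_nonpos (Real.exp_pos (-(d⁻¹ * t) ^ 2)).le hcon
      linarith
    apply mul_pos (Real.exp_pos _)
    have h2 : Real.exp (-(p * t ^ 2)) ≤ Real.exp (-(p * s ^ 2)) := by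
      apply Real.exp_le_exp.2
      have : s ^ 2 ≤ t ^ 2 := by gcongr
      nlinarith
    have h3 : 0 < c⁻¹ := by positivity
    have := mul_le_mul_of_nonneg_left h2 h3.le
    linarith
  have := tail (s0 := 0) (G := G) (K := K) hG hpos hlim iK iGK hK0 hI hneg
    (tail_ne iK hK0 hneg)
  rw [hGK] at this
  exact lt_irrefl _ this

/-- unimodal profile: impossible -/
theorem kernel_unimodal {G : ℝ → ℝ} (hm : Measurable G) (hpos : ∀ s, 0 < s → 0 < G s)
    (hb : ∃ M, ∀ s, 0 < s → G s ≤ M) (hlim : Tendsto G atTop (𝓝 0)) {s0 : ℝ} (hs0 : 0 < s0)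
    (hG1 : ∀ s t, 0 < s → s ≤ t → t < s0 → G s ≤ G t)
    (hG2 : ∀ s t, s0 < s → s ≤ t → G t ≤ G s) {c0 c1 c2 : ℝ} (hc0 : 0 < c0) (h01 : c0 < c1)
    (h12 : c1 < c2) {J : ℝ}
    (h0 : ∫ s in Ioi 0, G s * ker c0 s = J) (h1 : ∫ s in Ioi 0, G s * ker c1 s = J)
    (h2 : ∫ s in Ioi 0, G s * ker c2 s = J) : False := by
  have hc1 : 0 < c1 := hc0.trans h01
  have hc2 : 0 < c2 := hc1.trans h12
  set a0 := ∫ s in (0 : ℝ)..s0, ker c0 s with ha0
  set a1 := ∫ s in (0 : ℝ)..s0, ker c1 s with ha1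
  set a2 := ∫ s in (0 : ℝ)..s0, ker c2 s with ha2
  have a10 : a1 < a0 := ker_partial_lt hc0 h01 hs0
  have a21 : a2 < a1 := ker_partial_lt hc1 h12 hs0
  set K : ℝ → ℝ := fun s => (a2 - a1) * ker c0 s + (a0 - a2) * ker c1 s + (a1 - a0) * ker c2 s
    with hK
  have cK : Continuous K := by
    have := ker_cont c0
    have := ker_cont c1
    have := ker_cont c2
    fun_prop
  have iK' : Integrable K :=
    (((ker_integrable hc0).const_mul _).add ((ker_integrable hc1).const_mul _)).add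
      ((ker_integrable hc2).const_mul _)
  have eGK : (fun s => G s * K s) = fun s => (a2 - a1) * (G s * ker c0 s) +
      (a0 - a2) * (G s * ker c1 s) + (a1 - a0) * (G s * ker c2 s) := by
    ext s; simp only [hK]; ring
  have i0 := (prof_integrable hm hpos hb hc0).const_mul (a2 - a1)
  have i1 := (prof_integrable hm hpos hb hc1).const_mul (a0 - a2)
  have i2 := (prof_integrable hm hpos hb hc2).const_mul (a1 - a0)
  have iGK : IntegrableOn (fun s => G s * K s) (Ioi 0) := by
    rw [eGK]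
    exact (i0.add i1).add i2
  have hGK : ∫ s in Ioi 0, G s * K s = 0 := by
    rw [eGK, integral_add (f := fun s => (a2 - a1) * (G s * ker c0 s) +
      (a0 - a2) * (G s * ker c1 s)) (i0.add i1) i2, integral_add i0 i1, integral_const_mul,
      integral_const_mul, integral_const_mul, h0, h1, h2]
    ring
  have hK0 : ∫ s in Ioi 0, K s = 0 := by
    have j0 := ((ker_integrable hc0).const_mul (a2 - a1)).integrableOn (s := Ioi 0)
    have j1 := ((ker_integrable hc1).const_mul (a0 - a2)).integrableOn (s := Ioi 0)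
    have j2 := ((ker_integrable hc2).const_mul (a1 - a0)).integrableOn (s := Ioi 0)
    simp only [hK]
    rw [integral_add (f := fun s => (a2 - a1) * ker c0 s + (a0 - a2) * ker c1 s)
      (j0.add j1) j2, integral_add j0 j1, integral_const_mul,
      integral_const_mul, integral_const_mul, ker_total hc0, ker_total hc1, ker_total hc2]
    ring
  have hKh : ∫ s in (0 : ℝ)..s0, K s = 0 := by
    have j0 := ((ker_cont c0).const_mul (a2 - a1)).intervalIntegrable (μ := volume) 0 s0
    have j1 := ((ker_cont c1).const_mul (a0 - a2)).intervalIntegrable (μ := volume) 0 s0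
    have j2 := ((ker_cont c2).const_mul (a1 - a0)).intervalIntegrable (μ := volume) 0 s0
    simp only [hK]
    rw [intervalIntegral.integral_add (j0.add j1) j2, intervalIntegral.integral_add j0 j1,
      intervalIntegral.integral_const_mul, intervalIntegral.integral_const_mul,
      intervalIntegral.integral_const_mul]
    rw [← ha0, ← ha1, ← ha2]
    ring
  have hKh' : ∫ s in Ioo 0 s0, K s = 0 := by
    rw [← integral_Ioc_eq_integral_Ioo, ← intervalIntegral.integral_of_le hs0.le, hKh]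
  have hsplit : ∀ (F : ℝ → ℝ), IntegrableOn F (Ioi 0) →
      ∫ s in Ioi 0, F s = (∫ s in Ioo 0 s0, F s) + ∫ s in Ioi s0, F s := by
    intro F hF
    rw [← integral_Ioc_eq_integral_Ioo]
    rw [← setIntegral_union (Ioc_disjoint_Ioi le_rfl) measurableSet_Ioi
      (hF.mono_set Ioc_subset_Ioi_self) (hF.mono_set (Ioi_subset_Ioi hs0.le))]
    rw [Ioc_union_Ioi_eq_Ioi hs0.le]
  have hKt : ∫ s in Ioi s0, K s = 0 := by
    have := hsplit K iK'.integrableOn
    rw [hK0, hKh'] at this
    linarith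
  set p : ℝ := c0⁻¹ ^ 2 - c1⁻¹ ^ 2 with hp
  set q : ℝ := c1⁻¹ ^ 2 - c2⁻¹ ^ 2 with hq
  have hp0 : 0 < p := by
    have h1 : c1⁻¹ < c0⁻¹ := inv_strictAnti₀ hc0 h01
    have h2 : 0 < c1⁻¹ := by positivity
    rw [hp]; nlinarith
  have hq0 : 0 < q := by
    have h1 : c2⁻¹ < c1⁻¹ := inv_strictAnti₀ hc1 h12
    have h2 : 0 < c2⁻¹ := by positivity
    rw [hq]; nlinarith
  set A := (a2 - a1) * c0⁻¹ with hA
  set B := (a0 - a2) * c1⁻¹ with hB
  set D := (a1 - a0) * c2⁻¹ with hD
  have hA0 : A < 0 := mul_neg_of_neg_of_pos (by linarith) (by positivity)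
  have hD0 : D < 0 := mul_neg_of_neg_of_pos (by linarith) (by positivity)
  set Q : ℝ → ℝ := fun y => A * Real.exp (-(p * y)) + B + D * Real.exp (q * y) with hQ
  have eK : ∀ s, K s = Real.exp (-(c1⁻¹ * s) ^ 2) * Q (s ^ 2) := by
    intro s
    have e1 : Real.exp (-(c0⁻¹ * s) ^ 2) =
        Real.exp (-(c1⁻¹ * s) ^ 2) * Real.exp (-(p * s ^ 2)) := by
      rw [← Real.exp_add]; congr 1; rw [hp]; ring
    have e2 : Real.exp (-(c2⁻¹ * s) ^ 2) =
        Real.exp (-(c1⁻¹ * s) ^ 2) * Real.exp (q * s ^ 2) := by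
      rw [← Real.exp_add]; congr 1; rw [hq]; ring
    simp only [hK, ker, hQ]
    rw [e1, e2]; ring
  have sK : ∀ s, 0 < K s ↔ 0 < Q (s ^ 2) := by
    intro s
    rw [eK]
    exact mul_pos_iff_of_pos_left (Real.exp_pos _)
  have hneg : ∃ N, ∀ s, N < s → K s < 0 := by
    have h1 : Tendsto (fun s : ℝ => Real.exp (q * s ^ 2)) atTop atTop := by
      apply Real.tendsto_exp_atTop.comp
      exact Tendsto.const_mul_atTop hq0 (tendsto_pow_atTop (by norm_num))
    have h2 := h1.eventually_gt_atTop (B / (-D))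
    obtain ⟨N, hN⟩ := h2.exists_forall_of_atTop
    refine ⟨N, fun s hs => ?_⟩
    rw [eK]
    apply mul_neg_of_pos_of_neg (Real.exp_pos _)
    have h3 := hN s hs.le
    rw [div_lt_iff₀ (by linarith)] at h3
    have h4 : A * Real.exp (-(p * s ^ 2)) < 0 := mul_neg_of_neg_of_pos hA0 (Real.exp_pos _)
    simp only [hQ]
    linarith
  obtain ⟨t1, ht1, hKt1⟩ := tail_ne iK'.integrableOn hKt hneg
  have hhead : ∃ s1, 0 < s1 ∧ s1 < s0 ∧ 0 < K s1 := by
    by_contra hcon
    push Not at hcon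
    have hle : ∀ x ∈ Icc 0 s0, K x ≤ 0 := by
      have hcl : closure (Ioo 0 s0) ⊆ {x | K x ≤ 0} := by
        apply closure_minimal
        · intro x hx
          exact hcon x hx.1 hx.2
        · exact isClosed_le cK continuous_const
      rw [closure_Ioo hs0.ne] at hcl
      exact fun x hx => hcl hx
    have hz : ∀ x ∈ Icc 0 s0, K x = 0 := by
      intro x hx
      by_contra hxz
      have hlt : K x < 0 := lt_of_le_of_ne (hle x hx) hxz
      have := intervalIntegral.integral_pos (f := fun x => - K x) hs0 (by fun_prop)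
        (fun y hy => by have := hle y ⟨hy.1.le, hy.2⟩; linarith) ⟨x, hx, by linarith⟩
      rw [intervalIntegral.integral_neg, hKh] at this
      simp at this
    have hQz : ∀ x ∈ Icc 0 s0, Q (x ^ 2) = 0 := by
      intro x hx
      have := hz x hx
      rw [eK] at this
      exact (mul_eq_zero.1 this).resolve_left (Real.exp_pos _).ne'
    have q0 := hQz 0 ⟨le_rfl, hs0.le⟩
    have q2 := hQz s0 ⟨hs0.le, le_rfl⟩
    have q1 := hQz (Real.sqrt (s0 ^ 2 / 2)) ⟨Real.sqrt_nonneg _, by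
      rw [Real.sqrt_le_left hs0.le]
      nlinarith [sq_nonneg s0]⟩
    rw [Real.sq_sqrt (by positivity)] at q1
    refine quad_strict (h := s0 ^ 2 / 2) (B := B) (q := q) hA0 hD0.le hp0 (by positivity) ?_ ?_ ?_
    · simpa [hQ] using q0
    · simpa [hQ] using q1
    · have : 2 * (s0 ^ 2 / 2) = s0 ^ 2 := by ring
      rw [this]
      simpa [hQ] using q2
  obtain ⟨t0, ht0, ht0', hKt0⟩ := hhead
  have hmono : ∀ x y z, 0 < x → x ≤ y → y ≤ z → 0 < K x → 0 < K z → 0 < K y := by
    intro x y z hx hxy hyz h1 h2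
    rw [sK] at h1 h2 ⊢
    exact quad_conc hA0.le hD0.le (by gcongr) (by have := hx.trans_le hxy; gcongr) h1 h2
  have T := tail (s0 := s0) (G := G) (K := K) hG2 (fun s hs => hpos s (hs0.trans hs)) hlim
    iK'.integrableOn (iGK.mono_set (Ioi_subset_Ioi hs0.le)) hKt
    (fun s t hs hst ht => hmono t0 s t ht0 (by linarith) hst hKt0 ht) hneg ⟨t1, ht1, hKt1⟩
  have H := head (s0 := s0) (G := G) (K := K) hG1 hpos iK'.integrableOn
    (iGK.mono_set Ioo_subset_Ioi_self) hKh'
    (fun s t hs hst ht hKs => hmono s t t1 hs hst (by linarith) hKs hKt1) ⟨t0, ht0, ht0', hKt0⟩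
  have := hsplit _ iGK
  rw [hGK] at this
  linarith

/-- Kernel lemma. -/
theorem kernel_main {G : ℝ → ℝ} (hm : Measurable G) (hpos : ∀ s, 0 < s → 0 < G s)
    (hb : ∃ M, ∀ s, 0 < s → G s ≤ M) (hlim : Tendsto G atTop (𝓝 0))
    (hqc : ∀ s t u, 0 < s → s ≤ t → t ≤ u → min (G s) (G u) ≤ G t)
    {c0 c1 c2 : ℝ} (hc0 : 0 < c0) (h01 : c0 < c1)
    (h12 : c1 < c2) {J : ℝ}
    (h0 : ∫ z in Ioi (0:ℝ), Real.exp (-z ^ 2) * G (c0 * z) = J)
    (h1 : ∫ z in Ioi (0:ℝ), Real.exp (-z ^ 2) * G (c1 * z) = J)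
    (h2 : ∫ z in Ioi (0:ℝ), Real.exp (-z ^ 2) * G (c2 * z) = J) : False := by
  have hc1 : 0 < c1 := hc0.trans h01
  have hc2 : 0 < c2 := hc1.trans h12
  rw [← ker_integral G hc0] at h0
  rw [← ker_integral G hc1] at h1
  rw [← ker_integral G hc2] at h2
  set S : Set ℝ := {s | 0 < s ∧ ∃ s', s < s' ∧ G s < G s'} with hS
  by_cases hSe : S.Nonempty
  · have hSmono : ∀ r s, 0 < r → r ≤ s → s ∈ S → G r ≤ G s := by
      rintro r s hr hrs ⟨hs, s', hss', hGs⟩
      have := hqc r s s' hr hrs hss'.le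
      rcases min_le_iff.1 this with h | h
      · exact h
      · exact absurd hGs (not_lt.2 h)
    have hSdown : ∀ r s, 0 < r → r ≤ s → s ∈ S → r ∈ S := by
      rintro r s hr hrs hsS
      have h := hSmono r s hr hrs hsS
      obtain ⟨hs, s', hss', hGs⟩ := hsS
      exact ⟨hr, s', lt_of_le_of_lt hrs hss', lt_of_le_of_lt h hGs⟩
    have hSb : BddAbove S := by
      have hev := hlim.eventually_lt_const (hpos 1 one_pos)
      obtain ⟨N, hN⟩ := (hev.and (eventually_ge_atTop (1:ℝ))).exists_forall_of_atTop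
      refine ⟨N, ?_⟩
      intro s hs
      by_contra hcon
      push Not at hcon
      have h := hN s hcon.le
      have := hSmono 1 s one_pos h.2 hs
      linarith [h.1]
    obtain ⟨s1, hs1⟩ := hSe
    have hs0 : 0 < sSup S := lt_of_lt_of_le hs1.1 (le_csSup hSb hs1)
    refine kernel_unimodal hm hpos hb hlim hs0 ?_ ?_ hc0 h01 h12 h0 h1 h2
    · intro s t hs hst ht
      obtain ⟨r, hr, htr⟩ := exists_lt_of_lt_csSup ⟨s1, hs1⟩ ht
      exact hSmono s t hs hst (hSdown t r (hs.trans_le hst) htr.le hr)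
    · intro s t hs hst
      by_contra hcon
      push Not at hcon
      rcases eq_or_lt_of_le hst with rfl | hlt
      · exact lt_irrefl _ hcon
      · have : s ∈ S := ⟨hs0.trans hs, t, hlt, hcon⟩
        exact absurd (le_csSup hSb this) (not_le.2 hs)
  · refine kernel_anti hm hpos hb hlim ?_ hc0 h01 (h0.trans h1.symm)
    intro s t hs hst
    by_contra hcon
    push Not at hcon
    rcases eq_or_lt_of_le hst with rfl | hlt
    · exact lt_irrefl _ hcon
    · exact hSe ⟨s, hs, t, hlt, hcon⟩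

/-- Kernel lemma for three distinct scales in any order. -/
theorem kernel_lemma {G : ℝ → ℝ} (hm : Measurable G) (hpos : ∀ s, 0 < s → 0 < G s)
    (hb : ∃ M, ∀ s, 0 < s → G s ≤ M) (hlim : Tendsto G atTop (𝓝 0))
    (hqc : ∀ s t u, 0 < s → s ≤ t → t ≤ u → min (G s) (G u) ≤ G t)
    {c0 c1 c2 : ℝ} (hc0 : 0 < c0) (hc1 : 0 < c1) (hc2 : 0 < c2)
    (h01 : c0 ≠ c1) (h12 : c1 ≠ c2) (h02 : c0 ≠ c2) {J : ℝ}
    (h0 : ∫ z in Ioi (0:ℝ), Real.exp (-z ^ 2) * G (c0 * z) = J)
    (h1 : ∫ z in Ioi (0:ℝ), Real.exp (-z ^ 2) * G (c1 * z) = J)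
    (h2 : ∫ z in Ioi (0:ℝ), Real.exp (-z ^ 2) * G (c2 * z) = J) : False := by
  rcases lt_or_gt_of_ne h01 with a | a <;> rcases lt_or_gt_of_ne h12 with b | b <;>
    rcases lt_or_gt_of_ne h02 with c | c
  · exact kernel_main hm hpos hb hlim hqc hc0 a b h0 h1 h2
  · linarith
  · exact kernel_main hm hpos hb hlim hqc hc0 c b h0 h2 h1
  · exact kernel_main hm hpos hb hlim hqc hc2 c a h2 h0 h1
  · exact kernel_main hm hpos hb hlim hqc hc1 a c h1 h0 h2
  · exact kernel_main hm hpos hb hlim hqc hc1 b c h1 h2 h0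
  · linarith
  · exact kernel_main hm hpos hb hlim hqc hc2 b a h2 h1 h0

end Rigid
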