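import Mathlib
import Pool.Agent.Lib_helper73.Rigid.Cone

/-!
# Pointed cones in the upper half space: conclusion
-/

namespace Rigid

open MeasureTheory Set Filter Topology

section words

variable {V : Type*} [NormedAddCommGroup V] [NormedSpace ℝ V] {ι : Type*} {f : V → ℝ}
  {u : ι → V × ℝ} {T S S' : (V × ℝ) ≃ᵃ[ℝ] (V × ℝ)}
  {σ : Equiv.Perm ι} {ε : ℝ} {x y y' : ι → ℝ}

theorem Mon.sq (h : Mon f u T σ ε x) (hσ : σ * σ = 1) :
    Mon f u (T * T) 1 1 (fun i => x i * x (σ i)) := by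
  have := h.mul h
  rw [hσ] at this
  have e : ε * ε = 1 := by rcases h.sgn with rfl | rfl <;> norm_num
  rwa [e] at this

theorem Mon.conj (h : Mon f u T σ ε x) (hS : Mon f u S 1 1 y) :
    Mon f u (T * S * T⁻¹) 1 1 (fun i => y (σ⁻¹ i)) := by
  have h1 := (h.mul hS).mul h.inv
  have e : ε * 1 * ε = 1 := by rcases h.sgn with rfl | rfl <;> norm_num
  rw [e] at h1
  simp only [mul_one, mul_inv_cancel, Equiv.Perm.coe_one, id] at h1
  convert h1 using 2
  have := (h.pos (σ⁻¹ ‹_›)).ne'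
  field_simp

theorem Mon.div (hS : Mon f u S 1 1 y) (hS' : Mon f u S' 1 1 y') :
    Mon f u (S * S'⁻¹) 1 1 (fun i => (y' i)⁻¹ * y i) := by
  have := hS.mul hS'.inv
  simpa using this

end words

set_option linter.unusedSimpArgs false

variable {f : ℝ × ℝ → ℝ}

theorem perm_a : ∀ σ : Equiv.Perm (Fin 3), σ 2 = 0 →
    (σ 0 = 1 ∧ σ 1 = 2) ∨ (σ 0 = 2 ∧ σ 1 = 1 ∧ σ * σ = 1) := by decide

theorem perm_b : ∀ σ : Equiv.Perm (Fin 3), σ 2 = 1 →
    (σ 1 = 0 ∧ σ 0 = 2) ∨ (σ 1 = 2 ∧ σ 0 = 0 ∧ σ * σ = 1) := by decide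

theorem fin3_third : ∀ i j : Fin 3, i ≠ j → ∃ k, ∀ m, m ≠ k → m = i ∨ m = j := by decide

/-- Combinatorial core: two monomial symmetries of an orthant frame are impossible. -/
theorem octant_core {u : Fin 3 → W} (hspan : ⊤ ≤ Submodule.span ℝ (range u))
    (hline : ∀ i, Line1 f (u i)) (hK : ∀ i, u i ∈ KK f)
    {T1 T2 : W ≃ᵃ[ℝ] W} {σ1 σ2 : Equiv.Perm (Fin 3)} {ε1 ε2 : ℝ} {c1 c2 : ℝ}
    (hc1 : 0 < c1) (hc2 : 0 < c2) (h1 : c1 ≠ 1) (h2 : c2 ≠ 1)
    (m1 : Mon f u T1 σ1 ε1 ![c1⁻¹, c1⁻¹, 1]) (m2 : Mon f u T2 σ2 ε2 ![c2⁻¹, c2⁻¹, 1])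
    (e1 : σ1 2 = 0) (e2 : σ2 2 = 1) : False := by
  -- helper: a diagonal symmetry with entries on both sides of one
  have fin : ∀ {g : W ≃ᵃ[ℝ] W} {z : Fin 3 → ℝ} (_ : Mon f u g 1 1 z) (i j : Fin 3)
      (_ : i ≠ j) (_ : 1 < z i) (_ : z j < 1), False := by
    intro g z hg i j hij hi hj
    exact Mon.no_diag hspan hline hK rfl rfl hg hi hj (fin3_third i j hij)
  have fin2 : ∀ {g : W ≃ᵃ[ℝ] W} {z : Fin 3 → ℝ} (_ : Mon f u g 1 1 z) (i j : Fin 3)
      (_ : i ≠ j) {c : ℝ} (_ : 0 < c) (_ : c ≠ 1) (_ : z i = c⁻¹) (_ : z j = c), False := by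
    intro g z hg i j hij c hc hc1 hi hj
    rcases lt_or_gt_of_ne hc1 with h | h
    · exact fin hg i j hij (by rw [hi]; exact (one_lt_inv₀ hc).2 h) (by rw [hj]; exact h)
    · exact fin hg j i hij.symm (by rw [hj]; exact h)
        (by rw [hi]; exact inv_lt_one_of_one_lt₀ h)
  rcases perm_b σ2 e2 with ⟨b1, b0⟩ | ⟨b1, b0, bb⟩
  · rcases perm_a σ1 e1 with ⟨a0, a1⟩ | ⟨a0, a1, aa⟩
    · -- both 3-cycles
      have hg := (m1.mul m2).mul (m1.inv.mul m2.inv)
      have i10 : Equiv.symm σ1 0 = 2 := by rw [Equiv.symm_apply_eq, e1]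
      have i11 : Equiv.symm σ1 1 = 0 := by rw [Equiv.symm_apply_eq, a0]
      have i12 : Equiv.symm σ1 2 = 1 := by rw [Equiv.symm_apply_eq, a1]
      have i20 : Equiv.symm σ2 0 = 1 := by rw [Equiv.symm_apply_eq, b1]
      have i21 : Equiv.symm σ2 1 = 2 := by rw [Equiv.symm_apply_eq, e2]
      have i22 : Equiv.symm σ2 2 = 0 := by rw [Equiv.symm_apply_eq, b0]
      have es : ε1 * ε2 * (ε1 * ε2) = 1 := by
        rcases m1.sgn with rfl | rfl <;> rcases m2.sgn with rfl | rfl <;> norm_num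
      have ep : σ1 * σ2 * (σ1⁻¹ * σ2⁻¹) = 1 := by
        ext i
        fin_cases i <;> simp [i10, i11, i12, i20, i21, i22, a0, a1, e1, b0, b1, e2]
      rw [es, ep] at hg
      set z : Fin 3 → ℝ := fun i =>
        (fun i => (fun i => (![c2⁻¹, c2⁻¹, 1] (σ2⁻¹ i))⁻¹) i *
          (fun i => (![c1⁻¹, c1⁻¹, 1] (σ1⁻¹ i))⁻¹) (σ2⁻¹ i)) i *
        (fun i => ![c2⁻¹, c2⁻¹, 1] i * ![c1⁻¹, c1⁻¹, 1] (σ2 i)) ((σ1⁻¹ * σ2⁻¹) i) with hz
      have z0 : z 0 = c1 := by
        simp [hz, i10, i11, i12, i20, i21, i22, a0, a1, e1, b0, b1, e2]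
        field_simp
      have z1 : z 1 = c2⁻¹ := by
        simp [hz, i10, i11, i12, i20, i21, i22, a0, a1, e1, b0, b1, e2]
        try field_simp
      have z2 : z 2 = c2 / c1 := by
        simp [hz, i10, i11, i12, i20, i21, i22, a0, a1, e1, b0, b1, e2]
        try field_simp
      have hg' : Mon f u (T1 * T2 * (T1⁻¹ * T2⁻¹)) 1 1 z := hg
      rcases lt_or_gt_of_ne h1 with h | h
      · rcases lt_or_gt_of_ne h2 with h' | h'
        · exact fin hg' 1 0 (by decide) (by rw [z1]; exact (one_lt_inv₀ hc2).2 h')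
            (by rw [z0]; exact h)
        · exact fin hg' 2 0 (by decide) (by rw [z2, lt_div_iff₀ hc1]; linarith)
            (by rw [z0]; exact h)
      · rcases lt_or_gt_of_ne h2 with h' | h'
        · exact fin hg' 0 2 (by decide) (by rw [z0]; exact h)
            (by rw [z2, div_lt_iff₀ hc1]; linarith)
        · exact fin hg' 0 1 (by decide) (by rw [z0]; exact h)
            (by rw [z1]; exact inv_lt_one_of_one_lt₀ h')
    · -- `σ1` is a transposition fixing `1`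
      have hS := m1.sq aa
      have hg := hS.div (m2.conj hS)
      have i21 : Equiv.symm σ2 1 = 2 := by rw [Equiv.symm_apply_eq, e2]
      have i20 : Equiv.symm σ2 0 = 1 := by rw [Equiv.symm_apply_eq, b1]
      refine fin2 hg 1 0 (by decide) hc1 h1 ?_ ?_
      · simp [i21, a1, e1]
        try field_simp
      · simp [i20, a1, a0]
        try field_simp
  · -- `σ2` is a transposition fixing `0`
    have hS := m2.sq bb
    have hg := hS.div (m1.conj hS)
    have i10 : Equiv.symm σ1 0 = 2 := by rw [Equiv.symm_apply_eq, e1]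
    rcases perm_a σ1 e1 with ⟨a0, a1⟩ | ⟨a0, a1, aa⟩
    · have i11 : Equiv.symm σ1 1 = 0 := by rw [Equiv.symm_apply_eq, a0]
      refine fin2 hg 0 1 (by decide) hc2 h2 ?_ ?_
      · simp [i10, b0, e2]
        try field_simp
      · simp [i11, b0, b1]
        try field_simp
    · have i12 : Equiv.symm σ1 2 = 0 := by rw [Equiv.symm_apply_eq, a0]
      refine fin2 hg 0 2 (by decide) hc2 h2 ?_ ?_
      · simp [i10, b0, e2]
        try field_simp
      · simp [i12, b0, e2]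
        try field_simp

/-- `ε R` as a linear equivalence -/
noncomputable def sR (R : W ≃ₗ[ℝ] W) {ε : ℝ} (h0 : ε ≠ 0) : W ≃ₗ[ℝ] W :=
  R.trans (LinearEquiv.smulOfNeZero ℝ W ε h0)

theorem sR_apply (R : W ≃ₗ[ℝ] W) {ε : ℝ} (h0 : ε ≠ 0) (v : W) : sR R h0 v = ε • R v := rfl

theorem sR_iso {R : W ≃ₗ[ℝ] W} (hR : IsoQ R) {ε : ℝ} (h0 : ε ≠ 0) (h : ε * ε = 1) :
    IsoQ (sR R h0) := by
  intro v
  rw [sR_apply, Q_smul, hR, sq, h, one_mul]

theorem partD (hf : Continuous f) {c1 c2 : ℝ} (hc1 : 0 < c1) (hc2 : 0 < c2)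
    (h1 : c1 ≠ 1) (h2 : c2 ≠ 1) (h12 : c1 ≠ c2) {T1 T2 : W ≃ᵃ[ℝ] W} {R1 R2 : W ≃ₗ[ℝ] W}
    (s1 : Sym f c1 T1 R1) (s2 : Sym f c2 T2 R2)
    (hpt : ∀ v, v ∈ KK f → -v ∈ KK f → v = 0) (hup : ∀ v ∈ KK f, 0 ≤ v.2) :
    ∃ k, ∀ x, f x = k := by
  obtain ⟨ε1, hε1, k1⟩ := KK_sign hf s1.mem
  obtain ⟨ε2, hε2, k2⟩ := KK_sign hf s2.mem
  have q1 : ε1 * ε1 = 1 := by rcases hε1 with rfl | rfl <;> norm_num
  have q2 : ε2 * ε2 = 1 := by rcases hε2 with rfl | rfl <;> norm_num
  have n1 : ε1 ≠ 0 := by rintro rfl; simp at q1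
  have n2 : ε2 ≠ 0 := by rintro rfl; simp at q2
  set Φ1 := sR R1 n1 with hΦ1
  set Φ2 := sR R2 n2 with hΦ2
  have i1 : IsoQ Φ1 := sR_iso s1.iso n1 q1
  have i2 : IsoQ Φ2 := sR_iso s2.iso n2 q2
  have kk1 : ∀ v, v ∈ KK f ↔ Φ1 v ∈ KK f :=
    scale_inv hf hup hc1 i1 (fun v => by rw [k1, s1.lin]; rfl)
  have kk2 : ∀ v, v ∈ KK f ↔ Φ2 v ∈ KK f :=
    scale_inv hf hup hc2 i2 (fun v => by rw [k2, s2.lin]; rfl)
  have hM : ∀ v, v ∈ KK f ↔ Msc c1 v ∈ KK f := by
    intro v
    rw [k1, s1.lin, kk1 (Msc c1 v)]; rfl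
  have hch := KK_char hf hc1 h1 hup hM
  have Ee := Ext_e3 hpt hch
  have E1 : Ext (KK f) (Φ1 e3) := Ee.map i1 kk1
  have E2 : Ext (KK f) (Φ2 e3) := Ee.map i2 kk2
  have hMe : ∀ c, Msc c e3 = e3 := by intro c; ext <;> simp [Msc, e3]
  -- dichotomy with respect to `Φ e3`
  have kk1' : ∀ v, v ∈ KK f ↔ Φ1.symm v ∈ KK f := fun v => by
    rw [kk1 (Φ1.symm v), LinearEquiv.apply_symm_apply]
  have kk2' : ∀ v, v ∈ KK f ↔ Φ2.symm v ∈ KK f := fun v => by
    rw [kk2 (Φ2.symm v), LinearEquiv.apply_symm_apply]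
  have d1 : ∀ v, Ext (KK f) v → v = Φ1 e3 ∨ B v (Φ1 e3) = 0 := by
    intro v hv
    rcases Ext_dich hch (hv.map i1.symm kk1') with h | h
    · left; rw [← h, LinearEquiv.apply_symm_apply]
    · right; rw [← i1.B_eq, LinearEquiv.apply_symm_apply] at h; exact h
  have d2 : ∀ v, Ext (KK f) v → v = Φ2 e3 ∨ B v (Φ2 e3) = 0 := by
    intro v hv
    rcases Ext_dich hch (hv.map i2.symm kk2') with h | h
    · left; rw [← h, LinearEquiv.apply_symm_apply]
    · right; rw [← i2.B_eq, LinearEquiv.apply_symm_apply] at h; exact h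
  have hMone : ∀ v, Msc 1 v = v := fun v => by simp [Msc]
  have hfix : ∀ {c : ℝ} {T : W ≃ᵃ[ℝ] W} {R : W ≃ₗ[ℝ] W} (_ : 0 < c) (_ : c ≠ 1)
      (_ : Sym f c T R) {ε : ℝ} (_ : ε * ε = 1) (_ : ε • R e3 = e3), ∃ k, ∀ x, f x = k := by
    intro c T R hc hc1 s ε hε h
    refine VFR hf s.mem s.iso hc one_pos (by simpa using hc1) (fun v => by rw [hMone, s.lin])
      (δ := ε) hε ?_
    rw [← h, smul_smul, hε, one_smul, h]
  rcases Ext_dich hch E1 with a1 | a1
  · exact hfix hc1 h1 s1 q1 a1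
  rcases Ext_dich hch E2 with a2 | a2
  · exact hfix hc2 h2 s2 q2 a2
  rcases d1 _ E2 with a3 | a3
  · -- `Φ2 e3 = Φ1 e3`
    have h3 : R1.symm (R2 e3) = (ε1 * ε2) • e3 := by
      rw [LinearEquiv.symm_apply_eq, map_smul]
      have a3' : ε2 • R2 e3 = ε1 • R1 e3 := a3
      calc R2 e3 = ε2 • (ε2 • R2 e3) := by rw [smul_smul, q2, one_smul]
        _ = (ε1 * ε2) • R1 e3 := by rw [a3', smul_smul, mul_comm]
    refine VFR (T := T1⁻¹ * T2) (R := R2.trans R1.symm) (c := c2) (d := c1⁻¹) hf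
      ((HH f).mul_mem ((HH f).inv_mem s1.mem) s2.mem) ?_ hc2 (by positivity) ?_ ?_
      (δ := ε1 * ε2) ?_ h3
    · intro v
      rw [LinearEquiv.trans_apply, s1.iso.symm, s2.iso]
    · intro h
      apply h12
      field_simp at h
      exact h.symm
    · intro v
      show T1.linear.symm (T2.linear v) = _
      rw [LinearEquiv.symm_apply_eq, s1.lin, Msc_inv hc1.ne', s2.lin, LinearEquiv.trans_apply,
        LinearEquiv.apply_symm_apply]
    · calc ε1 * ε2 * (ε1 * ε2) = (ε1 * ε1) * (ε2 * ε2) := by ring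
        _ = 1 := by rw [q1, q2, one_mul]
  · -- orthonormal frame
    exfalso
    set u : Fin 3 → W := ![Φ1 e3, Φ2 e3, e3] with hu
    have hQu : ∀ i, Q (u i) = 1 := by
      intro i; fin_cases i
      · exact E1.2.1
      · exact E2.2.1
      · exact Q_e3
    have hEu : ∀ i, Ext (KK f) (u i) := by
      intro i; fin_cases i
      · exact E1
      · exact E2
      · exact Ee
    have hBu : ∀ i j, i ≠ j → B (u i) (u j) = 0 := by
      intro i j hij
      fin_cases i <;> fin_cases j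
      · exact absurd rfl hij
      · exact (B_comm _ _).trans a3
      · exact a1
      · exact a3
      · exact absurd rfl hij
      · exact a2
      · exact (B_comm _ _).trans a1
      · exact (B_comm _ _).trans a2
      · exact absurd rfl hij
    have hlin : LinearIndependent ℝ u := by
      rw [Fintype.linearIndependent_iff]
      intro g hg i
      have h3 : B (∑ j, g j • u j) (u i) = g i := by
        have : B (∑ j, g j • u j) (u i) = ∑ j, g j * B (u j) (u i) := by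
          simp only [Fin.sum_univ_three, B_add_left, B_smul_left]
        rw [this, Finset.sum_eq_single i]
        · rw [← Q_eq, hQu, mul_one]
        · intro j _ hj; rw [hBu j i hj, mul_zero]
        · intro h; exact absurd (Finset.mem_univ i) h
      rw [hg, B_comm, B_zero_right] at h3
      exact h3.symm
    have hspan : ⊤ ≤ Submodule.span ℝ (range u) := by
      have := hlin.span_eq_top_of_card_eq_finrank (by simp [Module.finrank_prod])
      rw [this]
    have hcomplete : ∀ v : W, (∀ i, B v (u i) = 0) → v = 0 := by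
      intro v hv
      have : ∀ w ∈ Submodule.span ℝ (range u), B v w = 0 := by
        intro w hw
        induction hw using Submodule.span_induction with
        | mem x hx => obtain ⟨i, rfl⟩ := hx; exact hv i
        | zero => exact B_zero_right v
        | add x y _ _ hx hy => rw [B_add_right, hx, hy, add_zero]
        | smul r x _ hx => rw [B_smul_right, hx, mul_zero]
      have h4 := this v (hspan Submodule.mem_top)
      rw [← Q_eq] at h4
      exact Q_eq_zero.1 h4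
    have hall : ∀ v, Ext (KK f) v → ∃ i, v = u i := by
      intro v hv
      by_contra hcon
      push Not at hcon
      have h5 : v = 0 := by
        apply hcomplete
        intro i
        fin_cases i
        · exact (d1 v hv).resolve_left (hcon 0)
        · exact (d2 v hv).resolve_left (hcon 1)
        · exact (Ext_dich hch hv).resolve_left (hcon 2)
      have := hv.2.1
      rw [h5, Q_zero] at this
      exact zero_ne_one this
    have hinj : Function.Injective u := hlin.injective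
    have hperm : ∀ {Φ : W ≃ₗ[ℝ] W} (_ : IsoQ Φ) (_ : ∀ v, v ∈ KK f ↔ Φ v ∈ KK f),
        ∃ σ : Equiv.Perm (Fin 3), ∀ i, Φ (u i) = u (σ i) := by
      intro Φ hΦ hk
      choose s hs using fun i => hall (Φ (u i)) ((hEu i).map hΦ hk)
      have hsinj : Function.Injective s := by
        intro i j hij
        apply hinj
        apply Φ.injective
        rw [hs, hs, hij]
      exact ⟨Equiv.ofBijective s (Finite.injective_iff_bijective.1 hsinj), hs⟩
    obtain ⟨σ1, hσ1⟩ := hperm i1 kk1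
    obtain ⟨σ2, hσ2⟩ := hperm i2 kk2
    have e1 : σ1 2 = 0 := hinj ((hσ1 2).symm.trans rfl)
    have e2 : σ2 2 = 1 := hinj ((hσ2 2).symm.trans rfl)
    have hhor : ∀ {v : W} (c : ℝ), B v e3 = 0 → Msc c v = c⁻¹ • v := by
      intro v c hv
      rw [B_e3] at hv
      ext <;> simp [Msc, hv]
    have hmon : ∀ {c : ℝ} {T : W ≃ᵃ[ℝ] W} {R : W ≃ₗ[ℝ] W} (_ : 0 < c)
        (_ : Sym f c T R) {ε : ℝ} (_ : ε = 1 ∨ ε = -1) (hε : ε * ε = 1) (n : ε ≠ 0)
        {σ : Equiv.Perm (Fin 3)} (_ : ∀ i, sR R n (u i) = u (σ i)),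
        Mon f u T σ ε ![c⁻¹, c⁻¹, 1] := by
      intro c T R hc s ε hε0 hε n σ hσ
      refine ⟨s.mem, ?_, ?_, hε0⟩
      · intro i
        have h6 : Msc c (u i) = (![c⁻¹, c⁻¹, 1] : Fin 3 → ℝ) i • u i := by
          fin_cases i
          · exact hhor c a1
          · exact hhor c a2
          · show Msc c e3 = (1 : ℝ) • e3
            rw [hMe, one_smul]
        rw [s.lin, h6, map_smul, ← hσ, sR_apply, smul_smul]
        congr 1
        calc (![c⁻¹, c⁻¹, 1] : Fin 3 → ℝ) i = (ε * ε) * (![c⁻¹, c⁻¹, 1] : Fin 3 → ℝ) i := by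
              rw [hε, one_mul]
          _ = _ := by ring
      · intro i
        fin_cases i
        · exact inv_pos.2 hc
        · exact inv_pos.2 hc
        · exact one_pos
    have m1 := hmon hc1 s1 hε1 q1 n1 hσ1
    have m2 := hmon hc2 s2 hε2 q2 n2 hσ2
    have hline : ∀ i, Line1 f (u i) := by
      intro i
      fin_cases i
      · refine (Line1_vert f).transport s1.mem (l := ε1) n1 ?_
        show T1.linear e3 = ε1 • Φ1 e3
        rw [s1.lin, hMe, hΦ1, sR_apply, smul_smul, q1, one_smul]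
      · refine (Line1_vert f).transport s2.mem (l := ε2) n2 ?_
        show T2.linear e3 = ε2 • Φ2 e3
        rw [s2.lin, hMe, hΦ2, sR_apply, smul_smul, q2, one_smul]
      · exact Line1_vert f
    exact octant_core hspan hline (fun i => (hEu i).1) hc1 hc2 h1 h2 m1 m2 e1 e2

end Rigid
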