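import Mathlib
import Pool.Agent.Lib_helper73.Rigid.Growth
import Pool.Agent.Lib_helper73.Rigid.Octant

/-!
# The planar problem obtained by splitting off a line
-/

namespace Rigid

open Set Filter Topology

/-- squared Euclidean norm on the plane -/
def N2 (v : ℝ × ℝ) : ℝ := v.1 ^ 2 + v.2 ^ 2

/-- planar symmetry with metric data -/
structure PSym (h : ℝ → ℝ) (c κ : ℝ) (T : (ℝ × ℝ) ≃ᵃ[ℝ] (ℝ × ℝ)) : Prop where
  mem : T ∈ HH h
  nrm : ∀ v, N2 (T.linear v) = (c⁻¹) ^ 2 * v.1 ^ 2 + κ ^ 2 * v.2 ^ 2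

variable {h : ℝ → ℝ}

theorem PSym.polar {c κ : ℝ} {T : (ℝ × ℝ) ≃ᵃ[ℝ] (ℝ × ℝ)} (s : PSym h c κ T) (v w : ℝ × ℝ) :
    (T.linear v).1 * (T.linear w).1 + (T.linear v).2 * (T.linear w).2 =
      (c⁻¹) ^ 2 * (v.1 * w.1) + κ ^ 2 * (v.2 * w.2) := by
  have h1 := s.nrm (v + w)
  have h2 := s.nrm v
  have h3 := s.nrm w
  rw [map_add] at h1
  simp only [N2, Prod.fst_add, Prod.snd_add] at h1 h2 h3
  linarith

theorem PSym.det {c κ : ℝ} {T : (ℝ × ℝ) ≃ᵃ[ℝ] (ℝ × ℝ)} (s : PSym h c κ T) (v w : ℝ × ℝ) :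
    ((T.linear v).1 * (T.linear w).2 - (T.linear v).2 * (T.linear w).1) ^ 2 =
      (c⁻¹) ^ 2 * κ ^ 2 * (v.1 * w.2 - v.2 * w.1) ^ 2 := by
  have h1 := s.polar v w
  have h2 := s.nrm v
  have h3 := s.nrm w
  simp only [N2] at h2 h3
  have e : ((T.linear v).1 * (T.linear w).2 - (T.linear v).2 * (T.linear w).1) ^ 2 =
      ((T.linear v).1 ^ 2 + (T.linear v).2 ^ 2) * ((T.linear w).1 ^ 2 + (T.linear w).2 ^ 2) -
      ((T.linear v).1 * (T.linear w).1 + (T.linear v).2 * (T.linear w).2) ^ 2 := by ring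
  rw [e, h1, h2, h3]
  ring

theorem ray_bound (hc : Continuous h) {s : ℝ} (hs : s * s = 1) (hne : ∃ z, ((s, z) : ℝ × ℝ) ∈ KK h) :
    ∃ F, ((s, F) : ℝ × ℝ) ∈ KK h ∧ ∀ v ∈ KK h, 0 < s * v.1 → F * (s * v.1) ≤ v.2 := by
  set S : Set ℝ := {z | ((s, z) : ℝ × ℝ) ∈ KK h} with hS
  have hScl : IsClosed S := (KK_closed hc).preimage
    (by fun_prop : Continuous fun z : ℝ => ((s, z) : ℝ × ℝ))
  have hSb : BddBelow S := by
    refine ⟨h s - h 0, fun z hz => ?_⟩
    have := hz 0 1 zero_le_one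
    simp at this
    linarith
  have hmem : sInf S ∈ S := hScl.csInf_mem hne hSb
  refine ⟨sInf S, hmem, fun v hv hpos => ?_⟩
  have h1 := KK_smul hv (r := (s * v.1)⁻¹) (by positivity)
  have h2 : (s * v.1)⁻¹ * v.2 ∈ S := by
    show ((s, (s * v.1)⁻¹ * v.2) : ℝ × ℝ) ∈ KK h
    convert h1 using 1
    ext
    · simp only [Prod.smul_fst, smul_eq_mul]
      have hs0 : s ≠ 0 := by rintro rfl; simp at hs
      have hv0 : v.1 ≠ 0 := by intro h0; rw [h0] at hpos; simp at hpos
      field_simp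
      linarith
    · simp
  have h3 := csInf_le hSb h2
  rw [inv_mul_eq_div, le_div_iff₀ hpos] at h3
  exact h3

theorem planar_struct (hc : Continuous h) (hpt : ∀ v, v ∈ KK h → -v ∈ KK h → v = 0) :
    (∀ v ∈ KK h, v.1 = 0) ∨ ∃ r1 ∈ KK h, ∃ r2 ∈ KK h, r1.1 * r2.2 - r1.2 * r2.1 ≠ 0 ∧
      ∀ v ∈ KK h, ∃ a b : ℝ, 0 ≤ a ∧ 0 ≤ b ∧ v = a • r1 + b • r2 := by
  have hvert : ∀ v ∈ KK h, v.1 = 0 → 0 ≤ v.2 := by
    intro v hv h0
    have : v = ((0 : ℝ), v.2) := by ext <;> simp [h0]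
    rw [this] at hv
    exact KK_vert.1 hv
  have hexp : ∀ (s : ℝ), s * s = 1 → (¬ ∃ z, ((s, z) : ℝ × ℝ) ∈ KK h) →
      ∀ v ∈ KK h, s * v.1 ≤ 0 := by
    intro s hs hne v hv
    by_contra hcon
    push Not at hcon
    apply hne
    refine ⟨(s * v.1)⁻¹ * v.2, ?_⟩
    have h1 := KK_smul hv (r := (s * v.1)⁻¹) (by positivity)
    convert h1 using 1
    ext
    · simp only [Prod.smul_fst, smul_eq_mul]
      have hs0 : s ≠ 0 := by rintro rfl; simp at hs
      have hv0 : v.1 ≠ 0 := by intro h0; rw [h0] at hcon; simp at hcon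
      field_simp
      linarith
    · simp
  by_cases hp : ∃ z, (((1 : ℝ), z) : ℝ × ℝ) ∈ KK h
  · obtain ⟨F, hF, hFb⟩ := ray_bound hc (by norm_num) hp
    by_cases hm : ∃ z, (((-1 : ℝ), z) : ℝ × ℝ) ∈ KK h
    · obtain ⟨G, hG, hGb⟩ := ray_bound hc (by norm_num) hm
      have hsum : 0 ≤ F + G := by
        have := KK_add hF hG
        have e : ((1 : ℝ), F) + ((-1 : ℝ), G) = ((0 : ℝ), F + G) := by ext <;> simp
        rw [e] at this
        exact KK_vert.1 this
      have hne0 : F + G ≠ 0 := by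
        intro h0
        have e : -((1 : ℝ), F) = ((-1 : ℝ), G) := by
          ext
          · simp
          · simp; linarith
        have := hpt _ hF (by rw [e]; exact hG)
        have := congrArg Prod.fst this
        simp at this
      have hpos : 0 < F + G := lt_of_le_of_ne hsum (Ne.symm hne0)
      right
      refine ⟨_, hF, _, hG, ?_, ?_⟩
      · simp; intro h'; apply hne0; linarith
      · intro v hv
        refine ⟨(v.2 + v.1 * G) / (F + G), (v.2 - v.1 * F) / (F + G), ?_, ?_, ?_⟩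
        · apply div_nonneg _ hpos.le
          rcases lt_trichotomy v.1 0 with h1 | h1 | h1
          · have := hGb v hv (by linarith)
            linarith
          · have := hvert v hv h1
            rw [h1]; linarith
          · have := hFb v hv (by linarith)
            nlinarith
        · apply div_nonneg _ hpos.le
          rcases lt_trichotomy v.1 0 with h1 | h1 | h1
          · have := hGb v hv (by linarith)
            nlinarith
          · have := hvert v hv h1
            rw [h1]; linarith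
          · have := hFb v hv (by linarith)
            linarith
        · ext
          · simp; field_simp; ring
          · simp; field_simp; ring
    · right
      refine ⟨_, hF, ((0 : ℝ), (1 : ℝ)), KK_vert.2 zero_le_one, by simp, ?_⟩
      intro v hv
      have h1 := hexp (-1) (by norm_num) hm v hv
      refine ⟨v.1, v.2 - v.1 * F, by linarith, ?_, ?_⟩
      · rcases eq_or_lt_of_le (show 0 ≤ v.1 by linarith) with h2 | h2
        · have := hvert v hv h2.symm
          rw [← h2]; linarith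
        · have := hFb v hv (by linarith)
          linarith
      · ext <;> simp
  · by_cases hm : ∃ z, (((-1 : ℝ), z) : ℝ × ℝ) ∈ KK h
    · obtain ⟨G, hG, hGb⟩ := ray_bound hc (by norm_num) hm
      right
      refine ⟨_, hG, ((0 : ℝ), (1 : ℝ)), KK_vert.2 zero_le_one, by simp, ?_⟩
      intro v hv
      have h1 := hexp 1 (by norm_num) hp v hv
      refine ⟨-v.1, v.2 + v.1 * G, by linarith, ?_, ?_⟩
      · rcases eq_or_lt_of_le (show v.1 ≤ 0 by linarith) with h2 | h2
        · have := hvert v hv h2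
          rw [h2]; linarith
        · have := hGb v hv (by linarith)
          linarith
      · ext <;> simp
    · left
      intro v hv
      have h1 := hexp 1 (by norm_num) hp v hv
      have h2 := hexp (-1) (by norm_num) hm v hv
      linarith

/-- A linear bijection preserving a planar cone permutes its two extreme rays. -/
theorem mono2 {K : Set (ℝ × ℝ)} {r1 r2 : ℝ × ℝ} (h1 : r1 ∈ K) (h2 : r2 ∈ K)
    (hdet : r1.1 * r2.2 - r1.2 * r2.1 ≠ 0)
    (hcone : ∀ v ∈ K, ∃ a b : ℝ, 0 ≤ a ∧ 0 ≤ b ∧ v = a • r1 + b • r2)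
    (L : (ℝ × ℝ) ≃ₗ[ℝ] (ℝ × ℝ)) (hL : ∀ v, v ∈ K ↔ L v ∈ K) :
    (∃ a d : ℝ, 0 < a ∧ 0 < d ∧ L r1 = a • r1 ∧ L r2 = d • r2) ∨
    (∃ b c : ℝ, 0 < b ∧ 0 < c ∧ L r1 = b • r2 ∧ L r2 = c • r1) := by
  have hindep : ∀ a b a' b' : ℝ, a • r1 + b • r2 = a' • r1 + b' • r2 → a = a' ∧ b = b' := by
    intro a b a' b' he
    have e1 := congrArg Prod.fst he
    have e2 := congrArg Prod.snd he
    simp only [Prod.fst_add, Prod.smul_fst, smul_eq_mul, Prod.snd_add, Prod.smul_snd] at e1 e2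
    constructor
    · have : (a - a') * (r1.1 * r2.2 - r1.2 * r2.1) = 0 := by
        linear_combination r2.2 * e1 - r2.1 * e2
      have := (mul_eq_zero.1 this).resolve_right hdet
      linarith
    · have : (b - b') * (r1.1 * r2.2 - r1.2 * r2.1) = 0 := by
        linear_combination r1.1 * e2 - r1.2 * e1
      have := (mul_eq_zero.1 this).resolve_right hdet
      linarith
  have hL' : ∀ v, v ∈ K → L.symm v ∈ K := fun v hv => by
    rw [hL, LinearEquiv.apply_symm_apply]; exact hv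
  obtain ⟨a, b, ha, hb, e1⟩ := hcone _ ((hL r1).1 h1)
  obtain ⟨c, d, hc, hd, e2⟩ := hcone _ ((hL r2).1 h2)
  obtain ⟨a', b', ha', hb', e3⟩ := hcone _ (hL' r1 h1)
  obtain ⟨c', d', hc', hd', e4⟩ := hcone _ (hL' r2 h2)
  have f1 : (a' * a + b' * c) • r1 + (a' * b + b' * d) • r2 = (1 : ℝ) • r1 + (0 : ℝ) • r2 := by
    have : L (L.symm r1) = r1 := LinearEquiv.apply_symm_apply _ _
    rw [e3, map_add, map_smul, map_smul, e1, e2] at this
    rw [one_smul, zero_smul, add_zero, ← this]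
    conv_rhs => rw [← this]
    module
  have f2 : (c' * a + d' * c) • r1 + (c' * b + d' * d) • r2 = (0 : ℝ) • r1 + (1 : ℝ) • r2 := by
    have : L (L.symm r2) = r2 := LinearEquiv.apply_symm_apply _ _
    rw [e4, map_add, map_smul, map_smul, e1, e2] at this
    rw [one_smul, zero_smul, zero_add]
    conv_rhs => rw [← this]
    module
  obtain ⟨g1, g2⟩ := hindep _ _ _ _ f1
  obtain ⟨g3, g4⟩ := hindep _ _ _ _ f2
  have z1 : a' * b = 0 := by nlinarith [mul_nonneg ha' hb, mul_nonneg hb' hd]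
  have z2 : b' * d = 0 := by nlinarith [mul_nonneg ha' hb, mul_nonneg hb' hd]
  have z3 : c' * a = 0 := by nlinarith [mul_nonneg hc' ha, mul_nonneg hd' hc]
  have z4 : d' * c = 0 := by nlinarith [mul_nonneg hc' ha, mul_nonneg hd' hc]
  by_cases hb0 : b = 0
  · left
    have k1 : d' * d = 1 := by rw [hb0] at g4; linarith
    have kd' : d' ≠ 0 := by rintro rfl; simp at k1
    have kd : d ≠ 0 := by rintro rfl; simp at k1
    have kc : c = 0 := (mul_eq_zero.1 z4).resolve_left kd'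
    have k2 : a' * a = 1 := by rw [kc] at g1; linarith
    have ka : a ≠ 0 := by rintro rfl; simp at k2
    refine ⟨a, d, lt_of_le_of_ne ha (Ne.symm ka), lt_of_le_of_ne hd (Ne.symm kd), ?_, ?_⟩
    · rw [e1, hb0, zero_smul, add_zero]
    · rw [e2, kc, zero_smul, zero_add]
  · right
    have ka' : a' = 0 := (mul_eq_zero.1 z1).resolve_right hb0
    have k1 : b' * c = 1 := by rw [ka'] at g1; linarith
    have kb' : b' ≠ 0 := by rintro rfl; simp at k1
    have kc : c ≠ 0 := by rintro rfl; simp at k1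
    have kd : d = 0 := (mul_eq_zero.1 z2).resolve_left kb'
    have k2 : c' * b = 1 := by rw [kd] at g4; linarith
    have kc' : c' ≠ 0 := by rintro rfl; simp at k2
    have ka : a = 0 := (mul_eq_zero.1 z3).resolve_left kc'
    refine ⟨b, c, lt_of_le_of_ne hb (Ne.symm hb0), lt_of_le_of_ne hc (Ne.symm kc), ?_, ?_⟩
    · rw [e1, ka, zero_smul, zero_add]
    · rw [e2, kd, zero_smul, add_zero]

end Rigid
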