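import Mathlib
import Pool.Agent.Lib_helper73.Rigid.Planar

/-!
# The planar problem: conclusion
-/

namespace Rigid

open Set Filter Topology

variable {h : ℝ → ℝ}

/-- From a diagonal affine symmetry to a normalized functional equation. -/
theorem diag_fun {T : (ℝ × ℝ) ≃ᵃ[ℝ] (ℝ × ℝ)} (hT : T ∈ HH h) {α γ : ℝ}
    (h1 : T.linear (1, 0) = (α, 0)) (h2 : T.linear (0, 1) = (0, γ)) (hα : α ≠ 1) :
    ∃ y0, ∀ z, h (y0 + α ^ 2 * z) - h y0 = γ ^ 2 * (h (y0 + z) - h y0) := by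
  set β := (T 0).1 with hβ
  set δ := (T 0).2 with hδ
  have hTf : ∀ y z : ℝ, T (y, z) = (α * y + β, γ * z + δ) := by
    intro y z
    have e : ((y, z) : ℝ × ℝ) = 0 + (y • ((1 : ℝ), (0 : ℝ)) + z • ((0 : ℝ), (1 : ℝ))) := by
      ext <;> simp
    rw [e, aff_apply, map_add, map_smul, map_smul, h1, h2]
    ext
    · simp [hβ]; ring
    · simp [hδ]; ring
  have hfun : ∀ y, h (α * y + β) = γ * h y + δ := by
    intro y
    have h3 : T (y, h y) ∈ Gr h := (hT _).2 rfl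
    rw [hTf, mem_Gr] at h3
    exact h3.symm
  have hα' : 1 - α ≠ 0 := fun h' => hα (by linarith)
  set y0 := β / (1 - α) with hy0
  have hy : α * y0 + β = y0 := by rw [hy0]; field_simp; ring
  have h0 := hfun y0
  rw [hy] at h0
  have h4 : ∀ z, h (y0 + α * z) - h y0 = γ * (h (y0 + z) - h y0) := by
    intro z
    have h5 := hfun (y0 + z)
    have e' : α * (y0 + z) + β = y0 + α * z := by linear_combination hy
    rw [e'] at h5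
    rw [h5]; linear_combination -h0
  refine ⟨y0, fun z => ?_⟩
  have e : α ^ 2 * z = α * (α * z) := by ring
  rw [e, h4, h4]; ring

/-- make the scale larger than one -/
theorem expand {p q y0 : ℝ} (hp : 0 < p) (hp1 : p ≠ 1) (hq : 0 < q)
    (H : ∀ z, h (y0 + p * z) - h y0 = q * (h (y0 + z) - h y0)) :
    ∃ P, 1 < P ∧ ∀ z, h (y0 + P * z) - h y0 = P ^ (Real.log q / Real.log p) *
      (h (y0 + z) - h y0) := by
  have hlog : Real.log p ≠ 0 := by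
    rw [Real.log_ne_zero]
    refine ⟨hp.ne', hp1, ?_⟩
    linarith
  have hpq : p ^ (Real.log q / Real.log p) = q := by
    rw [Real.rpow_def_of_pos hp, mul_div_cancel₀ _ hlog, Real.exp_log hq]
  rcases lt_or_gt_of_ne hp1 with h1 | h1
  · refine ⟨p⁻¹, (one_lt_inv₀ hp).2 h1, fun z => ?_⟩
    rw [Real.inv_rpow hp.le, hpq]
    have := H (p⁻¹ * z)
    rw [← mul_assoc, mul_inv_cancel₀ hp.ne', one_mul] at this
    rw [this]
    field_simp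
  · refine ⟨p, h1, fun z => ?_⟩
    rw [hpq]; exact H z

theorem exponent_bounds {M s b : ℝ} (hM : 0 < M) (hs : 0 < s) (hs1 : s ≠ 1)
    (e : (1 + M) * s ^ b = 1 + M * s) : 0 < b ∧ b < 1 := by
  rcases lt_or_gt_of_ne hs1 with h1 | h1
  · constructor
    · by_contra hcon
      push Not at hcon
      have h2 : 1 ≤ s ^ b := Real.one_le_rpow_of_pos_of_le_one_of_nonpos hs h1.le hcon
      nlinarith
    · by_contra hcon
      push Not at hcon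
      have h2 : s ^ b ≤ s ^ (1 : ℝ) := Real.rpow_le_rpow_of_exponent_ge hs h1.le hcon
      rw [Real.rpow_one] at h2
      nlinarith
  · constructor
    · by_contra hcon
      push Not at hcon
      have h2 : s ^ b ≤ 1 := Real.rpow_le_one_of_one_le_of_nonpos h1.le hcon
      nlinarith
    · by_contra hcon
      push Not at hcon
      have h2 : s ^ (1 : ℝ) ≤ s ^ b := Real.rpow_le_rpow_of_exponent_le h1.le hcon
      rw [Real.rpow_one] at h2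
      nlinarith

theorem exponent_ne {M s1 s2 b : ℝ} (hM : 0 < M) (hs1 : 0 < s1) (hs2 : 0 < s2) (h1 : s1 ≠ 1)
    (h2 : s2 ≠ 1) (h12 : s1 ≠ s2) (e1 : (1 + M) * s1 ^ b = 1 + M * s1)
    (e2 : (1 + M) * s2 ^ b = 1 + M * s2) : False := by
  obtain ⟨hb0, hb1⟩ := exponent_bounds hM hs1 h1 e1
  have e0 : (1 + M) * (1 : ℝ) ^ b = 1 + M * 1 := by rw [Real.one_rpow]; ring
  rcases lt_or_gt_of_ne h1 with a | a <;> rcases lt_or_gt_of_ne h2 with c | c <;>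
    rcases lt_or_gt_of_ne h12 with d | d
  · exact rpow_three hb0 hb1 hs1.le d c e1 e2 e0 hM.le
  · exact rpow_three hb0 hb1 hs2.le d a e2 e1 e0 hM.le
  · exact rpow_three hb0 hb1 hs1.le a c e1 e0 e2 hM.le
  · linarith
  · linarith
  · exact rpow_three hb0 hb1 hs2.le c a e2 e0 e1 hM.le
  · exact rpow_three hb0 hb1 zero_le_one a d e0 e1 e2 hM.le
  · exact rpow_three hb0 hb1 zero_le_one c d e0 e2 e1 hM.le

/-- The relation between the scale and the vertical factor. -/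
theorem kappa_exponent {c κ m : ℝ} (hc : 0 < c) (hc1 : c ≠ 1) (hκ : 0 < κ)
    (hk : κ ^ 2 * (1 + m ^ 2 * c ^ 2) = 1 + m ^ 2) :
    (1 + m ^ 2) * (c ^ 2) ^ (Real.log (κ ^ 2) / Real.log ((c⁻¹) ^ 2)) = 1 + m ^ 2 * c ^ 2 := by
  have hp : 0 < (c⁻¹) ^ 2 := by positivity
  have hlog : Real.log ((c⁻¹) ^ 2) ≠ 0 := by
    rw [Real.log_ne_zero]
    refine ⟨hp.ne', ?_, by linarith⟩
    intro h'
    apply hc1
    have : c⁻¹ = 1 := by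
      have h0 : 0 < c⁻¹ := by positivity
      nlinarith
    exact inv_eq_one.1 this
  set b := Real.log (κ ^ 2) / Real.log ((c⁻¹) ^ 2) with hb
  have h1 : ((c⁻¹) ^ 2) ^ b = κ ^ 2 := by
    rw [Real.rpow_def_of_pos hp, hb, mul_div_cancel₀ _ hlog, Real.exp_log (by positivity)]
  have h2 : (c ^ 2) ^ b = (κ ^ 2)⁻¹ := by
    rw [← h1, ← Real.inv_rpow hp.le]
    congr 1
    field_simp
  rw [h2, ← hk]
  field_simp

theorem planar_diag (hc : Continuous h) {m c1 c2 κ1 κ2 : ℝ} (hc1 : 0 < c1) (hc2 : 0 < c2)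
    (n1 : c1 ≠ 1) (n2 : c2 ≠ 1) (n12 : c1 ≠ c2) (hκ1 : 0 < κ1) (hκ2 : 0 < κ2)
    (k1 : κ1 ^ 2 * (1 + m ^ 2 * c1 ^ 2) = 1 + m ^ 2)
    (k2 : κ2 ^ 2 * (1 + m ^ 2 * c2 ^ 2) = 1 + m ^ 2)
    {T1 T2 : (ℝ × ℝ) ≃ᵃ[ℝ] (ℝ × ℝ)} (hT1 : T1 ∈ HH h) (hT2 : T2 ∈ HH h)
    {α1 γ1 α2 γ2 : ℝ} (a1 : T1.linear (1, 0) = (α1, 0)) (b1 : T1.linear (0, 1) = (0, γ1))
    (a2 : T2.linear (1, 0) = (α2, 0)) (b2 : T2.linear (0, 1) = (0, γ2))
    (ha1 : α1 ^ 2 = (c1⁻¹) ^ 2) (hg1 : γ1 ^ 2 = κ1 ^ 2)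
    (ha2 : α2 ^ 2 = (c2⁻¹) ^ 2) (hg2 : γ2 ^ 2 = κ2 ^ 2) : ∃ k, ∀ y, h y = k := by
  have hne : ∀ c : ℝ, 0 < c → c ≠ 1 → (c⁻¹) ^ 2 ≠ 1 := by
    intro c hc hc1 h'
    apply hc1
    have : c⁻¹ = 1 := by
      have h0 : 0 < c⁻¹ := by positivity
      nlinarith
    exact inv_eq_one.1 this
  have hα : ∀ {α c : ℝ}, 0 < c → c ≠ 1 → α ^ 2 = (c⁻¹) ^ 2 → α ≠ 1 := by
    intro α c hc hc1 he h'
    rw [h'] at he
    exact hne c hc hc1 (by rw [← he]; norm_num)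
  obtain ⟨y1, H1⟩ := diag_fun hT1 a1 b1 (hα hc1 n1 ha1)
  obtain ⟨y2, H2⟩ := diag_fun hT2 a2 b2 (hα hc2 n2 ha2)
  rw [ha1, hg1] at H1
  rw [ha2, hg2] at H2
  obtain ⟨P1, hP1, E1⟩ := expand (by positivity) (hne c1 hc1 n1) (by positivity) H1
  obtain ⟨P2, hP2, E2⟩ := expand (by positivity) (hne c2 hc2 n2) (by positivity) H2
  by_cases hm : m = 0
  · subst hm
    have hk1 : κ1 ^ 2 = 1 := by linarith
    rw [hk1, Real.log_one, zero_div] at E1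
    simp only [Real.rpow_zero, one_mul] at E1
    have := const_of_zero hc hP1 (fun z => by have := E1 z; linarith) (y := y1)
    refine ⟨h y1, fun y => ?_⟩
    have h3 := this (y - y1)
    rwa [add_sub_cancel] at h3
  · have hM : 0 < m ^ 2 := by positivity
    have x1 := kappa_exponent hc1 n1 hκ1 k1
    have x2 := kappa_exponent hc2 n2 hκ2 k2
    set β1 := Real.log (κ1 ^ 2) / Real.log ((c1⁻¹) ^ 2) with hβ1
    set β2 := Real.log (κ2 ^ 2) / Real.log ((c2⁻¹) ^ 2) with hβ2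
    have hs : ∀ c : ℝ, 0 < c → c ≠ 1 → c ^ 2 ≠ 1 := by
      intro c hc hc1 h'
      apply hc1
      nlinarith
    have s1 := hs c1 hc1 n1
    have s2 := hs c2 hc2 n2
    have s12 : c1 ^ 2 ≠ c2 ^ 2 := by
      intro h'
      apply n12
      have : (c1 - c2) * (c1 + c2) = 0 := by linarith
      rcases mul_eq_zero.1 this with h | h
      · linarith
      · linarith
    obtain ⟨B1, -⟩ := exponent_bounds hM (by positivity) s1 x1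
    obtain ⟨B2, -⟩ := exponent_bounds hM (by positivity) s2 x2
    have hββ : β1 ≠ β2 := by
      intro h'
      rw [← h'] at x2
      exact exponent_ne hM (by positivity) (by positivity) s1 s2 s12 x1 x2
    rcases lt_or_gt_of_ne hββ with hlt | hlt
    · have := growth hc hP1 hP2 B1.le hlt E1 E2
      refine ⟨h y2, fun y => ?_⟩
      have h3 := this (y - y2)
      rwa [add_sub_cancel] at h3
    · have := growth hc hP2 hP1 B2.le hlt E2 E1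
      refine ⟨h y1, fun y => ?_⟩
      have h3 := this (y - y1)
      rwa [add_sub_cancel] at h3

/-- `t`-values are distinct. -/
theorem t_ne_one {c κ m : ℝ} (hc : 0 < c) (hc1 : c ≠ 1)
    (hk : κ ^ 2 * (1 + m ^ 2 * c ^ 2) = 1 + m ^ 2) : c ^ 2 * κ ^ 2 ≠ 1 := by
  intro h'
  apply hc1
  have h1 : c ^ 2 * (κ ^ 2 * (1 + m ^ 2 * c ^ 2)) = 1 + m ^ 2 * c ^ 2 := by
    rw [← mul_assoc, h', one_mul]
  rw [hk] at h1
  nlinarith

theorem t_ne {c1 c2 κ1 κ2 m : ℝ} (hc1 : 0 < c1) (hc2 : 0 < c2) (h12 : c1 ≠ c2)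
    (k1 : κ1 ^ 2 * (1 + m ^ 2 * c1 ^ 2) = 1 + m ^ 2)
    (k2 : κ2 ^ 2 * (1 + m ^ 2 * c2 ^ 2) = 1 + m ^ 2) : c1 ^ 2 * κ1 ^ 2 ≠ c2 ^ 2 * κ2 ^ 2 := by
  intro h'
  apply h12
  have h1 : c1 ^ 2 * (κ1 ^ 2 * (1 + m ^ 2 * c1 ^ 2)) * (1 + m ^ 2 * c2 ^ 2) =
      c2 ^ 2 * (κ2 ^ 2 * (1 + m ^ 2 * c2 ^ 2)) * (1 + m ^ 2 * c1 ^ 2) := by
    linear_combination (1 + m ^ 2 * c1 ^ 2) * (1 + m ^ 2 * c2 ^ 2) * h'
  rw [k1, k2] at h1
  have h2 : (1 + m ^ 2) * (c1 ^ 2 - c2 ^ 2) = 0 := by linear_combination h1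
  have h3 : c1 ^ 2 - c2 ^ 2 = 0 := by
    rcases mul_eq_zero.1 h2 with h | h
    · nlinarith [sq_nonneg m]
    · exact h
  have : (c1 - c2) * (c1 + c2) = 0 := by linarith
  rcases mul_eq_zero.1 this with h | h
  · linarith
  · linarith

/-- metric relation for extreme rays -/
theorem ray_relation {c κ : ℝ} {T : (ℝ × ℝ) ≃ᵃ[ℝ] (ℝ × ℝ)} (hc : 0 < c)
    (s : PSym h c κ T) (ht : c ^ 2 * κ ^ 2 ≠ 1) {ε : ℝ} (hε : ε * ε = 1) {r1 r2 : ℝ × ℝ}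
    (hdet : r1.1 * r2.2 - r1.2 * r2.1 ≠ 0)
    (hL : (∃ a d : ℝ, 0 < a ∧ 0 < d ∧ ε • T.linear r1 = a • r1 ∧ ε • T.linear r2 = d • r2) ∨
    (∃ b c : ℝ, 0 < b ∧ 0 < c ∧ ε • T.linear r1 = b • r2 ∧ ε • T.linear r2 = c • r1)) :
    r1.1 ^ 2 * r2.1 ^ 2 = c ^ 2 * κ ^ 2 * (r1.2 ^ 2 * r2.2 ^ 2) := by
  have hinv : ∀ (v w : ℝ × ℝ) (a : ℝ), ε • T.linear v = a • w → T.linear v = (ε * a) • w := by
    intro v w a h'
    rw [mul_smul, ← h', smul_smul, hε, one_smul]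
  have key : ((c⁻¹) ^ 2 * r1.1 ^ 2 + κ ^ 2 * r1.2 ^ 2) * ((c⁻¹) ^ 2 * r2.1 ^ 2 + κ ^ 2 * r2.2 ^ 2) =
      (c⁻¹) ^ 2 * κ ^ 2 * ((r1.1 ^ 2 + r1.2 ^ 2) * (r2.1 ^ 2 + r2.2 ^ 2)) := by
    have hd := s.det r1 r2
    have m1 := s.nrm r1
    have m2 := s.nrm r2
    have hD : (r1.1 * r2.2 - r1.2 * r2.1) ^ 2 ≠ 0 := pow_ne_zero 2 hdet
    rcases hL with ⟨a, d, _, _, e1, e2⟩ | ⟨a, d, _, _, e1, e2⟩
    · rw [hinv _ _ _ e1, hinv _ _ _ e2] at hd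
      rw [hinv _ _ _ e1] at m1
      rw [hinv _ _ _ e2] at m2
      simp only [N2, Prod.smul_fst, Prod.smul_snd, smul_eq_mul] at hd m1 m2
      have h1 : (a ^ 2 * d ^ 2 - (c⁻¹) ^ 2 * κ ^ 2) * (r1.1 * r2.2 - r1.2 * r2.1) ^ 2 = 0 := by
        have e : (ε * a * r1.1 * (ε * d * r2.2) - ε * a * r1.2 * (ε * d * r2.1)) ^ 2 =
          (ε * ε) ^ 2 * (a ^ 2 * d ^ 2) * (r1.1 * r2.2 - r1.2 * r2.1) ^ 2 := by ring
        rw [e, hε] at hd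
        linear_combination hd
      have h2 := (mul_eq_zero.1 h1).resolve_right hD
      have m1' : a ^ 2 * (r1.1 ^ 2 + r1.2 ^ 2) = (c⁻¹) ^ 2 * r1.1 ^ 2 + κ ^ 2 * r1.2 ^ 2 := by
        rw [← m1]; linear_combination -(a ^ 2 * (r1.1 ^ 2 + r1.2 ^ 2)) * hε
      have m2' : d ^ 2 * (r2.1 ^ 2 + r2.2 ^ 2) = (c⁻¹) ^ 2 * r2.1 ^ 2 + κ ^ 2 * r2.2 ^ 2 := by
        rw [← m2]; linear_combination -(d ^ 2 * (r2.1 ^ 2 + r2.2 ^ 2)) * hε
      rw [← m1', ← m2']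
      linear_combination ((r1.1 ^ 2 + r1.2 ^ 2) * (r2.1 ^ 2 + r2.2 ^ 2)) * h2
    · rw [hinv _ _ _ e1, hinv _ _ _ e2] at hd
      rw [hinv _ _ _ e1] at m1
      rw [hinv _ _ _ e2] at m2
      simp only [N2, Prod.smul_fst, Prod.smul_snd, smul_eq_mul] at hd m1 m2
      have h1 : (a ^ 2 * d ^ 2 - (c⁻¹) ^ 2 * κ ^ 2) * (r1.1 * r2.2 - r1.2 * r2.1) ^ 2 = 0 := by
        have e : (ε * a * r2.1 * (ε * d * r1.2) - ε * a * r2.2 * (ε * d * r1.1)) ^ 2 =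
          (ε * ε) ^ 2 * (a ^ 2 * d ^ 2) * (r1.1 * r2.2 - r1.2 * r2.1) ^ 2 := by ring
        rw [e, hε] at hd
        linear_combination hd
      have h2 := (mul_eq_zero.1 h1).resolve_right hD
      have m1' : a ^ 2 * (r2.1 ^ 2 + r2.2 ^ 2) = (c⁻¹) ^ 2 * r1.1 ^ 2 + κ ^ 2 * r1.2 ^ 2 := by
        rw [← m1]; linear_combination -(a ^ 2 * (r2.1 ^ 2 + r2.2 ^ 2)) * hε
      have m2' : d ^ 2 * (r1.1 ^ 2 + r1.2 ^ 2) = (c⁻¹) ^ 2 * r2.1 ^ 2 + κ ^ 2 * r2.2 ^ 2 := by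
        rw [← m2]; linear_combination -(d ^ 2 * (r1.1 ^ 2 + r1.2 ^ 2)) * hε
      rw [← m1', ← m2']
      linear_combination ((r1.1 ^ 2 + r1.2 ^ 2) * (r2.1 ^ 2 + r2.2 ^ 2)) * h2
  have hc0 : c ≠ 0 := hc.ne'
  have key2 : (1 - c ^ 2 * κ ^ 2) * (r1.1 ^ 2 * r2.1 ^ 2 - c ^ 2 * κ ^ 2 * (r1.2 ^ 2 * r2.2 ^ 2))
      = 0 := by
    have hcc : c ^ 2 * (c⁻¹) ^ 2 = 1 := by field_simp
    have e1 : (r1.1 ^ 2 + c ^ 2 * κ ^ 2 * r1.2 ^ 2) * (r2.1 ^ 2 + c ^ 2 * κ ^ 2 * r2.2 ^ 2) =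
        c ^ 2 * κ ^ 2 * ((r1.1 ^ 2 + r1.2 ^ 2) * (r2.1 ^ 2 + r2.2 ^ 2)) := by
      have e2 : (r1.1 ^ 2 + c ^ 2 * κ ^ 2 * r1.2 ^ 2) =
          c ^ 2 * ((c⁻¹) ^ 2 * r1.1 ^ 2 + κ ^ 2 * r1.2 ^ 2) := by
        linear_combination -(r1.1 ^ 2) * hcc
      have e3 : (r2.1 ^ 2 + c ^ 2 * κ ^ 2 * r2.2 ^ 2) =
          c ^ 2 * ((c⁻¹) ^ 2 * r2.1 ^ 2 + κ ^ 2 * r2.2 ^ 2) := by
        linear_combination -(r2.1 ^ 2) * hcc
      rw [e2, e3]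
      linear_combination (c ^ 2 * c ^ 2) * key + (c ^ 2 * κ ^ 2 *
        ((r1.1 ^ 2 + r1.2 ^ 2) * (r2.1 ^ 2 + r2.2 ^ 2))) * hcc
    linear_combination e1
  rcases mul_eq_zero.1 key2 with h' | h'
  · exact absurd (by linarith) ht
  · linarith

end Rigid
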