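import Mathlib
import Pool.Agent.Lib_helper73.Rigid.Planar2

/-!
# The planar problem: main theorem
-/

namespace Rigid

open Set Filter Topology

variable {h : ℝ → ℝ}

theorem fin2_third : ∀ i j : Fin 2, i ≠ j → ∃ k, ∀ m, m ≠ k → m = i ∨ m = j := by decide

set_option linter.unusedSimpArgs false in
/-- Planar combinatorial core: at least one swap is impossible. -/
theorem quadrant_core {u : Fin 2 → ℝ × ℝ} (hspan : ⊤ ≤ Submodule.span ℝ (range u))
    (hline : ∀ i, Line1 h (u i)) (hK : ∀ i, u i ∈ KK h)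
    {T1 T2 : (ℝ × ℝ) ≃ᵃ[ℝ] (ℝ × ℝ)} {σ1 σ2 : Equiv.Perm (Fin 2)} {ε1 ε2 : ℝ} {c1 c2 κ1 κ2 : ℝ}
    (hc1 : 0 < c1) (hc2 : 0 < c2) (hκ1 : 0 < κ1) (hκ2 : 0 < κ2)
    (h1 : c1 * κ1 ≠ 1) (h2 : c2 * κ2 ≠ 1) (h12 : c1 * κ1 ≠ c2 * κ2)
    (m1 : Mon h u T1 σ1 ε1 ![c1⁻¹, κ1]) (m2 : Mon h u T2 σ2 ε2 ![c2⁻¹, κ2])
    (hσ : σ1 ≠ 1 ∨ σ2 ≠ 1) : False := by
  have fin2 : ∀ {g : (ℝ × ℝ) ≃ᵃ[ℝ] (ℝ × ℝ)} {z : Fin 2 → ℝ} (_ : Mon h u g 1 1 z) (i j : Fin 2)
      (_ : i ≠ j) {c : ℝ} (_ : 0 < c) (_ : c ≠ 1) (_ : z i = c⁻¹) (_ : z j = c), False := by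
    intro g z hg i j hij c hc hc1 hi hj
    rcases lt_or_gt_of_ne hc1 with h | h
    · exact Mon.no_diag hspan hline hK rfl rfl hg (i := i) (j := j)
        (by rw [hi]; exact (one_lt_inv₀ hc).2 h) (by rw [hj]; exact h) (fin2_third i j hij)
    · exact Mon.no_diag hspan hline hK rfl rfl hg (i := j) (j := i) (by rw [hj]; exact h)
        (by rw [hi]; exact inv_lt_one_of_one_lt₀ h) (fin2_third j i hij.symm)
  have hperm : ∀ σ : Equiv.Perm (Fin 2), σ = 1 ∨ (σ 0 = 1 ∧ σ 1 = 0) := by decide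
  have es : ε1 * ε2 * (ε1 * ε2) = 1 := by
    rcases m1.sgn with rfl | rfl <;> rcases m2.sgn with rfl | rfl <;> norm_num
  have hg := (m1.mul m2).mul (m1.inv.mul m2.inv)
  have ep : σ1 * σ2 * (σ1⁻¹ * σ2⁻¹) = 1 := by
    have : ∀ a b : Equiv.Perm (Fin 2), a * b * (a⁻¹ * b⁻¹) = 1 := by decide
    exact this _ _
  rw [es, ep] at hg
  rcases hperm σ1 with a | ⟨a0, a1⟩ <;> rcases hperm σ2 with b | ⟨b0, b1⟩
  · rcases hσ with h | h
    · exact h a
    · exact h b
  · subst a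
    have i20 : Equiv.symm σ2 0 = 1 := by rw [Equiv.symm_apply_eq, b1]
    have i21 : Equiv.symm σ2 1 = 0 := by rw [Equiv.symm_apply_eq, b0]
    refine fin2 hg 0 1 (by decide) (c := c1 * κ1) (by positivity) h1 ?_ ?_
    · simp [i20, i21, b0, b1]
      try field_simp
    · simp [i20, i21, b0, b1]
      try field_simp
  · subst b
    have i10 : Equiv.symm σ1 0 = 1 := by rw [Equiv.symm_apply_eq, a1]
    have i11 : Equiv.symm σ1 1 = 0 := by rw [Equiv.symm_apply_eq, a0]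
    refine fin2 hg 1 0 (by decide) (c := c2 * κ2) (by positivity) h2 ?_ ?_
    · simp [i10, i11, a0, a1]
      try field_simp
    · simp [i10, i11, a0, a1]
      try field_simp
  · have i20 : Equiv.symm σ2 0 = 1 := by rw [Equiv.symm_apply_eq, b1]
    have i21 : Equiv.symm σ2 1 = 0 := by rw [Equiv.symm_apply_eq, b0]
    have i10 : Equiv.symm σ1 0 = 1 := by rw [Equiv.symm_apply_eq, a1]
    have i11 : Equiv.symm σ1 1 = 0 := by rw [Equiv.symm_apply_eq, a0]
    refine fin2 hg 1 0 (by decide) (c := (c1 * κ1) / (c2 * κ2)) (by positivity) ?_ ?_ ?_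
    · intro h'
      apply h12
      rw [div_eq_one_iff_eq (by positivity)] at h'
      exact h'
    · simp [i10, i11, i20, i21, a0, a1, b0, b1]
      try field_simp
    · simp [i10, i11, i20, i21, a0, a1, b0, b1]
      try field_simp

theorem planar_main (hc : Continuous h) {m c1 c2 κ1 κ2 : ℝ} (hc1 : 0 < c1) (hc2 : 0 < c2)
    (n1 : c1 ≠ 1) (n2 : c2 ≠ 1) (n12 : c1 ≠ c2) (hκ1 : 0 < κ1) (hκ2 : 0 < κ2)
    (k1 : κ1 ^ 2 * (1 + m ^ 2 * c1 ^ 2) = 1 + m ^ 2)
    (k2 : κ2 ^ 2 * (1 + m ^ 2 * c2 ^ 2) = 1 + m ^ 2)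
    {T1 T2 : (ℝ × ℝ) ≃ᵃ[ℝ] (ℝ × ℝ)} (s1 : PSym h c1 κ1 T1) (s2 : PSym h c2 κ2 T2) :
    ∃ a b, ∀ y, h y = a + b * y := by
  by_cases hpt : ∀ v, v ∈ KK h → -v ∈ KK h → v = 0
  swap
  · push Not at hpt
    obtain ⟨w, hw1, hw2, hw0⟩ := hpt
    have hw : w.1 ≠ 0 := by
      intro h0
      apply hw0
      have e1 : w = ((0 : ℝ), w.2) := by ext <;> simp [h0]
      rw [e1] at hw1
      have e2 : -w = ((0 : ℝ), -w.2) := by ext <;> simp [h0]
      rw [e2] at hw2
      have h1 := KK_vert.1 hw1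
      have h2 := KK_vert.1 hw2
      ext
      · exact h0
      · show w.2 = 0; linarith
    refine ⟨h 0, w.2 / w.1, fun y => ?_⟩
    have := lin_eq hw1 hw2 0 (y / w.1)
    simp only [smul_eq_mul, zero_add, div_mul_cancel₀ _ hw] at this
    rw [this]; ring
  suffices hconst : ∃ k, ∀ y, h y = k by
    obtain ⟨k, hk⟩ := hconst
    exact ⟨k, 0, fun y => by rw [hk]; ring⟩
  obtain ⟨ε1, hε1, K1⟩ := KK_sign hc s1.mem
  obtain ⟨ε2, hε2, K2⟩ := KK_sign hc s2.mem
  have q1 : ε1 * ε1 = 1 := by rcases hε1 with rfl | rfl <;> norm_num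
  have q2 : ε2 * ε2 = 1 := by rcases hε2 with rfl | rfl <;> norm_num
  have g1 : ε1 ≠ 0 := by rintro rfl; simp at q1
  have g2 : ε2 ≠ 0 := by rintro rfl; simp at q2
  have e3K : ((0 : ℝ), (1 : ℝ)) ∈ KK h := KK_vert.2 zero_le_one
  rcases planar_struct hc hpt with hray | ⟨r1, hr1, r2, hr2, hdet, hcone⟩
  · -- ray case
    have key : ∀ {c κ : ℝ} {T : (ℝ × ℝ) ≃ᵃ[ℝ] (ℝ × ℝ)} (_ : 0 < κ) (_ : PSym h c κ T) {ε : ℝ}
        (_ : ε ≠ 0) (_ : ∀ v, v ∈ KK h ↔ ε • T.linear v ∈ KK h),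
        ∃ α γ : ℝ, T.linear (1, 0) = (α, 0) ∧ T.linear (0, 1) = (0, γ) ∧
          α ^ 2 = (c⁻¹) ^ 2 ∧ γ ^ 2 = κ ^ 2 := by
      intro c κ T hκ s ε hε K
      have h1 := hray _ ((K _).1 e3K)
      simp only [Prod.smul_fst, smul_eq_mul] at h1
      have h2 : (T.linear (0, 1)).1 = 0 := (mul_eq_zero.1 h1).resolve_left hε
      have h3 := s.nrm (0, 1)
      simp only [N2, h2] at h3
      have h3' : (T.linear (0, 1)).2 ^ 2 = κ ^ 2 := by
        have := h3; simp at this; exact this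
      have h4 := s.polar (1, 0) (0, 1)
      simp only [h2] at h4
      have h4' : (T.linear (1, 0)).2 * (T.linear (0, 1)).2 = 0 := by
        have := h4; simp at this; simpa using this
      have h5 : (T.linear (0, 1)).2 ≠ 0 := by
        intro h6; rw [h6] at h3'; simp at h3'; exact (pow_pos hκ 2).ne' h3'.symm
      have h6 : (T.linear (1, 0)).2 = 0 := (mul_eq_zero.1 h4').resolve_right h5
      have h7 := s.nrm (1, 0)
      simp only [N2, h6] at h7
      refine ⟨(T.linear (1, 0)).1, (T.linear (0, 1)).2, ?_, ?_, ?_, h3'⟩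
      · ext
        · rfl
        · exact h6
      · ext
        · exact h2
        · rfl
      · simpa using h7
    obtain ⟨α1, γ1, a1, b1, ha1, hg1⟩ := key hκ1 s1 g1 K1
    obtain ⟨α2, γ2, a2, b2, ha2, hg2⟩ := key hκ2 s2 g2 K2
    exact planar_diag hc hc1 hc2 n1 n2 n12 hκ1 hκ2 k1 k2 s1.mem s2.mem a1 b1 a2 b2 ha1 hg1 ha2 hg2
  · -- two extreme rays
    have hL : ∀ {T : (ℝ × ℝ) ≃ᵃ[ℝ] (ℝ × ℝ)} {ε : ℝ} (n : ε ≠ 0)
        (_ : ∀ v, v ∈ KK h ↔ ε • T.linear v ∈ KK h) (v : ℝ × ℝ),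
        v ∈ KK h ↔ (T.linear.trans (LinearEquiv.smulOfNeZero ℝ (ℝ × ℝ) ε n)) v ∈ KK h := by
      intro T ε n K v
      exact K v
    have t1 := t_ne_one hc1 n1 k1
    have t2 := t_ne_one hc2 n2 k2
    have t12 := t_ne hc1 hc2 n12 k1 k2
    have R1 := ray_relation hc1 s1 t1 q1 hdet (mono2 hr1 hr2 hdet hcone _ (hL g1 K1))
    have R2 := ray_relation hc2 s2 t2 q2 hdet (mono2 hr1 hr2 hdet hcone _ (hL g2 K2))
    have z12 : r1.2 ^ 2 * r2.2 ^ 2 = 0 := by
      have : (c1 ^ 2 * κ1 ^ 2 - c2 ^ 2 * κ2 ^ 2) * (r1.2 ^ 2 * r2.2 ^ 2) = 0 := by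
        linear_combination R2 - R1
      rcases mul_eq_zero.1 this with h' | h'
      · exact absurd (by linarith) t12
      · exact h'
    have x12 : r1.1 ^ 2 * r2.1 ^ 2 = 0 := by rw [R1, z12, mul_zero]
    -- produce the standard frame
    obtain ⟨s, hs, hsK, hcone'⟩ : ∃ s : ℝ, s * s = 1 ∧ ((s, 0) : ℝ × ℝ) ∈ KK h ∧
        ∀ v ∈ KK h, ∃ a b : ℝ, 0 ≤ a ∧ 0 ≤ b ∧ v = a • ((s, 0) : ℝ × ℝ) + b • ((0, 1) : ℝ × ℝ) := by
      have aux : ∀ (p q : ℝ × ℝ), p ∈ KK h → q ∈ KK h → p.1 = 0 → q.2 = 0 →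
          p.2 ≠ 0 → q.1 ≠ 0 →
          (∀ v ∈ KK h, ∃ a b : ℝ, 0 ≤ a ∧ 0 ≤ b ∧ v = a • q + b • p) →
          ∃ s : ℝ, s * s = 1 ∧ ((s, 0) : ℝ × ℝ) ∈ KK h ∧
            ∀ v ∈ KK h, ∃ a b : ℝ, 0 ≤ a ∧ 0 ≤ b ∧
              v = a • ((s, 0) : ℝ × ℝ) + b • ((0, 1) : ℝ × ℝ) := by
        intro p q hp hq p1 q2 p2 q1 hcn
        have hq1 : 0 < |q.1| := abs_pos.2 q1
        have hp2 : 0 ≤ p.2 := by
          have : p = ((0 : ℝ), p.2) := by ext <;> simp [p1]
          rw [this] at hp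
          exact KK_vert.1 hp
        refine ⟨q.1 / |q.1|, ?_, ?_, ?_⟩
        · rw [div_mul_div_comm, abs_mul_abs_self]
          exact div_self (mul_ne_zero q1 q1)
        · have := KK_smul hq (r := |q.1|⁻¹) (by positivity)
          convert this using 1
          ext
          · simp [div_eq_inv_mul]
          · simp [q2]
        · intro v hv
          obtain ⟨a, b, ha, hb, e⟩ := hcn v hv
          refine ⟨a * |q.1|, b * p.2, by positivity, by positivity, ?_⟩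
          rw [e]
          ext
          · simp [p1]; field_simp
          · simp [q2]
      rcases mul_eq_zero.1 z12 with hz | hz
      · -- r1.2 = 0
        have hz' : r1.2 = 0 := by simpa using hz
        have hx1 : r1.1 ≠ 0 := by
          intro h'; apply hdet; rw [h', hz']; ring
        have hx2 : r2.1 = 0 := by
          rcases mul_eq_zero.1 x12 with h' | h'
          · exact absurd (by simpa using h') hx1
          · simpa using h'
        have hz2 : r2.2 ≠ 0 := by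
          intro h'; apply hdet; rw [h', hx2]; ring
        exact aux r2 r1 hr2 hr1 hx2 hz' hz2 hx1 hcone
      · have hz' : r2.2 = 0 := by simpa using hz
        have hx2 : r2.1 ≠ 0 := by
          intro h'; apply hdet; rw [h', hz']; ring
        have hx1 : r1.1 = 0 := by
          rcases mul_eq_zero.1 x12 with h' | h'
          · simpa using h'
          · exact absurd (by simpa using h') hx2
        have hz1 : r1.2 ≠ 0 := by
          intro h'; apply hdet; rw [h', hx1]; ring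
        refine aux r1 r2 hr1 hr2 hx1 hz' hz1 hx2 (fun v hv => ?_)
        obtain ⟨a, b, ha, hb, e⟩ := hcone v hv
        exact ⟨b, a, hb, ha, by rw [e, add_comm]⟩
    have hs0 : s ≠ 0 := by rintro rfl; simp at hs
    set u : Fin 2 → ℝ × ℝ := ![(s, 0), (0, 1)] with hu
    have hdet' : ((s, 0) : ℝ × ℝ).1 * ((0, 1) : ℝ × ℝ).2 - ((s, 0) : ℝ × ℝ).2 *
        ((0, 1) : ℝ × ℝ).1 ≠ 0 := by simpa using hs0
    -- classification of a symmetry
    have hclass : ∀ {c κ : ℝ} {T : (ℝ × ℝ) ≃ᵃ[ℝ] (ℝ × ℝ)} (_ : 0 < c) (_ : 0 < κ)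
        (_ : PSym h c κ T) {ε : ℝ} (_ : ε = 1 ∨ ε = -1) (_ : ε * ε = 1) (n : ε ≠ 0)
        (_ : ∀ v, v ∈ KK h ↔ ε • T.linear v ∈ KK h),
        Mon h u T 1 ε ![c⁻¹, κ] ∨ Mon h u T (Equiv.swap 0 1) ε ![c⁻¹, κ] := by
      intro c κ T hc hκ sy ε hε0 hε n K
      have hinv : ∀ (v w : ℝ × ℝ) (a : ℝ), ε • T.linear v = a • w → T.linear v = (ε * a) • w := by
        intro v w a h'
        rw [mul_smul, ← h', smul_smul, hε, one_smul]
      have hpos : ∀ i, 0 < (![c⁻¹, κ] : Fin 2 → ℝ) i := by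
        intro i; fin_cases i
        · exact inv_pos.2 hc
        · exact hκ
      have hsq : ∀ {a b : ℝ}, 0 < a → 0 < b → a ^ 2 = b ^ 2 → a = b := by
        intro a b ha hb h'
        nlinarith
      rcases mono2 hsK e3K hdet' hcone' _ (hL n K) with ⟨a, d, ha, hd, e1, e2⟩ | ⟨a, d, ha, hd, e1, e2⟩
      · have f1 := hinv _ _ _ e1
        have f2 := hinv _ _ _ e2
        have m1 := sy.nrm (s, 0)
        have m2 := sy.nrm (0, 1)
        rw [f1] at m1
        rw [f2] at m2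
        simp only [N2, Prod.smul_fst, Prod.smul_snd, smul_eq_mul, mul_zero, mul_one] at m1 m2
        have va : a = c⁻¹ := by
          apply hsq ha (inv_pos.2 hc)
          have : (ε * ε) * (s * s) * a ^ 2 = (s * s) * (c⁻¹) ^ 2 := by linear_combination m1
          rw [hε, hs] at this
          linarith
        have vd : d = κ := by
          apply hsq hd hκ
          have : (ε * ε) * d ^ 2 = κ ^ 2 := by linear_combination m2
          rw [hε] at this
          linarith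
        left
        refine ⟨sy.mem, ?_, hpos, hε0⟩
        intro i; fin_cases i
        · show T.linear (s, 0) = (ε * c⁻¹) • (s, 0)
          rw [f1, va]
        · show T.linear (0, 1) = (ε * κ) • (0, 1)
          rw [f2, vd]
      · have f1 := hinv _ _ _ e1
        have f2 := hinv _ _ _ e2
        have m1 := sy.nrm (s, 0)
        have m2 := sy.nrm (0, 1)
        rw [f1] at m1
        rw [f2] at m2
        simp only [N2, Prod.smul_fst, Prod.smul_snd, smul_eq_mul, mul_zero, mul_one] at m1 m2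
        have va : a = c⁻¹ := by
          apply hsq ha (inv_pos.2 hc)
          have : (ε * ε) * a ^ 2 = (s * s) * (c⁻¹) ^ 2 := by linear_combination m1
          rw [hε, hs] at this
          linarith
        have vd : d = κ := by
          apply hsq hd hκ
          have : (ε * ε) * (s * s) * d ^ 2 = κ ^ 2 := by linear_combination m2
          rw [hε, hs] at this
          linarith
        right
        refine ⟨sy.mem, ?_, hpos, hε0⟩
        intro i; fin_cases i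
        · show T.linear (s, 0) = (ε * c⁻¹) • (0, 1)
          rw [f1, va]
        · show T.linear (0, 1) = (ε * κ) • (s, 0)
          rw [f2, vd]
    have hspan : ⊤ ≤ Submodule.span ℝ (range u) := by
      intro v _
      have e : v = (v.1 * s) • u 0 + v.2 • u 1 := by
        ext
        · simp [u]; rw [mul_assoc, hs, mul_one]
        · simp [u]
      rw [e]
      apply Submodule.add_mem
      · exact Submodule.smul_mem _ _ (Submodule.subset_span ⟨0, rfl⟩)
      · exact Submodule.smul_mem _ _ (Submodule.subset_span ⟨1, rfl⟩)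
    have hKu : ∀ i, u i ∈ KK h := by
      intro i; fin_cases i
      · exact hsK
      · exact e3K
    have hck : ∀ {c κ : ℝ}, 0 < c → 0 < κ → c ^ 2 * κ ^ 2 ≠ 1 → c * κ ≠ 1 := by
      intro c κ _ _ h1 h2
      apply h1
      rw [← mul_pow, h2, one_pow]
    have hck12 : c1 * κ1 ≠ c2 * κ2 := by
      intro h'
      apply t12
      rw [← mul_pow, ← mul_pow, h']
    have hlineOf : ∀ {c κ : ℝ} {T : (ℝ × ℝ) ≃ᵃ[ℝ] (ℝ × ℝ)} {ε : ℝ} (_ : 0 < κ) (_ : ε ≠ 0)
        (_ : Mon h u T (Equiv.swap 0 1) ε ![c⁻¹, κ]), ∀ i, Line1 h (u i) := by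
      intro c κ T ε hκ n hm i
      fin_cases i
      · refine (Line1_vert h).transport hm.mem (l := ε * κ) (mul_ne_zero n hκ.ne') ?_
        have := hm.lin 1
        exact this
      · exact Line1_vert h
    have hdiag : ∀ {c κ : ℝ} {T : (ℝ × ℝ) ≃ᵃ[ℝ] (ℝ × ℝ)} {ε : ℝ} (_ : ε * ε = 1)
        (_ : Mon h u T 1 ε ![c⁻¹, κ]), T.linear (1, 0) = (ε * c⁻¹, 0) ∧
          T.linear (0, 1) = (0, ε * κ) := by
      intro c κ T ε hε hm
      have l0 : T.linear (s, 0) = (ε * c⁻¹) • ((s, 0) : ℝ × ℝ) := hm.lin 0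
      have l1 : T.linear (0, 1) = (ε * κ) • ((0, 1) : ℝ × ℝ) := hm.lin 1
      constructor
      · have e : ((1, 0) : ℝ × ℝ) = s • ((s, 0) : ℝ × ℝ) := by
          ext <;> simp [hs]
        rw [e, map_smul, l0, smul_smul]
        ext
        · simp
          calc s * (ε * c⁻¹) * s = (s * s) * (ε * c⁻¹) := by ring
            _ = ε * c⁻¹ := by rw [hs, one_mul]
        · simp
      · rw [l1]; ext <;> simp
    rcases hclass hc1 hκ1 s1 hε1 q1 g1 K1 with M1 | M1 <;>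
      rcases hclass hc2 hκ2 s2 hε2 q2 g2 K2 with M2 | M2
    · obtain ⟨a1, b1⟩ := hdiag q1 M1
      obtain ⟨a2, b2⟩ := hdiag q2 M2
      refine planar_diag hc hc1 hc2 n1 n2 n12 hκ1 hκ2 k1 k2 s1.mem s2.mem a1 b1 a2 b2
        ?_ ?_ ?_ ?_
      · rw [mul_pow, sq ε1, q1, one_mul]
      · rw [mul_pow, sq ε1, q1, one_mul]
      · rw [mul_pow, sq ε2, q2, one_mul]
      · rw [mul_pow, sq ε2, q2, one_mul]
    · exact (quadrant_core hspan (hlineOf hκ2 g2 M2) hKu hc1 hc2 hκ1 hκ2 (hck hc1 hκ1 t1)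
        (hck hc2 hκ2 t2) hck12 M1 M2 (Or.inr (by decide))).elim
    · exact (quadrant_core hspan (hlineOf hκ1 g1 M1) hKu hc1 hc2 hκ1 hκ2 (hck hc1 hκ1 t1)
        (hck hc2 hκ2 t2) hck12 M1 M2 (Or.inl (by decide))).elim
    · exact (quadrant_core hspan (hlineOf hκ1 g1 M1) hKu hc1 hc2 hκ1 hκ2 (hck hc1 hκ1 t1)
        (hck hc2 hκ2 t2) hck12 M1 M2 (Or.inl (by decide))).elim

end Rigid
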