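import Mathlib
import Pool.Agent.Lib_helper73.Rigid.Quad
import Pool.Agent.Lib_helper73.Rigid.Kernel
import Pool.Agent.Lib_helper73.Rigid.Gauss

/-!
# Dual cones and the Gaussian volume contradiction
-/

namespace Rigid

open MeasureTheory Set Filter Topology

/-- dual cone -/
def CC (K : Set W) : Set W := {ν | ∀ v ∈ K, 0 ≤ B ν v}

/-- section of the dual cone at height one -/
def PP (K : Set W) : Set (ℝ × ℝ) := {p | ((p, (1 : ℝ)) : W) ∈ CC K}

theorem CC_closed (K : Set W) : IsClosed (CC K) := by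
  have : CC K = ⋂ v ∈ K, {ν : W | 0 ≤ B ν v} := by
    ext ν; simp [CC]
  rw [this]
  exact isClosed_biInter fun v _ => isClosed_le continuous_const (B_cont_left v)

theorem CC_add {K : Set W} {a b : W} (ha : a ∈ CC K) (hb : b ∈ CC K) : a + b ∈ CC K := by
  intro v hv
  rw [B_add_left]
  have := ha v hv
  have := hb v hv
  linarith

theorem CC_smul {K : Set W} {a : W} (ha : a ∈ CC K) {r : ℝ} (hr : 0 ≤ r) : r • a ∈ CC K := by
  intro v hv
  rw [B_smul_left]
  have := ha v hv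
  positivity

theorem CC_zero (K : Set W) : (0 : W) ∈ CC K := by
  intro v _
  rw [B_comm, B_zero_right]

theorem CC_convex (K : Set W) : Convex ℝ (CC K) := by
  intro a ha b hb r s hr hs _
  exact CC_add (CC_smul ha hr) (CC_smul hb hs)

theorem PP_closed (K : Set W) : IsClosed (PP K) :=
  (CC_closed K).preimage (by fun_prop : Continuous fun p : ℝ × ℝ => ((p, (1 : ℝ)) : W))

theorem PP_convex (K : Set W) : Convex ℝ (PP K) := by
  intro a ha b hb r s hr hs hrs
  have := CC_convex K ha hb hr hs hrs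
  have e : ((r • a + s • b, (1 : ℝ)) : W) = r • ((a, 1) : W) + s • ((b, 1) : W) := by
    ext <;> simp [hrs]
  show ((r • a + s • b, (1 : ℝ)) : W) ∈ CC K
  rw [e]; exact this

/-- representing vector of a functional -/
def rep (g : W →ₗ[ℝ] ℝ) : W := ((g ((1, 0), 0), g ((0, 1), 0)), g ((0, 0), 1))

theorem rep_eq (g : W →ₗ[ℝ] ℝ) (ν : W) : g ν = B ν (rep g) := by
  have e : ν = ν.1.1 • (((1, 0), 0) : W) + ν.1.2 • (((0, 1), 0) : W) +
      ν.2 • (((0, 0), 1) : W) := by
    ext <;> simp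
  conv_lhs => rw [e]
  rw [map_add, map_add, map_smul, map_smul, map_smul]
  simp [B, rep]

/-- closed convex cones -/
structure IsCone (K : Set W) : Prop where
  closed : IsClosed K
  zero : (0 : W) ∈ K
  add : ∀ v ∈ K, ∀ w ∈ K, v + w ∈ K
  smul : ∀ v ∈ K, ∀ r : ℝ, 0 ≤ r → r • v ∈ K

theorem IsCone.sep {K : Set W} (hK : IsCone K) {w : W} (hw : w ∉ K) :
    ∃ ν ∈ CC K, B ν w < 0 := by
  have hconv : Convex ℝ K := by
    intro a ha b hb r s hr hs _
    exact hK.add _ (hK.smul a ha r hr) _ (hK.smul b hb s hs)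
  obtain ⟨g, u, hgw, hg⟩ := geometric_hahn_banach_point_closed hconv hK.closed hw
  have hu : u < 0 := by simpa using hg 0 hK.zero
  refine ⟨rep g, ?_, ?_⟩
  · intro v hv
    rw [B_comm, ← rep_eq]
    by_contra hcon
    push Not at hcon
    have hcon' : g v < 0 := hcon
    have hr : 0 ≤ u / g v := (div_pos_of_neg_of_neg hu hcon').le
    have h1 := hg _ (hK.smul v hv _ hr)
    rw [map_smul, smul_eq_mul, div_mul_cancel₀ _ hcon'.ne] at h1
    exact lt_irrefl _ h1
  · rw [B_comm, ← rep_eq]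
    exact hgw.trans hu

theorem IsCone.interior_CC {K : Set W} (hK : IsCone K)
    (hpt : ∀ v, v ∈ K → -v ∈ K → v = 0) : (interior (CC K)).Nonempty := by
  rw [(CC_convex K).interior_nonempty_iff_affineSpan_eq_top,
    AffineSubspace.affineSpan_eq_top_iff_vectorSpan_eq_top_of_nonempty ℝ W W ⟨0, CC_zero K⟩,
    vectorSpan_eq_span_vsub_set_right ℝ (CC_zero K)]
  by_contra hcon
  obtain ⟨g, hg0, hg⟩ := Submodule.exists_le_ker_of_lt_top _ (lt_top_iff_ne_top.2 hcon)
  have hker : ∀ ν ∈ CC K, B ν (rep g) = 0 := by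
    intro ν hν
    rw [← rep_eq]
    apply hg
    apply Submodule.subset_span
    exact ⟨ν, hν, by simp⟩
  have h1 : rep g ∈ K := by
    by_contra h
    obtain ⟨ν, hν, hlt⟩ := hK.sep h
    rw [hker ν hν] at hlt
    exact lt_irrefl _ hlt
  have h2 : - rep g ∈ K := by
    by_contra h
    obtain ⟨ν, hν, hlt⟩ := hK.sep h
    rw [B_neg_right, hker ν hν, neg_zero] at hlt
    exact lt_irrefl _ hlt
  have h3 := hpt _ h1 h2
  apply hg0
  ext <;> simp [rep_eq, h3, B_zero_right]

theorem CC_pos {K : Set W} (he : ((0, 1) : W) ∈ K) {ν : W} (hν : ν ∈ CC K) : 0 ≤ ν.2 := by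
  have := hν _ he
  simpa [B] using this

theorem interior_PP {K : Set W} (he : ((0, 1) : W) ∈ K) (h : (interior (CC K)).Nonempty) :
    (interior (PP K)).Nonempty := by
  obtain ⟨ν, hν⟩ := h
  have hz : 0 < ν.2 := by
    have hc : Continuous (fun t : ℝ => ν - t • ((0, 1) : W)) := by fun_prop
    have hmem : (fun t : ℝ => ν - t • ((0, 1) : W)) ⁻¹' (interior (CC K)) ∈ 𝓝 (0 : ℝ) := by
      apply (isOpen_interior.preimage hc).mem_nhds
      show ν - (0 : ℝ) • ((0, 1) : W) ∈ interior (CC K)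
      rw [zero_smul, sub_zero]
      exact hν
    obtain ⟨ε, hε, hball⟩ := Metric.mem_nhds_iff.1 hmem
    have h1 : ν - (ε / 2) • ((0, 1) : W) ∈ CC K := by
      apply interior_subset
      have hmem2 : ε / 2 ∈ Metric.ball (0 : ℝ) ε := by
        rw [Metric.mem_ball, Real.dist_eq, sub_zero, abs_of_pos (by positivity)]
        linarith
      exact hball hmem2
    have h2 := CC_pos he h1
    simp only [Prod.snd_sub, Prod.smul_snd, smul_eq_mul, mul_one] at h2
    linarith
  set U : Set (ℝ × ℝ) := {p | ((ν.2 • p, ν.2) : W) ∈ interior (CC K)} with hU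
  have hUo : IsOpen U := isOpen_interior.preimage
    (by fun_prop : Continuous fun p : ℝ × ℝ => ((ν.2 • p, ν.2) : W))
  have hUP : U ⊆ PP K := by
    intro p hp
    have h1 : ((ν.2 • p, ν.2) : W) ∈ CC K := interior_subset hp
    have h2 := CC_smul h1 (r := ν.2⁻¹) (by positivity)
    have e : ν.2⁻¹ • ((ν.2 • p, ν.2) : W) = (p, 1) := by
      ext <;> simp [hz.ne']
    rw [e] at h2
    exact h2
  refine ⟨ν.2⁻¹ • ν.1, interior_maximal hUP hUo ?_⟩
  show ((ν.2 • (ν.2⁻¹ • ν.1), ν.2) : W) ∈ interior (CC K)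
  rw [smul_smul, mul_inv_cancel₀ hz.ne', one_smul]
  exact hν

theorem PP_far {K : Set W} {v : W} (hv : v ∈ K) (hv2 : v.2 < 0) :
    ∃ d > 0, ∀ p ∈ PP K, d ≤ p.1 ^ 2 + p.2 ^ 2 := by
  refine ⟨v.2 ^ 2 / (v.1.1 ^ 2 + v.1.2 ^ 2 + 1), by
    have : 0 < v.2 ^ 2 := by nlinarith
    positivity, fun p hp => ?_⟩
  rw [div_le_iff₀ (by positivity)]
  have h1 : 0 ≤ B ((p, 1) : W) v := hp v hv
  simp only [B, one_mul] at h1
  have h2 : - v.2 ≤ p.1 * v.1.1 + p.2 * v.1.2 := by linarith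
  have h3 : v.2 ^ 2 ≤ (p.1 * v.1.1 + p.2 * v.1.2) ^ 2 := by
    nlinarith
  have h4 : (p.1 * v.1.1 + p.2 * v.1.2) ^ 2 ≤ (p.1 ^ 2 + p.2 ^ 2) * (v.1.1 ^ 2 + v.1.2 ^ 2) := by
    nlinarith [sq_nonneg (p.1 * v.1.2 - p.2 * v.1.1)]
  nlinarith [sq_nonneg p.1, sq_nonneg p.2]

/-- Gaussian weight on `W`. -/
noncomputable def gW (ν : W) : ℝ := gw ν.1 * Real.exp (-ν.2 ^ 2)

theorem gW_eq (ν : W) : gW ν = Real.exp (- Q ν) := by
  unfold gW gw Q
  rw [← Real.exp_add, ← Real.exp_add]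
  congr 1; ring

theorem gW_integrable : Integrable gW := by
  unfold gW
  exact gw_integrable.mul_prod gauss_int

theorem gW_pos (ν : W) : 0 < gW ν := by rw [gW_eq]; positivity

/-- Gaussian volume of the rescaled dual cone -/
noncomputable def Vol (K : Set W) (c : ℝ) : ℝ :=
  ∫ ν : W, Set.indicator {ν | Msc c ν ∈ CC K} gW ν

theorem Msc_cont (c : ℝ) : Continuous (Msc c) := by unfold Msc; fun_prop

theorem indW_integrable {S : Set W} (hS : IsClosed S) : Integrable (Set.indicator S gW) :=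
  gW_integrable.indicator hS.measurableSet

theorem Vol_eq {K : Set W} (he : ((0, 1) : W) ∈ K) {c : ℝ} (hc : 0 < c) :
    Vol K c = ∫ z in Ioi (0:ℝ), Real.exp (-z ^ 2) * GP (PP K) (c * z) := by
  unfold Vol
  have hint : Integrable (Set.indicator {ν | Msc c ν ∈ CC K} gW)
      ((volume : Measure (ℝ × ℝ)).prod (volume : Measure ℝ)) := by
    have := indW_integrable ((CC_closed K).preimage (Msc_cont c))
    exact this
  have h1 : (∫ ν : W, Set.indicator {ν | Msc c ν ∈ CC K} gW ν) =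
      ∫ z : ℝ, ∫ p : ℝ × ℝ, Set.indicator {ν | Msc c ν ∈ CC K} gW (p, z) :=
    integral_prod_symm _ hint
  rw [h1, ← setIntegral_eq_integral_of_ae_compl_eq_zero (s := Ioi (0 : ℝ))]
  · apply setIntegral_congr_fun measurableSet_Ioi
    intro z hz
    have hz : 0 < z := hz
    simp only
    unfold GP
    rw [← integral_const_mul]
    apply integral_congr_ae
    refine ae_of_all _ fun p => ?_
    simp only
    have hiff : Msc c (p, z) ∈ CC K ↔ (c * z)⁻¹ • p ∈ PP K := by
      have e1 : Msc c (p, z) = z • (((c * z)⁻¹ • p, 1) : W) := by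
        ext
        · simp [Msc]; field_simp
        · simp [Msc]; field_simp
        · simp [Msc]
      have e2 : (((c * z)⁻¹ • p, 1) : W) = z⁻¹ • Msc c (p, z) := by
        rw [e1, smul_smul, inv_mul_cancel₀ hz.ne', one_smul]
      constructor
      · intro h
        show (((c * z)⁻¹ • p, 1) : W) ∈ CC K
        rw [e2]
        exact CC_smul h (by positivity)
      · intro h
        rw [e1]
        exact CC_smul h hz.le
    by_cases h : (c * z)⁻¹ • p ∈ PP K
    · unfold hP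
      rw [indicator_of_mem (by exact hiff.2 h), indicator_of_mem (by exact h)]
      unfold gW
      ring
    · unfold hP
      rw [indicator_of_notMem (by exact fun h' => h (hiff.1 h')),
        indicator_of_notMem (by exact h), mul_zero]
  · have h0 : ∀ᵐ z : ℝ, z ≠ 0 := by
      have : volume ({0} : Set ℝ) = 0 := by simp
      exact compl_mem_ae_iff.2 this
    filter_upwards [h0] with z hz0 hz
    have hz' : z < 0 := lt_of_le_of_ne (not_lt.1 hz) hz0
    have : ∀ p : ℝ × ℝ, Set.indicator {ν | Msc c ν ∈ CC K} gW (p, z) = 0 := by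
      intro p
      apply indicator_of_notMem
      intro h
      have := CC_pos he (show Msc c (p, z) ∈ CC K from h)
      simp [Msc] at this
      linarith
    simp [this]

theorem Vol_inv {K : Set W} {c : ℝ} {R : W ≃ₗ[ℝ] W} (hR : IsoQ R) {ε : ℝ}
    (hε : ε = 1 ∨ ε = -1) (h : ∀ v, v ∈ K ↔ ε • R (Msc c v) ∈ K) (hc : c ≠ 0) :
    Vol K c = ∫ ν : W, Set.indicator (CC K) gW ν := by
  have hε2 : ε * ε = 1 := by rcases hε with rfl | rfl <;> norm_num
  have hε0 : ε ≠ 0 := by rcases hε with rfl | rfl <;> norm_num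
  set Φ : W ≃ₗ[ℝ] W := R.trans (LinearEquiv.smulOfNeZero ℝ W ε hε0) with hΦ
  have hΦv : ∀ v, Φ v = ε • R v := fun v => rfl
  have hΦiso : IsoQ Φ := by
    intro v
    rw [hΦv, Q_smul, hR, sq, hε2, one_mul]
  have hiff : ∀ ν, Msc c ν ∈ CC K ↔ Φ ν ∈ CC K := by
    intro ν
    constructor
    · intro hν w hw
      obtain ⟨v, rfl⟩ : ∃ v, w = ε • R (Msc c v) := by
        refine ⟨Msc c⁻¹ (R.symm (ε • w)), ?_⟩
        rw [Msc_inv hc, LinearEquiv.apply_symm_apply, smul_smul, hε2, one_smul]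
      have hv : v ∈ K := (h v).2 hw
      rw [← hΦv, hΦiso.B_eq, ← B_Msc]
      exact hν v hv
    · intro hν v hv
      rw [B_Msc, ← hΦiso.B_eq, hΦv (Msc c v)]
      exact hν _ ((h v).1 hv)
  unfold Vol
  have hmp := hΦiso.measurePreserving
  have hemb : MeasurableEmbedding (Φ : W → W) :=
    (Φ.toContinuousLinearEquiv.toHomeomorph).measurableEmbedding
  rw [← hmp.integral_comp hemb (Set.indicator (CC K) gW)]
  apply integral_congr_ae
  refine ae_of_all _ fun ν => ?_
  by_cases h1 : Φ ν ∈ CC K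
  · simp only
    rw [indicator_of_mem (by exact (hiff ν).2 h1), indicator_of_mem h1, gW_eq, gW_eq, hΦiso]
  · simp only
    rw [indicator_of_notMem (by exact fun h' => h1 ((hiff ν).1 h')), indicator_of_notMem h1]

theorem Vol_one (K : Set W) : Vol K 1 = ∫ ν : W, Set.indicator (CC K) gW ν := by
  unfold Vol
  have : ∀ ν, Msc 1 ν = ν := fun ν => by simp [Msc]
  simp only [this]
  rfl

theorem KK_isCone {f : ℝ × ℝ → ℝ} (hf : Continuous f) : IsCone (KK f) where
  closed := KK_closed hf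
  zero := KK_zero f
  add := fun _ hv _ hw => KK_add hv hw
  smul := fun _ hv _ hr => KK_smul hv hr

/-- Part C: if the cone is pointed, it lies in the upper half space. -/
theorem partC {f : ℝ × ℝ → ℝ} (hf : Continuous f) {c1 c2 : ℝ} (h1 : 0 < c1) (h2 : 0 < c2)
    (hc1 : c1 ≠ 1) (hc2 : c2 ≠ 1) (h12 : c1 ≠ c2) {T1 T2 : W ≃ᵃ[ℝ] W} {R1 R2 : W ≃ₗ[ℝ] W}
    (s1 : Sym f c1 T1 R1) (s2 : Sym f c2 T2 R2)
    (hpt : ∀ v, v ∈ KK f → -v ∈ KK f → v = 0) : ∀ v ∈ KK f, 0 ≤ v.2 := by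
  by_contra hcon
  push Not at hcon
  obtain ⟨v, hv, hv2⟩ := hcon
  have he : ((0, 1) : W) ∈ KK f := KK_vert.2 zero_le_one
  have hint := interior_PP he ((KK_isCone hf).interior_CC hpt)
  obtain ⟨d, hd, hfar⟩ := PP_far hv hv2
  obtain ⟨ε1, hε1, k1⟩ := KK_sign hf s1.mem
  obtain ⟨ε2, hε2, k2⟩ := KK_sign hf s2.mem
  have v1 := Vol_inv (K := KK f) (c := c1) s1.iso hε1 (fun v => by rw [← s1.lin]; exact k1 v) h1.ne'
  have v2 := Vol_inv (K := KK f) (c := c2) s2.iso hε2 (fun v => by rw [← s2.lin]; exact k2 v) h2.ne'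
  have v0 := Vol_one (KK f)
  rw [Vol_eq he h1] at v1
  rw [Vol_eq he h2] at v2
  rw [Vol_eq he one_pos] at v0
  exact kernel_lemma (G := GP (PP (KK f))) (GP_meas (PP_closed _))
    (fun s hs => GP_pos (PP_closed _) hint hs) ⟨∫ p, gw p, fun s _ => GP_le (PP_closed _) s⟩
    (GP_lim (PP_closed _) hd hfar)
    (fun s t u hs hst htu => GP_qc (PP_closed _) (PP_convex _) hs hst htu)
    one_pos h1 h2 hc1.symm h12 hc2.symm v0 v1 v2

end Rigid
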