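import Mathlib
import Pool.Agent.Lib_helper73.Rigid.Vol
import Pool.Agent.Lib_helper73.Rigid.Planar3

/-!
# Cones containing a line, and the main theorem in coordinates
-/

namespace Rigid

open Set Filter Topology

variable {f : ℝ × ℝ → ℝ}

/-- planar section -/
def iot (l1 l2 m r : ℝ) : (ℝ × ℝ) →ₗ[ℝ] W where
  toFun q := ((-(q.1 * l2) - q.2 * m * r * l1, q.1 * l1 - q.2 * m * r * l2), q.2 * r)
  map_add' p q := by ext <;> simp <;> ring
  map_smul' a q := by ext <;> simp <;> ring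

/-- planar projection -/
def prj (l1 l2 m r : ℝ) : W →ₗ[ℝ] (ℝ × ℝ) where
  toFun v := (-(v.1.1 * l2) + v.1.2 * l1, (v.2 - m * (v.1.1 * l1 + v.1.2 * l2)) * r)
  map_add' p q := by ext <;> simp <;> ring
  map_smul' a q := by ext <;> simp <;> ring

theorem prj_iot {l1 l2 m r : ℝ} (hl : l1 ^ 2 + l2 ^ 2 = 1) (hr : r ^ 2 * (1 + m ^ 2) = 1)
    (q : ℝ × ℝ) : prj l1 l2 m r (iot l1 l2 m r q) = q := by
  ext
  · simp only [prj, iot, LinearMap.coe_mk, AddHom.coe_mk]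
    linear_combination q.1 * hl
  · simp only [prj, iot, LinearMap.coe_mk, AddHom.coe_mk]
    linear_combination q.2 * r ^ 2 * m ^ 2 * hl + q.2 * hr

theorem prj_norm {l1 l2 m r : ℝ} (hl : l1 ^ 2 + l2 ^ 2 = 1) (hr : r ^ 2 * (1 + m ^ 2) = 1)
    (v : W) : N2 (prj l1 l2 m r v) * (1 + m ^ 2) =
      Q v * (1 + m ^ 2) - (B v ((l1, l2), m)) ^ 2 := by
  simp only [N2, prj, LinearMap.coe_mk, AddHom.coe_mk, Q, B]
  have e1 : (v.1.1 ^ 2 + v.1.2 ^ 2) = (-(v.1.1 * l2) + v.1.2 * l1) ^ 2 +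
      (v.1.1 * l1 + v.1.2 * l2) ^ 2 := by
    linear_combination -(v.1.1 ^ 2 + v.1.2 ^ 2) * hl
  rw [e1]
  linear_combination ((v.2 - m * (v.1.1 * l1 + v.1.2 * l2)) ^ 2) * hr

/-- planar symmetry induced by a spatial one -/
theorem reduce {l1 l2 m r : ℝ} (hl : l1 ^ 2 + l2 ^ 2 = 1) (hr0 : 0 < r)
    (hr : r ^ 2 * (1 + m ^ 2) = 1)
    (hw1 : (((l1, l2), m) : W) ∈ KK f) (hw2 : -(((l1, l2), m) : W) ∈ KK f)
    (hmul : ∀ w, w ∈ KK f → -w ∈ KK f → ∃ a : ℝ, w = a • (((l1, l2), m) : W))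
    (hf : Continuous f) {c : ℝ} (hc : 0 < c) {T : W ≃ᵃ[ℝ] W} {R : W ≃ₗ[ℝ] W}
    (s : Sym f c T R) {κ : ℝ} (hκ : 0 < κ) (hk : κ ^ 2 * (1 + m ^ 2 * c ^ 2) = 1 + m ^ 2) :
    ∃ T' : (ℝ × ℝ) ≃ᵃ[ℝ] (ℝ × ℝ),
      PSym (fun y => f (-(y * l2), y * l1) * r) c κ T' := by
  set w0 : W := ((l1, l2), m) with hw0
  set h : ℝ → ℝ := fun y => f (-(y * l2), y * l1) * r with hh
  -- `w0` is an eigenvector
  obtain ⟨ε, hε, K⟩ := KK_sign hf s.mem
  have q1 : ε * ε = 1 := by rcases hε with rfl | rfl <;> norm_num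
  have g1 : ε ≠ 0 := by rintro rfl; simp at q1
  obtain ⟨a, ha⟩ : ∃ a : ℝ, ε • T.linear w0 = a • w0 := by
    apply hmul
    · exact (K _).1 hw1
    · have := (K _).1 hw2
      rwa [map_neg, smul_neg] at this
  have hlam : R (Msc c w0) = (ε * a) • w0 := by
    rw [← s.lin, mul_smul, ← ha, smul_smul, q1, one_smul]
  set lam := ε * a with hlamdef
  have hQw : Q w0 = 1 + m ^ 2 := by simp only [Q, hw0]; rw [hl]
  have hQM : Q (Msc c w0) = (c⁻¹) ^ 2 + m ^ 2 := by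
    simp only [Q, hw0, Msc, Prod.smul_mk, smul_eq_mul]
    linear_combination (c⁻¹) ^ 2 * hl
  have hlam2 : lam ^ 2 * (1 + m ^ 2) = (c⁻¹) ^ 2 + m ^ 2 := by
    have := s.iso (Msc c w0)
    rw [hlam, Q_smul, hQw, hQM] at this
    exact this
  have hBR : ∀ v', (B (R v') w0) ^ 2 * ((c⁻¹) ^ 2 + m ^ 2) =
      (B v' (Msc c w0)) ^ 2 * (1 + m ^ 2) := by
    intro v'
    have h1 : lam * B (R v') w0 = B v' (Msc c w0) := by
      rw [← B_smul_right, ← hlam, s.iso.B_eq]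
    rw [← hlam2, ← h1]; ring
  -- the linear part
  set L : (ℝ × ℝ) →ₗ[ℝ] (ℝ × ℝ) :=
    (prj l1 l2 m r).comp ((T.linear : W →ₗ[ℝ] W).comp (iot l1 l2 m r)) with hL
  have hnorm : ∀ q, N2 (L q) = (c⁻¹) ^ 2 * q.1 ^ 2 + κ ^ 2 * q.2 ^ 2 := by
    intro q
    have hLq : L q = prj l1 l2 m r (R (Msc c (iot l1 l2 m r q))) := by
      simp only [hL, LinearMap.comp_apply, LinearEquiv.coe_coe, s.lin]
    set v' := Msc c (iot l1 l2 m r q) with hv'
    have e1 := prj_norm hl hr (R v')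
    rw [s.iso, ← hLq] at e1
    have e2 := hBR v'
    have hBv : B v' (Msc c w0) = q.2 * m * r * (1 - (c⁻¹) ^ 2) := by
      simp only [hv', B, hw0, Msc, iot, Prod.smul_mk, smul_eq_mul, LinearMap.coe_mk, AddHom.coe_mk]
      linear_combination -(q.2 * m * r * (c⁻¹) ^ 2) * hl
    have hQv : Q v' = (c⁻¹) ^ 2 * (q.1 ^ 2 + q.2 ^ 2 * m ^ 2 * r ^ 2) + q.2 ^ 2 * r ^ 2 := by
      simp only [hv', Q, Msc, iot, Prod.smul_mk, smul_eq_mul, LinearMap.coe_mk, AddHom.coe_mk]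
      linear_combination ((c⁻¹) ^ 2 * (q.1 ^ 2 + q.2 ^ 2 * m ^ 2 * r ^ 2)) * hl
    rw [hBv] at e2
    rw [hQv] at e1
    have hkk : ((c⁻¹) ^ 2 + m ^ 2) * κ ^ 2 = (c⁻¹) ^ 2 * (1 + m ^ 2) := by
      rw [← hk]
      have hcc : (c⁻¹) ^ 2 * c ^ 2 = 1 := by field_simp
      linear_combination -(κ ^ 2 * m ^ 2) * hcc
    have hpos : 0 < (1 + m ^ 2) * ((c⁻¹) ^ 2 + m ^ 2) := by positivity
    have e3 : (N2 (L q) - ((c⁻¹) ^ 2 * q.1 ^ 2 + κ ^ 2 * q.2 ^ 2)) *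
        ((1 + m ^ 2) * ((c⁻¹) ^ 2 + m ^ 2)) = 0 := by
      linear_combination ((c⁻¹) ^ 2 + m ^ 2) * e1 - e2 - (1 + m ^ 2) * q.2 ^ 2 * hkk +
        (c⁻¹ ^ 2 * (1 + m ^ 2) ^ 2 * q.2 ^ 2) * hr
    have := (mul_eq_zero.1 e3).resolve_right hpos.ne'
    linarith
  have hinj : Function.Injective L := by
    rw [← LinearMap.ker_eq_bot, LinearMap.ker_eq_bot']
    intro q hq
    have h1 := hnorm q
    rw [hq] at h1
    simp only [N2, Prod.fst_zero, Prod.snd_zero] at h1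
    have hc2 : 0 < (c⁻¹) ^ 2 := by positivity
    have hκ2 : 0 < κ ^ 2 := by positivity
    have p1 : 0 ≤ (c⁻¹) ^ 2 * q.1 ^ 2 := by positivity
    have p2 : 0 ≤ κ ^ 2 * q.2 ^ 2 := by positivity
    have h2 : (c⁻¹) ^ 2 * q.1 ^ 2 = 0 := by nlinarith
    have h3 : κ ^ 2 * q.2 ^ 2 = 0 := by nlinarith
    have h4 : q.1 = 0 := by simpa using (mul_eq_zero.1 h2).resolve_left hc2.ne'
    have h5 : q.2 = 0 := by simpa using (mul_eq_zero.1 h3).resolve_left hκ2.ne'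
    ext
    · exact h4
    · exact h5
  set e : (ℝ × ℝ) ≃ₗ[ℝ] (ℝ × ℝ) := LinearEquiv.ofInjectiveEndo L hinj with he
  have heL : ∀ q, e q = L q := fun q => rfl
  set b := prj l1 l2 m r (T 0) with hb
  set T' : (ℝ × ℝ) ≃ᵃ[ℝ] (ℝ × ℝ) := e.toAffineEquiv.trans (AffineEquiv.constVAdd ℝ (ℝ × ℝ) b)
    with hT'
  have hT'q : ∀ q, T' q = prj l1 l2 m r (T (iot l1 l2 m r q)) := by
    intro q
    have h1 : T (iot l1 l2 m r q) = T 0 + T.linear (iot l1 l2 m r q) := by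
      rw [← aff_apply, zero_add]
    rw [h1, map_add]
    rfl
  have hgr : ∀ v, prj l1 l2 m r v ∈ Gr h ↔ v ∈ Gr f := by
    intro v
    rw [mem_Gr, mem_Gr]
    set X := v.1.1 * l1 + v.1.2 * l2 with hX
    set Y := -(v.1.1 * l2) + v.1.2 * l1 with hY
    have h1 := lin_eq hw1 hw2 (-(Y * l2), Y * l1) X
    have h2 : ((-(Y * l2), Y * l1) : ℝ × ℝ) + X • w0.1 = v.1 := by
      ext
      · simp only [hw0, Prod.fst_add, Prod.smul_fst, smul_eq_mul, hX, hY]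
        linear_combination v.1.1 * hl
      · simp only [hw0, Prod.snd_add, Prod.smul_snd, smul_eq_mul, hX, hY]
        linear_combination v.1.2 * hl
    rw [h2] at h1
    have h3 : (prj l1 l2 m r v).2 = (v.2 - m * X) * r := rfl
    have h4 : (prj l1 l2 m r v).1 = Y := rfl
    rw [h3, h4]
    show (v.2 - m * X) * r = f (-(Y * l2), Y * l1) * r ↔ _
    rw [h1]
    simp only [hw0]
    constructor
    · intro h5
      have := mul_right_cancel₀ hr0.ne' h5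
      linarith
    · intro h5
      rw [h5]; ring
  refine ⟨T', ?_, ?_⟩
  · intro q
    rw [hT'q, hgr, s.mem, ← hgr, prj_iot hl hr]
  · intro q
    have : T'.linear q = L q := rfl
    rw [this]; exact hnorm q

theorem kappa_exists (m c : ℝ) : ∃ κ : ℝ, 0 < κ ∧ κ ^ 2 * (1 + m ^ 2 * c ^ 2) = 1 + m ^ 2 := by
  refine ⟨Real.sqrt ((1 + m ^ 2) / (1 + m ^ 2 * c ^ 2)), by positivity, ?_⟩
  rw [Real.sq_sqrt (by positivity)]
  have : (0:ℝ) < 1 + m ^ 2 * c ^ 2 := by positivity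
  field_simp

theorem partE (hf : Continuous f) {c1 c2 : ℝ} (hc1 : 0 < c1) (hc2 : 0 < c2)
    (n1 : c1 ≠ 1) (n2 : c2 ≠ 1) (n12 : c1 ≠ c2) {T1 T2 : W ≃ᵃ[ℝ] W} {R1 R2 : W ≃ₗ[ℝ] W}
    (s1 : Sym f c1 T1 R1) (s2 : Sym f c2 T2 R2)
    {w : W} (hw1 : w ∈ KK f) (hw2 : -w ∈ KK f) (hw0 : w ≠ 0) :
    ∃ a b d : ℝ, ∀ x y, f (x, y) = a + b * x + d * y := by
  have hvert : ∀ w : W, w ∈ KK f → -w ∈ KK f → w.1 = 0 → w = 0 := by
    intro w h1 h2 h0
    have e1 : w = ((0 : ℝ × ℝ), w.2) := by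
      rw [← h0]
    have e2 : -w = ((0 : ℝ × ℝ), -w.2) := by
      rw [e1]; ext <;> simp
    rw [e2] at h2
    rw [e1] at h1
    have h3 := KK_vert.1 h1
    have h4 := KK_vert.1 h2
    have h5 : w.2 = 0 := by linarith
    rw [e1, h5]; rfl
  have hsm : ∀ (w : W) (r : ℝ), w ∈ KK f → -w ∈ KK f → r • w ∈ KK f := by
    intro w r h1 h2
    rcases le_total 0 r with hr | hr
    · exact KK_smul h1 hr
    · have := KK_smul h2 (r := -r) (by linarith)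
      simpa using this
  -- normalize
  have hn : 0 < w.1.1 ^ 2 + w.1.2 ^ 2 := by
    have h1 : w.1 ≠ 0 := fun h0 => hw0 (hvert w hw1 hw2 h0)
    by_contra hcon
    push Not at hcon
    apply h1
    ext
    · show w.1.1 = 0
      nlinarith [sq_nonneg w.1.1, sq_nonneg w.1.2]
    · show w.1.2 = 0
      nlinarith [sq_nonneg w.1.1, sq_nonneg w.1.2]
  set n := Real.sqrt (w.1.1 ^ 2 + w.1.2 ^ 2) with hndef
  have hn0 : 0 < n := Real.sqrt_pos.2 hn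
  have hnsq : n ^ 2 = w.1.1 ^ 2 + w.1.2 ^ 2 := Real.sq_sqrt hn.le
  obtain ⟨l1, l2, m, hl, hW1, hW2⟩ : ∃ l1 l2 m : ℝ, l1 ^ 2 + l2 ^ 2 = 1 ∧
      (((l1, l2), m) : W) ∈ KK f ∧ -(((l1, l2), m) : W) ∈ KK f := by
    refine ⟨n⁻¹ * w.1.1, n⁻¹ * w.1.2, n⁻¹ * w.2, ?_, ?_, ?_⟩
    · have : (n⁻¹ * w.1.1) ^ 2 + (n⁻¹ * w.1.2) ^ 2 = (w.1.1 ^ 2 + w.1.2 ^ 2) / n ^ 2 := by
        field_simp
      rw [this, hnsq]; exact div_self hn.ne'
    · exact hsm w n⁻¹ hw1 hw2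
    · have := hsm (-w) n⁻¹ hw2 (by rwa [neg_neg])
      rw [smul_neg] at this
      exact this
  set w0 : W := ((l1, l2), m) with hw0def
  have hdec : ∀ x : ℝ × ℝ, f x = f (-((-(x.1 * l2) + x.2 * l1) * l2),
      (-(x.1 * l2) + x.2 * l1) * l1) + (x.1 * l1 + x.2 * l2) * m := by
    intro x
    have h1 := lin_eq hW1 hW2 (-((-(x.1 * l2) + x.2 * l1) * l2), (-(x.1 * l2) + x.2 * l1) * l1)
      (x.1 * l1 + x.2 * l2)
    rw [← h1]
    congr 1
    ext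
    · simp only [hw0def, Prod.fst_add, Prod.smul_fst, smul_eq_mul]
      linear_combination -x.1 * hl
    · simp only [hw0def, Prod.snd_add, Prod.smul_snd, smul_eq_mul]
      linear_combination -x.2 * hl
  by_cases hmul : ∀ w, w ∈ KK f → -w ∈ KK f → ∃ a : ℝ, w = a • w0
  · -- lineality space is a line
    set r := (Real.sqrt (1 + m ^ 2))⁻¹ with hrdef
    have hr0 : 0 < r := by positivity
    have hr : r ^ 2 * (1 + m ^ 2) = 1 := by
      rw [hrdef, inv_pow, Real.sq_sqrt (by positivity)]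
      have : (1 + m ^ 2) ≠ 0 := by positivity
      field_simp
    obtain ⟨κ1, hκ1, k1⟩ := kappa_exists m c1
    obtain ⟨κ2, hκ2, k2⟩ := kappa_exists m c2
    obtain ⟨S1, p1⟩ := reduce hl hr0 hr hW1 hW2 hmul hf hc1 s1 hκ1 k1
    obtain ⟨S2, p2⟩ := reduce hl hr0 hr hW1 hW2 hmul hf hc2 s2 hκ2 k2
    have hcont : Continuous (fun y : ℝ => f (-(y * l2), y * l1) * r) := by fun_prop
    obtain ⟨a, b, hab⟩ := planar_main hcont hc1 hc2 n1 n2 n12 hκ1 hκ2 k1 k2 p1 p2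
    refine ⟨a / r, l1 * m - l2 * b / r, l2 * m + l1 * b / r, fun x y => ?_⟩
    have h1 := hdec (x, y)
    have h2 := hab (-(x * l2) + y * l1)
    have h3 : f (-((-(x * l2) + y * l1) * l2), (-(x * l2) + y * l1) * l1) =
        (a + b * (-(x * l2) + y * l1)) / r := by
      rw [eq_div_iff hr0.ne']; exact h2
    simp only at h1
    rw [h1, h3]
    field_simp
    ring
  · push Not at hmul
    obtain ⟨w', h1, h2, hne⟩ := hmul
    set X := w'.1.1 * l1 + w'.1.2 * l2 with hX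
    set Y := -(w'.1.1 * l2) + w'.1.2 * l1 with hY
    set w2 : W := w' + (-X) • w0 with hw2def
    have k1 : w2 ∈ KK f := KK_add h1 (hsm _ _ hW1 hW2)
    have k2 : -w2 ∈ KK f := by
      rw [hw2def, neg_add, ← smul_neg]
      exact KK_add h2 (hsm _ _ hW2 (by rwa [neg_neg]))
    have e1 : w2.1 = (-(Y * l2), Y * l1) := by
      ext
      · simp only [hw2def, hw0def, Prod.fst_add, Prod.smul_fst, smul_eq_mul, hX, hY]
        linear_combination -w'.1.1 * hl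
      · simp only [hw2def, hw0def, Prod.fst_add, Prod.snd_add, Prod.smul_fst, Prod.smul_snd,
          smul_eq_mul, hX, hY]
        linear_combination -w'.1.2 * hl
    have hY0 : Y ≠ 0 := by
      intro h0
      have h3 : w2 = 0 := hvert w2 k1 k2 (by rw [e1, h0]; ext <;> simp)
      apply hne X
      have : w' = w2 + X • w0 := by rw [hw2def]; module
      rw [this, h3, zero_add]
    refine ⟨f 0, l1 * m - l2 * w2.2 / Y, l2 * m + l1 * w2.2 / Y, fun x y => ?_⟩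
    have h4 := lin_eq k1 k2 0 ((-(x * l2) + y * l1) / Y)
    have h5 : (0 : ℝ × ℝ) + ((-(x * l2) + y * l1) / Y) • w2.1 =
        (-((-(x * l2) + y * l1) * l2), (-(x * l2) + y * l1) * l1) := by
      rw [e1]
      ext
      · simp; field_simp
      · simp; field_simp
    rw [h5] at h4
    have h6 := hdec (x, y)
    simp only at h6
    rw [h6, h4]
    field_simp
    ring

/-- Main theorem in coordinates. -/
theorem main_coord (hf : Continuous f) {c1 c2 : ℝ} (hc1 : 0 < c1) (hc2 : 0 < c2)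
    (n1 : c1 ≠ 1) (n2 : c2 ≠ 1) (n12 : c1 ≠ c2) {T1 T2 : W ≃ᵃ[ℝ] W} {R1 R2 : W ≃ₗ[ℝ] W}
    (s1 : Sym f c1 T1 R1) (s2 : Sym f c2 T2 R2) :
    ∃ a b d : ℝ, ∀ x y, f (x, y) = a + b * x + d * y := by
  by_cases hpt : ∀ v, v ∈ KK f → -v ∈ KK f → v = 0
  · have hup := partC hf hc1 hc2 n1 n2 n12 s1 s2 hpt
    obtain ⟨k, hk⟩ := partD hf hc1 hc2 n1 n2 n12 s1 s2 hpt hup
    exact ⟨k, 0, 0, fun x y => by rw [hk]; ring⟩
  · push Not at hpt
    obtain ⟨w, hw1, hw2, hw0⟩ := hpt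
    exact partE hf hc1 hc2 n1 n2 n12 s1 s2 hw1 hw2 hw0

end Rigid
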